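import Pool.Agent.Helper56.TwoSheet.Sq

/-!
# Approximation of `1 - z` by multiples of the singular inner function on one disc
-/

open Complex Filter Topology
open scoped ENNReal Real NNReal

namespace Pool.Agent.Helper56.TwoSheet

/-- Approximation by polynomials on a closed disc. -/
lemma poly_approx {c : ℂ} {R : ℝ} (hR : 0 < R) {h : ℂ → ℂ}
    (hc : ContinuousOn h (Metric.closedBall c R)) (hd : DifferentiableOn ℂ h (Metric.ball c R))
    {ε : ℝ} (hε : 0 < ε) :
    ∃ q : ℂ → ℂ, Differentiable ℂ q ∧ ∀ z ∈ Metric.closedBall c R, ‖h z - q z‖ < ε := by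
  have huc := (isCompact_closedBall c R).uniformContinuousOn_of_continuous hc
  rw [Metric.uniformContinuousOn_iff] at huc
  obtain ⟨δ, hδ, huc⟩ := huc (ε / 2) (by positivity)
  -- the dilation factor
  obtain ⟨r, hr0, hr1, hrδ⟩ : ∃ r : ℝ, 0 < r ∧ r < 1 ∧ (1 - r) * R < δ := by
    refine ⟨1 - min (1 / 2) (δ / (2 * R)), ?_, ?_, ?_⟩
    · have := min_le_left (1 / 2) (δ / (2 * R)); linarith
    · have : 0 < min (1 / 2) (δ / (2 * R)) := lt_min (by norm_num) (by positivity)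
      linarith
    · have := min_le_right (1 / 2) (δ / (2 * R))
      calc (1 - (1 - min (1 / 2) (δ / (2 * R)))) * R = min (1 / 2) (δ / (2 * R)) * R := by ring
        _ ≤ δ / (2 * R) * R := by gcongr
        _ = δ / 2 := by field_simp
        _ < δ := by linarith
  set hr : ℂ → ℂ := fun z => h (c + r * (z - c)) with hhr
  have hnorm : ∀ z, ‖c + r * (z - c) - c‖ = r * ‖z - c‖ := by
    intro z
    rw [add_sub_cancel_left, norm_mul, Complex.norm_real, Real.norm_eq_abs, abs_of_pos hr0]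
  have hclose : ∀ z ∈ Metric.closedBall c R, ‖h z - hr z‖ < ε / 2 := by
    intro z hz
    have hz' : ‖z - c‖ ≤ R := by rwa [Metric.mem_closedBall, dist_eq_norm] at hz
    have hm : c + r * (z - c) ∈ Metric.closedBall c R := by
      rw [Metric.mem_closedBall, dist_eq_norm, hnorm]
      nlinarith [norm_nonneg (z - c)]
    have := huc z hz _ hm (by
      rw [dist_eq_norm]
      have e : z - (c + r * (z - c)) = ((1 - r : ℝ) : ℂ) * (z - c) := by push_cast; ring
      rw [e, norm_mul, Complex.norm_real, Real.norm_eq_abs, abs_of_pos (by linarith)]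
      calc (1 - r) * ‖z - c‖ ≤ (1 - r) * R := by gcongr
        _ < δ := hrδ)
    rwa [dist_eq_norm] at this
  -- the dilated function is holomorphic in a larger disc
  obtain ⟨R₁, hR₁, hR₁'⟩ : ∃ R₁ : ℝ, R < R₁ ∧ r * R₁ < R := by
    refine ⟨(R + R / r) / 2, ?_, ?_⟩
    · have : R < R / r := by rw [lt_div_iff₀ hr0]; nlinarith
      linarith
    · have e : r * ((R + R / r) / 2) = (r * R + R) / 2 := by field_simp
      rw [e]; nlinarith
  have hR₁0 : 0 < R₁ := by linarith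
  have hdr : DifferentiableOn ℂ hr (Metric.closedBall c R₁) := by
    intro z hz
    rw [Metric.mem_closedBall, dist_eq_norm] at hz
    have hm : c + r * (z - c) ∈ Metric.ball c R := by
      rw [Metric.mem_ball, dist_eq_norm, hnorm]
      calc r * ‖z - c‖ ≤ r * R₁ := by gcongr
        _ < R := hR₁'
    have h1 : DifferentiableAt ℂ h (c + r * (z - c)) :=
      hd.differentiableAt (Metric.isOpen_ball.mem_nhds hm)
    have h2 : DifferentiableAt ℂ (fun z => c + (r : ℂ) * (z - c)) z := by fun_prop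
    exact (h1.comp z h2).differentiableWithinAt
  set R₂ : ℝ≥0 := ⟨R₁, hR₁0.le⟩ with hR₂
  have hps := DifferentiableOn.hasFPowerSeriesOnBall (R := R₂) (c := c) (f := hr)
    (by exact hdr) (by exact_mod_cast hR₁0)
  set R₃ : ℝ≥0 := ⟨(R + R₁) / 2, by linarith⟩ with hR₃
  have hR₃' : (R₃ : ℝ≥0∞) < R₂ := by
    rw [ENNReal.coe_lt_coe, ← NNReal.coe_lt_coe]
    show (R + R₁) / 2 < R₁
    linarith
  have htu := hps.tendstoUniformlyOn' hR₃'
  rw [Metric.tendstoUniformlyOn_iff] at htu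
  obtain ⟨n, hn⟩ := (htu (ε / 2) (by positivity)).exists
  refine ⟨fun y => (cauchyPowerSeries hr c R₂).partialSum n (y - c), ?_, fun z hz => ?_⟩
  · have e : (fun y => (cauchyPowerSeries hr c R₂).partialSum n (y - c)) = fun y =>
        ∑ k ∈ Finset.range n, (y - c) ^ k • (cauchyPowerSeries hr c R₂).coeff k := by
      ext y
      rw [FormalMultilinearSeries.partialSum]
      refine Finset.sum_congr rfl fun k _ => ?_
      exact FormalMultilinearSeries.apply_eq_pow_smul_coeff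
    rw [e]
    fun_prop
  · have hz3 : z ∈ Metric.ball c (R₃ : ℝ) := by
      rw [Metric.mem_closedBall, dist_eq_norm] at hz
      rw [Metric.mem_ball, dist_eq_norm]
      show ‖z - c‖ < (R + R₁) / 2
      linarith
    have h1 := hclose z hz
    have h2 := hn z hz3
    rw [dist_eq_norm] at h2
    calc ‖h z - (cauchyPowerSeries hr c R₂).partialSum n (z - c)‖
        = ‖(h z - hr z) + (hr z - (cauchyPowerSeries hr c R₂).partialSum n (z - c))‖ := by
          congr 1; ring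
      _ ≤ _ := norm_add_le _ _
      _ < ε := by linarith

/-- the `3/4`-th power -/
noncomputable def qp (x : ℂ) : ℂ := x ^ ((3 / 4 : ℝ) : ℂ)

lemma continuousAt_qp {x : ℂ} (hx : 0 ≤ x.re) : ContinuousAt qp x :=
  continuousAt_cpow_const_of_re_pos (Or.inl hx) (by rw [Complex.ofReal_re]; norm_num)

lemma re_qp {x : ℂ} (hx : 0 ≤ x.re) :
    Real.cos (3 * π / 8) * ‖x‖ ^ (3 / 4 : ℝ) ≤ (qp x).re := by
  have hpi := Real.pi_pos
  by_cases h0 : x = 0
  · rw [h0, qp, norm_zero, Complex.zero_cpow (by norm_num), Complex.zero_re,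
      Real.zero_rpow (by norm_num), mul_zero]
  have h1 : (qp x).re = ‖x‖ ^ (3 / 4 : ℝ) * Real.cos (3 / 4 * x.arg) := by
    have e : qp x = (‖x‖ ^ (3 / 4 : ℝ) : ℝ) * cexp ((3 / 4 * x.arg : ℝ) * I) := by
      rw [qp, Complex.cpow_def_of_ne_zero h0, Complex.log, add_mul, Complex.exp_add]
      congr 1
      · rw [Real.rpow_def_of_pos (norm_pos_iff.2 h0)]
        push_cast; ring_nf
      · congr 1; push_cast; ring
    rw [e, Complex.re_ofReal_mul, Complex.exp_ofReal_mul_I_re]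
  rw [h1, mul_comm]
  refine mul_le_mul_of_nonneg_left ?_ (by positivity)
  have h2 : |x.arg| ≤ π / 2 := Complex.abs_arg_le_pi_div_two_iff.2 hx
  rw [← Real.cos_abs (3 / 4 * x.arg)]
  refine Real.cos_le_cos_of_nonneg_of_le_pi (abs_nonneg _) (by linarith) ?_
  rw [abs_mul, abs_of_pos (by norm_num : (0 : ℝ) < 3 / 4)]
  linarith

lemma norm_qp {x : ℂ} : ‖qp x‖ = ‖x‖ ^ (3 / 4 : ℝ) := by
  rw [qp, Complex.norm_cpow_real]

lemma norm_exp_sub_one_le' {w : ℂ} (hw : w.re ≤ 0) : ‖cexp w - 1‖ ≤ ‖w‖ := by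
  have h := (convex_halfSpace_re_le 0).norm_image_sub_le_of_norm_deriv_le (𝕜 := ℂ)
    (f := cexp) (C := 1) (x := 0) (y := w)
    (fun x _ => Complex.differentiable_exp x) (fun x hx => by
      rw [Complex.deriv_exp, Complex.norm_exp, Real.exp_le_one_iff]
      exact hx) (by simp) hw
  simpa using h

/-- the damped inverse of the singular inner function -/
noncomputable def hd (s δ : ℝ) (z : ℂ) : ℂ :=
  if z = 1 then 0 else (1 - z) * cexp (cbr (zeta z) ^ 2 - δ * qp ((1 + s * I) * zeta z))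

lemma zeta_nonneg {s : ℝ} (hs : s * s = 1) {z : ℂ} (hz : z ∈ Metric.closedBall (-(s : ℂ) * I) √2)
    (h1 : z ≠ 1) : 0 ≤ (zeta z).re - s * (zeta z).im := by
  have h2 : zeta z + 1 ≠ 0 := by
    have h : (1 - z) ≠ 0 := sub_ne_zero.2 (Ne.symm h1)
    have : zeta z + 1 = 2 / (1 - z) := by unfold zeta; field_simp; ring
    rw [this]; exact div_ne_zero two_ne_zero h
  have h3 := norm_add_sq hs h2
  rw [zof_zeta h1] at h3
  rw [Metric.mem_closedBall, dist_eq_norm] at hz
  have h4 : ‖z - -(s : ℂ) * I‖ ^ 2 ≤ (√2) ^ 2 := by gcongr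
  rw [Real.sq_sqrt (by norm_num)] at h4
  have h5 : 0 ≤ 4 * ((zeta z).re - s * (zeta z).im) / ‖zeta z + 1‖ ^ 2 := by linarith
  have h6 : (0 : ℝ) < ‖zeta z + 1‖ ^ 2 := by positivity
  rw [le_div_iff₀ h6] at h5
  linarith

lemma re_rot (s : ℝ) (ζ : ℂ) : ((1 + s * I) * ζ).re = ζ.re - s * ζ.im := by simp

lemma norm_rot {s : ℝ} (hs : s * s = 1) (ζ : ℂ) : ‖ζ‖ ≤ ‖(1 + s * I) * ζ‖ ∧
    ‖(1 + s * I) * ζ‖ ≤ 2 * ‖ζ‖ := by
  have h : ‖(1 + s * I : ℂ)‖ ^ 2 = 2 := by
    rw [← Complex.normSq_eq_norm_sq, Complex.normSq_apply]; simp; linarith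
  have h0 := norm_nonneg (1 + s * I : ℂ)
  have h1 : 1 ≤ ‖(1 + s * I : ℂ)‖ := by nlinarith
  have h2 : ‖(1 + s * I : ℂ)‖ ≤ 2 := by nlinarith
  rw [norm_mul]
  constructor <;> nlinarith [norm_nonneg ζ]

lemma exponent_bound {s δ : ℝ} (hs : s * s = 1) (hδ : 0 < δ) :
    ∃ C : ℝ, ∀ ζ : ℂ, 0 ≤ ζ.re - s * ζ.im →
      (cbr ζ ^ 2 - δ * qp ((1 + s * I) * ζ)).re ≤ C := by
  have hpi := Real.pi_pos
  set κ := δ * Real.cos (3 * π / 8) with hκ
  have hcos : 0 < Real.cos (3 * π / 8) := Real.cos_pos_of_mem_Ioo ⟨by linarith, by linarith⟩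
  have hκ0 : 0 < κ := by positivity
  refine ⟨(1 / κ) ^ 8, fun ζ hζ => ?_⟩
  set x := (1 + s * I) * ζ with hx
  have hxre : 0 ≤ x.re := by rw [hx, re_rot]; exact hζ
  have h1 := re_qp hxre
  set a := ‖ζ‖ ^ (1 / 12 : ℝ) with ha
  have ha0 : 0 ≤ a := by positivity
  have e1 : ‖cbr ζ‖ = a ^ 4 := by
    have h2 : ‖cbr ζ‖ ^ 3 = (a ^ 4) ^ 3 := by
      rw [norm_cbr, ha, ← pow_mul, ← Real.rpow_natCast, ← Real.rpow_mul (norm_nonneg _)]
      norm_num
    exact (pow_left_inj₀ (norm_nonneg _) (by positivity) (by norm_num)).1 h2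
  have e2 : a ^ 9 ≤ ‖x‖ ^ (3 / 4 : ℝ) := by
    have h3 : a ^ 9 = ‖ζ‖ ^ (3 / 4 : ℝ) := by
      rw [ha, ← Real.rpow_natCast, ← Real.rpow_mul (norm_nonneg _)]
      norm_num
    rw [h3]
    exact Real.rpow_le_rpow (norm_nonneg _) (norm_rot hs ζ).1 (by norm_num)
  have e3 : (cbr ζ ^ 2).re ≤ a ^ 8 := by
    refine (Complex.re_le_norm _).trans ?_
    rw [norm_pow, e1]
    apply le_of_eq; ring
  have e4 : κ * a ^ 9 ≤ δ * (qp x).re := by
    rw [hκ, mul_assoc]
    refine mul_le_mul_of_nonneg_left ?_ hδ.le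
    refine le_trans ?_ h1
    gcongr
  rw [Complex.sub_re, Complex.re_ofReal_mul]
  have e5 : a ^ 8 - κ * a ^ 9 ≤ (1 / κ) ^ 8 := by
    rcases le_or_gt (1 / κ) a with h | h
    · have h6 : 1 ≤ κ * a := by
        rw [div_le_iff₀ hκ0] at h; linarith
      have h7 : a ^ 8 - κ * a ^ 9 = a ^ 8 * (1 - κ * a) := by ring
      have h8 : a ^ 8 * (1 - κ * a) ≤ 0 := mul_nonpos_of_nonneg_of_nonpos (by positivity) (by linarith)
      have h9 : 0 ≤ (1 / κ) ^ 8 := by positivity
      linarith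
    · have h6 : a ^ 8 ≤ (1 / κ) ^ 8 := pow_le_pow_left₀ ha0 h.le 8
      have h7 : 0 ≤ κ * a ^ 9 := by positivity
      linarith
  linarith

lemma continuousAt_cbr {ζ : ℂ} {s : ℝ} (hζ : 0 ≤ ζ.re - s * ζ.im) : ContinuousAt cbr ζ := by
  refine continuousAt_cpow_const_of_re_pos ?_ (by norm_num)
  by_cases h : ζ.im = 0
  · left; rw [h] at hζ; linarith
  · right; exact h

lemma continuousOn_hd {s δ : ℝ} (hs : s * s = 1) (hδ : 0 < δ) :
    ContinuousOn (hd s δ) (Metric.closedBall (-(s : ℂ) * I) √2) := by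
  intro z hz
  by_cases h1 : z = 1
  · subst h1
    obtain ⟨C, hC⟩ := exponent_bound hs hδ
    have hb : ∀ w ∈ Metric.closedBall (-(s : ℂ) * I) √2, ‖hd s δ w‖ ≤ Real.exp C * ‖1 - w‖ := by
      intro w hw
      by_cases h2 : w = 1
      · rw [hd, if_pos h2, norm_zero]; positivity
      · rw [hd, if_neg h2, norm_mul, Complex.norm_exp, mul_comm]
        gcongr
        exact hC _ (zeta_nonneg hs hw h2)
    rw [ContinuousWithinAt, hd, if_pos rfl]
    refine squeeze_zero_norm' (a := fun w => Real.exp C * ‖1 - w‖) ?_ ?_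
    · filter_upwards [self_mem_nhdsWithin] with w hw using hb w hw
    · have : Continuous fun w : ℂ => Real.exp C * ‖1 - w‖ := by fun_prop
      have h3 := this.tendsto 1
      simp only [sub_self, norm_zero, mul_zero] at h3
      exact h3.mono_left nhdsWithin_le_nhds
  · refine ContinuousAt.continuousWithinAt ?_
    have h2 := zeta_nonneg hs hz h1
    have c1 : ContinuousAt zeta z := (hasDerivAt_zeta h1).continuousAt
    have c2 : ContinuousAt (fun z => cbr (zeta z)) z :=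
      ContinuousAt.comp (g := cbr) (f := zeta) (continuousAt_cbr h2) c1
    have c3 : ContinuousAt (fun z => (1 + s * I) * zeta z) z := continuousAt_const.mul c1
    have c4 : ContinuousAt (fun z => qp ((1 + s * I) * zeta z)) z :=
      ContinuousAt.comp (g := qp) (f := fun z => (1 + s * I) * zeta z)
        (continuousAt_qp (by rw [re_rot]; exact h2)) c3
    have c5 : ContinuousAt (fun z => (1 - z) *
        cexp (cbr (zeta z) ^ 2 - δ * qp ((1 + s * I) * zeta z))) z :=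
      (continuousAt_const.sub continuousAt_id).mul
        (((c2.pow 2).sub (continuousAt_const.mul c4)).cexp)
    refine c5.congr ?_
    filter_upwards [isOpen_ne.mem_nhds h1] with w hw
    rw [hd, if_neg hw]

lemma differentiableOn_hd {s δ : ℝ} (hs : s * s = 1) :
    DifferentiableOn ℂ (hd s δ) (dsk s) := by
  intro z hz
  refine DifferentiableAt.differentiableWithinAt ?_
  have h1 := ne_one_of_mem hs hz
  have h2 := zeta_pos hs hz
  have c1 : DifferentiableAt ℂ zeta z := (hasDerivAt_zeta h1).differentiableAt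
  have c2 : DifferentiableAt ℂ (fun z => cbr (zeta z)) z :=
    (differentiableAt_cbr (zeta_slit h2)).comp z c1
  have c4 : DifferentiableAt ℂ (fun z => qp ((1 + s * I) * zeta z)) z := by
    refine DifferentiableAt.cpow_const (c1.const_mul _) ?_
    rw [Complex.mem_slitPlane_iff]; left; rw [re_rot]; exact h2
  have c5 : DifferentiableAt ℂ (fun z => (1 - z) *
      cexp (cbr (zeta z) ^ 2 - δ * qp ((1 + s * I) * zeta z))) z :=
    ((differentiableAt_id).const_sub 1).mul (((c2.pow 2).sub (c4.const_mul _)).cexp)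
  refine c5.congr_of_eventuallyEq ?_
  filter_upwards [isOpen_ne.mem_nhds h1] with w hw
  rw [hd, if_neg hw]

lemma sing_mul_hd {s δ : ℝ} (hs : s * s = 1) (hδ : 0 < δ) {z : ℂ} (hz : z ∈ dsk s) :
    ‖sing z * hd s δ z - (1 - z)‖ ≤ 16 * δ := by
  have h1 := ne_one_of_mem hs hz
  have h2 := zeta_pos hs hz
  set ζ := zeta z with hζ
  have hne := ne_neg_one h2
  have hne1 := add_one_ne_zero' h2
  have e1 : 1 - z = 2 / (1 + ζ) := by
    rw [← one_sub_zof hne, hζ, zof_zeta h1]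
  set x := (1 + s * I) * ζ with hx
  have hxre : 0 ≤ x.re := by rw [hx, re_rot]; exact h2.le
  have hpi := Real.pi_pos
  have hcos : 0 < Real.cos (3 * π / 8) := Real.cos_pos_of_mem_Ioo ⟨by linarith, by linarith⟩
  have e2 : sing z * hd s δ z - (1 - z) = (1 - z) * (cexp (-(δ * qp x)) - 1) := by
    rw [hd, if_neg h1, sing, ← hζ, ← hx]
    have : cexp (-cbr ζ ^ 2) * ((1 - z) * cexp (cbr ζ ^ 2 - δ * qp x)) =
        (1 - z) * cexp (-(δ * qp x)) := by
      rw [mul_left_comm, ← Complex.exp_add]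
      congr 2; ring
    rw [this]; ring
  have hre : (-(δ * qp x)).re ≤ 0 := by
    rw [Complex.neg_re, Complex.re_ofReal_mul, neg_nonpos]
    refine mul_nonneg hδ.le (le_trans (by positivity) (re_qp hxre))
  have e3 : ‖cexp (-(δ * qp x)) - 1‖ ≤ δ * ‖x‖ ^ (3 / 4 : ℝ) := by
    refine (norm_exp_sub_one_le' hre).trans ?_
    rw [norm_neg, norm_mul, Complex.norm_real, Real.norm_eq_abs, abs_of_pos hδ, norm_qp]
  have e4 : ‖x‖ ^ (3 / 4 : ℝ) ≤ 1 + ‖x‖ := by
    rcases le_or_gt ‖x‖ 1 with h | h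
    · have := Real.rpow_le_one (norm_nonneg x) h (by norm_num : (0 : ℝ) ≤ 3 / 4)
      linarith [norm_nonneg x]
    · have := Real.rpow_le_rpow_of_exponent_le h.le (by norm_num : (3 / 4 : ℝ) ≤ 1)
      rw [Real.rpow_one] at this
      linarith
  have e5 : ‖x‖ ≤ 2 * ‖ζ‖ := (norm_rot hs ζ).2
  have e6 : ‖ζ‖ ≤ 1 + ‖1 + ζ‖ := by
    calc ‖ζ‖ = ‖(1 + ζ) - 1‖ := by congr 1; ring
      _ ≤ ‖1 + ζ‖ + ‖(1 : ℂ)‖ := norm_sub_le _ _
      _ = 1 + ‖1 + ζ‖ := by rw [norm_one]; ring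
  have e7 : (1 : ℝ) / 2 ≤ ‖1 + ζ‖ := by
    have h3 : ‖1 + ζ‖ ^ 2 = (1 + ζ.re) ^ 2 + ζ.im ^ 2 := by
      rw [← Complex.normSq_eq_norm_sq, Complex.normSq_apply]; simp; ring
    have h4 : (1 : ℝ) / 4 ≤ ‖1 + ζ‖ ^ 2 := by
      rw [h3]
      have h5 : (s * ζ.im) ^ 2 = ζ.im ^ 2 := by rw [mul_pow, pow_two s, hs, one_mul]
      rw [← h5]
      nlinarith [sq_nonneg (1 + ζ.re + s * ζ.im), sq_nonneg (1 + ζ.re - s * ζ.im)]
    nlinarith [norm_nonneg (1 + ζ)]
  have e8 : ‖1 - z‖ = 2 / ‖1 + ζ‖ := by rw [e1, norm_div]; norm_num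
  have hpos : 0 < ‖1 + ζ‖ := by linarith
  rw [e2, norm_mul, e8]
  calc 2 / ‖1 + ζ‖ * ‖cexp (-(δ * qp x)) - 1‖ ≤ 2 / ‖1 + ζ‖ * (δ * (8 * ‖1 + ζ‖)) := by
        gcongr
        refine e3.trans ?_
        gcongr
        linarith
    _ = 16 * δ := by field_simp; ring

/-- On the disc `dsk s` the function `1 - z` is a uniform limit of multiples of `sing` by entire
functions. -/
theorem sing_approx {s : ℝ} (hs : s = 1 ∨ s = -1) {ε : ℝ} (hε : 0 < ε) :
    ∃ q : ℂ → ℂ, Differentiable ℂ q ∧ ∀ z ∈ dsk s, ‖sing z * q z - (1 - z)‖ ≤ ε := by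
  have hss := sMul hs
  obtain ⟨q, hq, hqa⟩ := poly_approx (by positivity : 0 < √2)
    (continuousOn_hd hss (show 0 < ε / 32 by positivity)) (differentiableOn_hd hss)
    (show 0 < ε / 2 by positivity)
  refine ⟨q, hq, fun z hz => ?_⟩
  have h1 := hqa z (Metric.ball_subset_closedBall hz)
  have h2 := sing_mul_hd hss (show 0 < ε / 32 by positivity) hz
  have h3 := norm_sing_le hs hz
  have e : sing z * q z - (1 - z) = (sing z * hd s (ε / 32) z - (1 - z)) -
      sing z * (hd s (ε / 32) z - q z) := by ring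
  rw [e]
  refine (norm_sub_le _ _).trans ?_
  rw [norm_mul]
  have h4 : ‖sing z‖ * ‖hd s (ε / 32) z - q z‖ ≤ 1 * (ε / 2) :=
    mul_le_mul h3 h1.le (norm_nonneg _) zero_le_one
  linarith

end Pool.Agent.Helper56.TwoSheet
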