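import Mathlib

/-!
# Non-vanishing of an oscillatory integral
-/

open MeasureTheory Complex Filter Topology
open scoped Real FourierTransform

namespace Pool.Agent.Helper56.TwoSheet

lemma two_add_ne (y : ℝ) : (2 : ℂ) + y * I ≠ 0 := by
  intro h
  have := congrArg Complex.re h
  simp at this

lemma norm_two_add_sq (y : ℝ) : ‖(2 : ℂ) + y * I‖ ^ 2 = 4 + y ^ 2 := by
  rw [← Complex.normSq_eq_norm_sq, Complex.normSq_apply]
  simp; ring

/-- `e^{iy} (2+iy)^{-k}` -/
noncomputable def osc (k : ℕ) (y : ℝ) : ℂ := cexp (y * I) / (2 + y * I) ^ k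

lemma norm_osc (k : ℕ) (y : ℝ) : ‖osc k y‖ = 1 / ‖(2 : ℂ) + y * I‖ ^ k := by
  rw [osc, norm_div, Complex.norm_exp_ofReal_mul_I, norm_pow]

lemma continuous_osc (k : ℕ) : Continuous (osc k) := by
  unfold osc
  refine Continuous.div (by fun_prop) (by fun_prop) fun y => pow_ne_zero _ (two_add_ne y)

lemma integrable_osc {k : ℕ} (hk : 2 ≤ k) : Integrable (osc k) := by
  refine Integrable.mono' integrable_inv_one_add_sq (continuous_osc k).aestronglyMeasurable ?_
  refine Eventually.of_forall fun y => ?_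
  rw [norm_osc, ← one_div]
  refine one_div_le_one_div_of_le (by positivity) ?_
  have h1 : (1 : ℝ) ≤ ‖(2 : ℂ) + y * I‖ := by
    nlinarith [norm_two_add_sq y, norm_nonneg ((2 : ℂ) + y * I), sq_nonneg y]
  calc 1 + y ^ 2 ≤ ‖(2 : ℂ) + y * I‖ ^ 2 := by rw [norm_two_add_sq]; linarith
    _ ≤ ‖(2 : ℂ) + y * I‖ ^ k := pow_le_pow_right₀ h1 hk

lemma hasDerivAt_osc (k : ℕ) (y : ℝ) :
    HasDerivAt (osc k) (I * osc k y - (k * I) * osc (k + 1) y) y := by
  have h1 : HasDerivAt (fun y : ℝ => (y : ℂ) * I) I y := by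
    simpa using (Complex.ofRealCLM.hasDerivAt (x := y)).mul_const I
  have h2 : HasDerivAt (fun y : ℝ => cexp (y * I)) (cexp (y * I) * I) y := h1.cexp
  have h3 : HasDerivAt (fun y : ℝ => (2 + (y : ℂ) * I) ^ k) (k * (2 + (y : ℂ) * I) ^ (k - 1) * I) y :=
    (h1.const_add 2).pow k
  have h4 := h2.div h3 (pow_ne_zero k (two_add_ne y))
  refine h4.congr_deriv ?_
  have h5 := two_add_ne y
  unfold osc
  rcases k with _ | k
  · simp
    ring
  · rw [Nat.add_sub_cancel]
    push_cast
    field_simp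
    ring

lemma integral_osc_succ {k : ℕ} (hk : 2 ≤ k) :
    ∫ y, osc k y = k * ∫ y, osc (k + 1) y := by
  have h1 := integrable_osc hk
  have h2 := integrable_osc (k := k + 1) (by omega)
  have h3 := integral_eq_zero_of_hasDerivAt_of_integrable (hasDerivAt_osc k)
    ((h1.const_mul I).sub (h2.const_mul (k * I))) h1
  rw [integral_sub (h1.const_mul I) (h2.const_mul _), integral_const_mul, integral_const_mul,
    sub_eq_zero, mul_comm (k : ℂ) I, mul_assoc] at h3
  exact mul_left_cancel₀ Complex.I_ne_zero h3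

/-- the function `x e^{-2x}` on the half-line -/
noncomputable def tri (x : ℝ) : ℂ := ((max x 0 * Real.exp (-2 * x) : ℝ) : ℂ)

lemma integral_x_exp {r : ℂ} (hr : 0 < r.re) :
    ∫ x in Set.Ioi (0 : ℝ), (x : ℂ) * cexp (-r * x) = 1 / r ^ 2 := by
  have hr0 : r ≠ 0 := by rintro rfl; simp at hr
  have hd : ∀ x ∈ Set.Ici (0 : ℝ), HasDerivAt
      (fun x : ℝ => -(((x : ℂ) / r + 1 / r ^ 2) * cexp (-r * x))) ((x : ℂ) * cexp (-r * x)) x := by
    intro x _
    have h1 : HasDerivAt (fun x : ℝ => (x : ℂ)) 1 x := Complex.ofRealCLM.hasDerivAt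
    have h2 : HasDerivAt (fun x : ℝ => cexp (-r * x)) (cexp (-r * x) * (-r)) x := by
      simpa using (h1.const_mul (-r)).cexp
    have h3 := (((h1.div_const r).add_const (1 / r ^ 2)).mul h2).neg
    refine h3.congr_deriv ?_
    field_simp
    ring
  have hnorm : ∀ x : ℝ, ‖cexp (-r * x)‖ = Real.exp (-r.re * x) := by
    intro x
    rw [Complex.norm_exp]; congr 1; simp
  have hint : IntegrableOn (fun x : ℝ => (x : ℂ) * cexp (-r * x)) (Set.Ioi 0) := by
    have h1 : IntegrableOn (fun x : ℝ => x ^ (1 : ℝ) * Real.exp (-r.re * x)) (Set.Ioi 0) :=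
      integrableOn_rpow_mul_exp_neg_mul_rpow (s := 1) (p := 1) (by norm_num) one_pos hr |>.congr_fun
        (fun x _ => by simp [Real.rpow_one]) measurableSet_Ioi
    refine Integrable.mono' h1 ?_ ?_
    · exact (Continuous.aestronglyMeasurable (by fun_prop))
    · refine (ae_restrict_iff' measurableSet_Ioi).2 (Eventually.of_forall fun x hx => ?_)
      rw [Set.mem_Ioi] at hx
      rw [norm_mul, hnorm, Complex.norm_real, Real.norm_eq_abs, abs_of_pos hx, Real.rpow_one]
  have hlim : Tendsto (fun x : ℝ => -(((x : ℂ) / r + 1 / r ^ 2) * cexp (-r * x))) atTop (𝓝 0) := by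
    rw [← neg_zero]
    refine Tendsto.neg ?_
    have t1 : Tendsto (fun x : ℝ => x * Real.exp (-r.re * x)) atTop (𝓝 0) := by
      have := Real.tendsto_pow_mul_exp_neg_atTop_nhds_zero 1
      have h2 : Tendsto (fun x : ℝ => r.re * x) atTop atTop := tendsto_id.const_mul_atTop hr
      have h3 := (this.comp h2).const_mul (r.re⁻¹)
      rw [mul_zero] at h3
      refine h3.congr fun x => ?_
      simp only [Function.comp, pow_one]
      rw [neg_mul]
      field_simp
    have t2 : Tendsto (fun x : ℝ => Real.exp (-r.re * x)) atTop (𝓝 0) := by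
      refine Real.tendsto_exp_atBot.comp ?_
      exact tendsto_id.const_mul_atTop_of_neg (by linarith)
    have t3 : Tendsto (fun x : ℝ => ‖r‖⁻¹ * (x * Real.exp (-r.re * x)) +
        ‖1 / r ^ 2‖ * Real.exp (-r.re * x)) atTop (𝓝 0) := by
      have := (t1.const_mul ‖r‖⁻¹).add (t2.const_mul ‖1 / r ^ 2‖)
      simpa using this
    refine squeeze_zero_norm' ?_ t3
    filter_upwards [eventually_ge_atTop (0 : ℝ)] with x hx
    rw [norm_mul, hnorm]
    have h4 : ‖(x : ℂ) / r + 1 / r ^ 2‖ ≤ ‖r‖⁻¹ * x + ‖1 / r ^ 2‖ := by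
      refine (norm_add_le _ _).trans ?_
      rw [norm_div, Complex.norm_real, Real.norm_eq_abs, abs_of_nonneg hx]
      apply le_of_eq
      ring
    calc _ ≤ (‖r‖⁻¹ * x + ‖1 / r ^ 2‖) * Real.exp (-r.re * x) := by gcongr
      _ = _ := by ring
  have h := integral_Ioi_of_hasDerivAt_of_tendsto' hd hint hlim
  rw [h]
  simp

lemma continuous_tri : Continuous tri := by
  unfold tri
  fun_prop

lemma integrable_tri : Integrable tri := by
  have h1 : IntegrableOn (fun x : ℝ => ((x * Real.exp (-2 * x) : ℝ) : ℂ)) (Set.Ioi 0) := by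
    have h1 : IntegrableOn (fun x : ℝ => x ^ (1 : ℝ) * Real.exp (-2 * x)) (Set.Ioi 0) :=
      integrableOn_rpow_mul_exp_neg_mul_rpow (s := 1) (p := 1) (by norm_num) one_pos
        (by norm_num : (0 : ℝ) < 2) |>.congr_fun
        (fun x _ => by simp [Real.rpow_one]) measurableSet_Ioi
    have h2 : IntegrableOn (fun x : ℝ => x * Real.exp (-2 * x)) (Set.Ioi 0) :=
      h1.congr_fun (fun x _ => by simp only [Real.rpow_one]) measurableSet_Ioi
    exact h2.ofReal
  have h2 : tri = (Set.Ioi (0 : ℝ)).indicator fun x => ((x * Real.exp (-2 * x) : ℝ) : ℂ) := by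
    ext x
    by_cases hx : x ∈ Set.Ioi (0 : ℝ)
    · rw [Set.indicator_of_mem hx, tri, max_eq_left (le_of_lt hx)]
    · rw [Set.indicator_of_notMem hx, tri, max_eq_right (not_lt.1 hx)]; simp
  rw [h2]
  exact h1.integrable_indicator measurableSet_Ioi

lemma fourier_tri (ξ : ℝ) : 𝓕 tri ξ = 1 / (2 + (2 * π * ξ : ℝ) * I) ^ 2 := by
  rw [Real.fourier_eq']
  have h1 : (fun v : ℝ => cexp (↑(-2 * π * inner ℝ v ξ) * I) • tri v) =
      (Set.Ioi (0 : ℝ)).indicator fun x : ℝ =>
        (x : ℂ) * cexp (-(2 + (2 * π * ξ : ℝ) * I) * x) := by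
    ext x
    by_cases hx : x ∈ Set.Ioi (0 : ℝ)
    · rw [Set.indicator_of_mem hx, tri, max_eq_left (le_of_lt hx), smul_eq_mul]
      push_cast
      rw [mul_left_comm, ← Complex.exp_add]
      congr 2
      simp
      ring
    · rw [Set.indicator_of_notMem hx, tri, max_eq_right (not_lt.1 hx)]; simp
  rw [h1, integral_indicator measurableSet_Ioi, integral_x_exp (by simp)]

lemma integral_osc_two : ∫ y, osc 2 y ≠ 0 := by
  have hF : Integrable (𝓕 tri) := by
    have h1 : Integrable (fun y : ℝ => (1 : ℂ) / (2 + y * I) ^ 2) := by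
      refine (integrable_osc le_rfl).mono ?_ ?_
      · refine Continuous.aestronglyMeasurable ?_
        exact Continuous.div (by fun_prop) (by fun_prop) fun y => pow_ne_zero _ (two_add_ne y)
      · refine Eventually.of_forall fun y => ?_
        rw [norm_osc, norm_div, norm_pow, norm_one]
    have h2 : Integrable (fun ξ : ℝ => (1 : ℂ) / (2 + ((2 * π * ξ : ℝ) : ℂ) * I) ^ 2) :=
      h1.comp_mul_left' (R := 2 * π) (by positivity)
    refine h2.congr (Eventually.of_forall fun ξ => ?_)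
    exact (fourier_tri ξ).symm
  have h := integrable_tri.fourierInv_fourier_eq hF (continuous_tri.continuousAt (x := (1 : ℝ)))
  rw [Real.fourierInv_eq'] at h
  have h3 : (fun v : ℝ => cexp (↑(2 * π * inner ℝ v (1 : ℝ)) * I) • 𝓕 tri v) =
      fun v : ℝ => osc 2 ((2 * π) * v) := by
    ext v
    rw [fourier_tri, osc, smul_eq_mul, div_eq_mul_one_div (cexp _)]
    congr 2
    · simp
  rw [h3, Measure.integral_comp_mul_left (fun y => osc 2 y) (2 * π)] at h
  intro h0
  rw [h0, smul_zero] at h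
  have : tri 1 ≠ 0 := by
    rw [tri]
    have : (0 : ℝ) < max 1 0 * Real.exp (-2 * 1) := by
      rw [max_eq_left (by norm_num)]; positivity
    exact_mod_cast this.ne'
  exact this h.symm

lemma integral_osc_ne {k : ℕ} (hk : 2 ≤ k) : ∫ y, osc k y ≠ 0 := by
  induction k, hk using Nat.le_induction with
  | base => exact integral_osc_two
  | succ k hk ih =>
    intro h
    rw [integral_osc_succ hk, h, mul_zero] at ih
    exact ih rfl

end Pool.Agent.Helper56.TwoSheet
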