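import Pool.Agent.Helper56.TwoSheet.Kill
import Pool.Agent.Helper56.TwoSheet.Nonvan

/-!
# Continuity of the functional and its value at `(1 - z, 1 - z)`
-/

open MeasureTheory Complex
open scoped ENNReal Real NNReal

namespace Pool.Agent.Helper56.TwoSheet

/-- The affine Riemann map of the disc `dsk s`. -/
noncomputable def dmap (s : ℝ) : ℂ → ℂ := discMap (-(s : ℂ) * I) √2

lemma isRiemannMap_dmap (s : ℝ) : IsRiemannMap (dmap s) (dsk s) :=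
  isRiemannMap_discMap _ (by positivity)

/-- membership in the Smirnov space of `dsk s`, without the normalisation outside -/
def Sm (p s : ℝ) (f : ℂ → ℂ) : Prop :=
  DifferentiableOn ℂ f (dsk s) ∧ smirnovNorm p (dmap s) f < ∞

lemma Sm.sub {p s : ℝ} (hp : 1 ≤ p) {f g : ℂ → ℂ} (hf : Sm p s f) (hg : Sm p s g) :
    Sm p s (f - g) :=
  ⟨hf.1.sub hg.1, (smirnovNorm_sub_le (isRiemannMap_dmap s) hp hf.1.continuousOn
    hg.1.continuousOn).trans_lt (ENNReal.add_lt_top.2 ⟨hf.2, hg.2⟩)⟩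

lemma lin_fT_bound {s : ℝ} (hs : s = 1 ∨ s = -1) {N : ℝ} (hN : 0 ≤ N)
    {g : ℂ → ℂ} (hd : DifferentiableOn ℂ g (dsk (-s))) (hg : ∀ ζ : ℂ, 0 < ζ.re - (-s) * ζ.im →
      ‖g (zof ζ)‖ ≤ N * (‖ζ + 1‖ ^ 2 / (ζ.re - (-s) * ζ.im))) :
    IntegrableOn (fun y : ℝ => fT g (1 + s * y * I)) (Set.Ioi 0) ∧
      ‖lin s (fT g)‖ ≤ 12 * N * (π / 2) :=
  lin_bound hs (differentiableOn_fT hs hd).continuousOn (fT_bound hs hN hg)

lemma lin_fC_bound {s r : ℝ} (hs : s = 1 ∨ s = -1) (hr : r = 1 ∨ r = -1) {N : ℝ} (hN : 0 ≤ N)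
    {g : ℂ → ℂ} (hd : DifferentiableOn ℂ g (dsk r)) (hg : ∀ ζ : ℂ, 0 < ζ.re - r * ζ.im →
      ‖g (zof ζ)‖ ≤ N * (‖ζ + 1‖ ^ 2 / (ζ.re - r * ζ.im))) :
    IntegrableOn (fun y : ℝ => fC s g (1 + s * y * I)) (Set.Ioi 0) ∧
      ‖lin s (fC s g)‖ ≤ cst * N * (π / 2) :=
  lin_bound hs (differentiableOn_fC hs hr hd).continuousOn (fC_bound hs hr hN hg)

/-- The functional is additive and continuous with respect to the Smirnov norms. -/
theorem fnl_continuous {p : ℝ} (hp : 1 ≤ p) : ∃ C : ℝ, 0 ≤ C ∧ ∀ f g : Pair,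
    Sm p 1 f.1 → Sm p (-1) f.2 → Sm p 1 g.1 → Sm p (-1) g.2 →
    ‖fnl f - fnl g‖ ≤ C * ((smirnovNorm p (dmap 1) (f.1 - g.1)).toReal +
      (smirnovNorm p (dmap (-1)) (f.2 - g.2)).toReal) := by
  obtain ⟨K, hK, hpt⟩ := pointwise hp
  have o1 : (1 : ℝ) = 1 ∨ (1 : ℝ) = -1 := Or.inl rfl
  have o2 : (-1 : ℝ) = 1 ∨ (-1 : ℝ) = -1 := Or.inr rfl
  have hc := cst_pos
  have hpi := Real.pi_pos
  refine ⟨(12 + 2 * cst) * K * (π / 2), by positivity, fun f g hf1 hf2 hg1 hg2 => ?_⟩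
  have pw : ∀ r : ℝ, (r = 1 ∨ r = -1) → ∀ h : ℂ → ℂ, Sm p r h → ∀ ζ : ℂ, 0 < ζ.re - r * ζ.im →
      ‖h (zof ζ)‖ ≤ (K * (smirnovNorm p (dmap r) h).toReal) *
        (‖ζ + 1‖ ^ 2 / (ζ.re - r * ζ.im)) := by
    intro r hr h hh ζ hζ
    exact hpt r (sMul hr) h hh.1 hh.2 ζ hζ
  have hh1 := Sm.sub hp hf1 hg1
  have hh2 := Sm.sub hp hf2 hg2
  set N1 := (smirnovNorm p (dmap 1) (f.1 - g.1)).toReal with hN1
  set N2 := (smirnovNorm p (dmap (-1)) (f.2 - g.2)).toReal with hN2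
  have hN1' : 0 ≤ N1 := ENNReal.toReal_nonneg
  have hN2' : 0 ≤ N2 := ENNReal.toReal_nonneg
  have nn0 : ∀ (r : ℝ) (h : ℂ → ℂ), 0 ≤ K * (smirnovNorm p (dmap r) h).toReal := fun r h =>
    mul_nonneg hK.le ENNReal.toReal_nonneg
  -- the differences
  have dT : ∀ s : ℝ, (s = 1 ∨ s = -1) → ∀ a b : ℂ → ℂ, Sm p (-s) a → Sm p (-s) b →
      lin s (fT a) - lin s (fT b) = lin s (fT (a - b)) := by
    intro s hs a b ha hb
    rw [← lin_add (lin_fT_bound hs (nn0 _ _) ha.1 (pw _ (sOr hs) a ha)).1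
      (lin_fT_bound hs (nn0 _ _) hb.1 (pw _ (sOr hs) b hb)).1]
    refine lin_congr hs fun t _ => ?_
    simp only [fT, Pi.sub_apply]; ring
  have dC : ∀ s r : ℝ, (s = 1 ∨ s = -1) → (r = 1 ∨ r = -1) → ∀ a b : ℂ → ℂ, Sm p r a →
      Sm p r b → lin s (fC s a) - lin s (fC s b) = lin s (fC s (a - b)) := by
    intro s r hs hr a b ha hb
    rw [← lin_add (lin_fC_bound hs hr (nn0 _ _) ha.1 (pw _ hr a ha)).1
      (lin_fC_bound hs hr (nn0 _ _) hb.1 (pw _ hr b hb)).1]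
    refine lin_congr hs fun t _ => ?_
    simp only [fC, Pi.sub_apply]; ring
  have e : fnl f - fnl g = lin 1 (fT (f.2 - g.2)) - lin (-1) (fT (f.1 - g.1)) +
      (lin 1 (fC 1 (f.1 - g.1)) - lin 1 (fC 1 (f.2 - g.2))) +
      (lin (-1) (fC (-1) (f.1 - g.1)) - lin (-1) (fC (-1) (f.2 - g.2))) := by
    rw [← dT 1 o1 f.2 g.2 hf2 hg2,
      ← dT (-1) o2 f.1 g.1 (by rw [neg_neg]; exact hf1) (by rw [neg_neg]; exact hg1),
      ← dC 1 1 o1 o1 f.1 g.1 hf1 hg1, ← dC 1 (-1) o1 o2 f.2 g.2 hf2 hg2,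
      ← dC (-1) 1 o2 o1 f.1 g.1 hf1 hg1, ← dC (-1) (-1) o2 o2 f.2 g.2 hf2 hg2, fnl, fnl]
    ring
  have b1 : ‖lin 1 (fT (f.2 - g.2))‖ ≤ 12 * (K * N2) * (π / 2) :=
    (lin_fT_bound o1 (nn0 _ _) hh2.1 (pw _ o2 _ hh2)).2
  have b2 : ‖lin (-1) (fT (f.1 - g.1))‖ ≤ 12 * (K * N1) * (π / 2) := by
    refine (lin_fT_bound o2 (nn0 1 (f.1 - g.1)) ?_ ?_).2
    · rw [neg_neg]; exact hh1.1
    · rw [neg_neg]; exact pw _ o1 _ hh1
  have b3 : ∀ s : ℝ, (s = 1 ∨ s = -1) → ‖lin s (fC s (f.1 - g.1))‖ ≤ cst * (K * N1) * (π / 2) :=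
    fun s hs => (lin_fC_bound hs o1 (nn0 _ _) hh1.1 (pw _ o1 _ hh1)).2
  have b4 : ∀ s : ℝ, (s = 1 ∨ s = -1) → ‖lin s (fC s (f.2 - g.2))‖ ≤ cst * (K * N2) * (π / 2) :=
    fun s hs => (lin_fC_bound hs o2 (nn0 _ _) hh2.1 (pw _ o2 _ hh2)).2
  rw [e]
  calc _ ≤ (‖lin 1 (fT (f.2 - g.2))‖ + ‖lin (-1) (fT (f.1 - g.1))‖) +
        (‖lin 1 (fC 1 (f.1 - g.1))‖ + ‖lin 1 (fC 1 (f.2 - g.2))‖) +
        (‖lin (-1) (fC (-1) (f.1 - g.1))‖ + ‖lin (-1) (fC (-1) (f.2 - g.2))‖) :=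
        (norm_add_le _ _).trans (add_le_add ((norm_add_le _ _).trans
          (add_le_add (norm_sub_le _ _) (norm_sub_le _ _))) (norm_sub_le _ _))
    _ ≤ (12 * (K * N2) * (π / 2) + 12 * (K * N1) * (π / 2)) +
        (cst * (K * N1) * (π / 2) + cst * (K * N2) * (π / 2)) +
        (cst * (K * N1) * (π / 2) + cst * (K * N2) * (π / 2)) :=
        add_le_add (add_le_add (add_le_add b1 b2) (add_le_add (b3 1 o1) (b4 1 o1)))
          (add_le_add (b3 (-1) o2) (b4 (-1) o2))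
    _ = _ := by ring

lemma osc_integrand {s : ℝ} (hs : s = 1 ∨ s = -1) {y : ℝ} (hy : 0 ≤ y) {g : ℂ → ℂ}
    (hg : ∀ z ∈ dsk (-s), g z = 1 - z) :
    fT g (1 + s * y * I) = cexp 1 * osc 8 (s * y) := by
  have ht := line_mem hs hy
  set t : ℂ := 1 + s * y * I with htdef
  have hpos : 0 < (sq t ^ 3).re - (-s) * (sq t ^ 3).im := by linarith [cube_pos hs ht]
  have hne := add_one_ne_zero' hpos
  have hne' : 1 + sq t ^ 3 ≠ 0 := by rwa [add_comm]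
  rw [fT, hg _ (zof_mem (sMul (sOr hs)) hpos), one_sub_zof (ne_neg_one hpos), mm, nn,
    cbr_sq_cube hs ht, sq_pow, osc, htdef]
  have h2 : (1 : ℂ) + (1 + s * y * I) = 2 + ((s * y : ℝ) : ℂ) * I := by push_cast; ring
  have h3 : cexp (1 + s * y * I) = cexp 1 * cexp (((s * y : ℝ) : ℂ) * I) := by
    rw [← Complex.exp_add]; push_cast; ring_nf
  rw [h2, h3]
  have h4 := two_add_ne (s * y)
  rw [← htdef]
  field_simp

/-- The functional does not vanish at `(1 - z, 1 - z)`. -/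
theorem fnl_ne_zero {f : Pair} (h1 : ∀ z ∈ dsk 1, f.1 z = 1 - z)
    (h2 : ∀ z ∈ dsk (-1), f.2 z = 1 - z) : fnl f ≠ 0 := by
  have o1 : (1 : ℝ) = 1 ∨ (1 : ℝ) = -1 := Or.inl rfl
  have o2 : (-1 : ℝ) = 1 ∨ (-1 : ℝ) = -1 := Or.inr rfl
  have hC : ∀ s : ℝ, (s = 1 ∨ s = -1) → lin s (fC s f.1) = lin s (fC s f.2) := by
    intro s hs
    refine lin_congr hs fun t ht => ?_
    simp only [fC]
    rw [h1 _ (zof_mem (by norm_num) (sq_pos hs o1 ht)),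
      h2 _ (zof_mem (by norm_num) (sq_pos hs o2 ht))]
  have e1 : lin 1 (fT f.2) = I * ∫ y in Set.Ioi (0 : ℝ), cexp 1 * osc 8 y := by
    rw [lin]
    congr 1
    · simp
    · refine setIntegral_congr_fun measurableSet_Ioi fun y hy => ?_
      have := osc_integrand o1 (le_of_lt hy) (g := f.2) h2
      rw [one_mul] at this
      exact this
  have e2 : lin (-1) (fT f.1) = -(I * ∫ y in Set.Ioi (0 : ℝ), cexp 1 * osc 8 (-y)) := by
    rw [lin, ← neg_mul]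
    congr 1
    · simp
    · refine setIntegral_congr_fun measurableSet_Ioi fun y hy => ?_
      have := osc_integrand o2 (le_of_lt hy) (g := f.1) (by rw [neg_neg]; exact h1)
      rw [neg_one_mul] at this
      exact this
  have hint : Integrable fun y : ℝ => cexp 1 * osc 8 y := (integrable_osc (by norm_num)).const_mul _
  have e3 : ∫ y in Set.Ioi (0 : ℝ), cexp 1 * osc 8 (-y) =
      ∫ y in Set.Iic (0 : ℝ), cexp 1 * osc 8 y := by
    have := integral_comp_neg_Ioi (0 : ℝ) (fun y => cexp 1 * osc 8 y)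
    rwa [neg_zero] at this
  have e4 := intervalIntegral.integral_Iic_add_Ioi (b := 0) hint.integrableOn hint.integrableOn
  rw [fnl, hC 1 o1, hC (-1) o2, sub_self, sub_self, add_zero, add_zero, e1, e2, sub_neg_eq_add,
    e3, ← mul_add, add_comm (∫ y in Set.Ioi (0 : ℝ), cexp 1 * osc 8 y), e4, integral_const_mul]
  exact mul_ne_zero Complex.I_ne_zero (mul_ne_zero (Complex.exp_ne_zero _)
    (integral_osc_ne (by norm_num)))

end Pool.Agent.Helper56.TwoSheet
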