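import Mathlib

/-!
# Smirnov spaces on a two-sheeted surface: definitions

`R₀` is the disjoint union of two sheets `A` and `B`.  A function on `R₀` is a pair `(f_A, f_B)`.
A function on a domain `V` is coded as a function `ℂ → ℂ` which vanishes outside `V`.
-/

open MeasureTheory
open scoped ENNReal Real NNReal

namespace Pool.Agent.Helper56.TwoSheet

/-- `φ` is a Riemann map of the open unit disc onto `V`. -/
def IsRiemannMap (φ : ℂ → ℂ) (V : Set ℂ) : Prop :=
  DifferentiableOn ℂ φ (Metric.ball 0 1) ∧ Set.InjOn φ (Metric.ball 0 1) ∧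
    φ '' Metric.ball 0 1 = V

/-- The norm of the Smirnov space `E^p(V)`, computed with a Riemann map `φ` of the unit disc onto
`V`: the `H^p` norm of `(f ∘ φ) (φ')^{1/p}`, that is
`sup_{0<r<1} (∫_0^{2π} |f (φ (r e^{iθ}))|^p |φ' (r e^{iθ})| dθ)^{1/p}`. -/
noncomputable def smirnovNorm (p : ℝ) (φ f : ℂ → ℂ) : ℝ≥0∞ :=
  ⨆ r ∈ Set.Ioo (0 : ℝ) 1,
    (∫⁻ θ in Set.Ioc (0 : ℝ) (2 * π),
      ‖f (φ (circleMap 0 r θ))‖ₑ ^ p * ‖deriv φ (circleMap 0 r θ)‖ₑ) ^ (1 / p)

/-- `f` belongs to the Smirnov space `E^p(V)`: it is holomorphic in `V` (and zero outside `V`)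
and its Smirnov norm is finite. -/
def IsSmirnov (p : ℝ) (φ : ℂ → ℂ) (V : Set ℂ) (f : ℂ → ℂ) : Prop :=
  DifferentiableOn ℂ f V ∧ (∀ z ∉ V, f z = 0) ∧ smirnovNorm p φ f < ∞

/-- Functions on the two-sheeted surface: pairs `(f_A, f_B)`. -/
abbrev Pair : Type := (ℂ → ℂ) × (ℂ → ℂ)

/-- Pairs are added componentwise and pointwise. -/
noncomputable instance (priority := high) instAddCommGroupPair : AddCommGroup Pair :=
  Prod.instAddCommGroup

/-- Pairs are added componentwise and pointwise. -/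
noncomputable instance (priority := high) instAddCommMonoidPair : AddCommMonoid Pair :=
  Prod.instAddCommMonoid

/-- Pairs are multiplied by scalars componentwise and pointwise. -/
noncomputable instance (priority := high) instModulePair : Module ℂ Pair :=
  Prod.instModule

/-- Riemann maps of `A`, `B` and `A ∩ B` (used only to compute Smirnov norms). -/
structure RiemannMaps (A B : Set ℂ) where
  a : ℂ → ℂ
  b : ℂ → ℂ
  c : ℂ → ℂ
  isRiemannMap_a : IsRiemannMap a A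
  isRiemannMap_b : IsRiemannMap b B
  isRiemannMap_c : IsRiemannMap c (A ∩ B)

variable {A B : Set ℂ}

/-- `f = (f_A, f_B)` belongs to `E^p(R₀) = E^p(A) ⊕ E^p(B)`. -/
def IsSmirnovPair (p : ℝ) (Φ : RiemannMaps A B) (f : Pair) : Prop :=
  IsSmirnov p Φ.a A f.1 ∧ IsSmirnov p Φ.b B f.2

/-- The norm of `E^p(R₀) = E^p(A) ⊕ E^p(B)`. -/
noncomputable def pairNorm (p : ℝ) (Φ : RiemannMaps A B) (f : Pair) : ℝ≥0∞ :=
  smirnovNorm p Φ.a f.1 + smirnovNorm p Φ.b f.2

/-- The operator `M_{R₀} - λ : (f_A, f_B) ↦ ((z - λ) f_A, (z - λ) f_B)`. -/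
def mulSub (lam : ℂ) (f : Pair) : Pair :=
  (fun z => (z - lam) * f.1 z, fun z => (z - lam) * f.2 z)

/-- `E ∈ Lat (M_{R₀})`: a closed subspace of `E^p(R₀)`, invariant under multiplication by `z`. -/
structure IsInvariantSubspace (p : ℝ) (Φ : RiemannMaps A B) (E : Submodule ℂ Pair) : Prop where
  smirnov : ∀ f ∈ E, IsSmirnovPair p Φ f
  closed : ∀ f : Pair, IsSmirnovPair p Φ f →
    (∀ ε : ℝ≥0∞, 0 < ε → ∃ g ∈ E, pairNorm p Φ (f - g) < ε) → f ∈ E
  invariant : ∀ f ∈ E, mulSub 0 f ∈ E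

/-- The linear functionals on `E`. -/
abbrev Functional (E : Submodule ℂ Pair) : Type := E →ₗ[ℂ] ℂ

/-- Linear functionals are added pointwise. -/
noncomputable instance (priority := high) instAddCommMonoidFunctional (E : Submodule ℂ Pair) :
    AddCommMonoid (Functional E) :=
  LinearMap.addCommMonoid

/-- Linear functionals are multiplied by scalars pointwise. -/
noncomputable instance (priority := high) instModuleFunctional (E : Submodule ℂ Pair) :
    Module ℂ (Functional E) :=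
  LinearMap.module

/-- The linear functional `l` on `E` is bounded. -/
def IsBoundedFunctional (p : ℝ) (Φ : RiemannMaps A B) {E : Submodule ℂ Pair}
    (l : Functional E) : Prop :=
  ∃ K : ℝ≥0, ∀ f : E, ‖l f‖ₑ ≤ K * pairNorm p Φ f

/-- The linear functional `l` vanishes on `(M_{R₀} - λ) E`. -/
def KillsRange {E : Submodule ℂ Pair} (lam : ℂ) (l : Functional E) : Prop :=
  ∀ f g : E, (g : Pair) = mulSub lam f → l g = 0

lemma isBoundedFunctional_add {p : ℝ} {Φ : RiemannMaps A B} {E : Submodule ℂ Pair}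
    {l₁ l₂ : Functional E} (h₁ : IsBoundedFunctional p Φ l₁) (h₂ : IsBoundedFunctional p Φ l₂) :
    IsBoundedFunctional p Φ (l₁ + l₂) := by
  obtain ⟨K₁, h₁⟩ := h₁
  obtain ⟨K₂, h₂⟩ := h₂
  refine ⟨K₁ + K₂, fun f => ?_⟩
  calc ‖(l₁ + l₂) f‖ₑ ≤ ‖l₁ f‖ₑ + ‖l₂ f‖ₑ := by
        rw [LinearMap.add_apply]; exact enorm_add_le _ _
    _ ≤ K₁ * pairNorm p Φ f + K₂ * pairNorm p Φ f := add_le_add (h₁ f) (h₂ f)
    _ = _ := by push_cast; rw [add_mul]

lemma isBoundedFunctional_smul {p : ℝ} {Φ : RiemannMaps A B} {E : Submodule ℂ Pair}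
    {l : Functional E} (c : ℂ) (h : IsBoundedFunctional p Φ l) :
    IsBoundedFunctional p Φ (c • l) := by
  obtain ⟨K, h⟩ := h
  refine ⟨‖c‖₊ * K, fun f => ?_⟩
  rw [LinearMap.smul_apply, enorm_smul]
  push_cast
  rw [mul_assoc]
  exact mul_le_mul' le_rfl (h f)

/-- The kernel of the Banach space adjoint of `(M_{R₀} - λ)|_E`: the bounded linear functionals
on `E` which vanish on `(M_{R₀} - λ) E`. -/
def adjointKernel (p : ℝ) (Φ : RiemannMaps A B) (E : Submodule ℂ Pair) (lam : ℂ) :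
    Submodule ℂ (Functional E) where
  carrier := {l | IsBoundedFunctional p Φ l ∧ KillsRange lam l}
  add_mem' := fun h₁ h₂ => ⟨isBoundedFunctional_add h₁.1 h₂.1, fun f g h => by
    rw [LinearMap.add_apply, h₁.2 f g h, h₂.2 f g h, add_zero]⟩
  zero_mem' := ⟨⟨0, fun f => by simp⟩, fun f g _ => by simp⟩
  smul_mem' := fun c _ h => ⟨isBoundedFunctional_smul c h.1, fun f g hfg => by
    rw [LinearMap.smul_apply, h.2 f g hfg, smul_zero]⟩

/-- The rank function `r_E(λ) = dim ker (((M_{R₀} - λ)|_E)^*)`. -/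
noncomputable def rankFunction (p : ℝ) (Φ : RiemannMaps A B) (E : Submodule ℂ Pair) (lam : ℂ) :
    ℕ :=
  Module.finrank ℂ (adjointKernel p Φ E lam)

/-- The trace of `E` on the sheet `A`: the closure in `E^p(A)` of the restrictions of the elements
of `E` to the sheet `A`. -/
def traceA (p : ℝ) (Φ : RiemannMaps A B) (E : Submodule ℂ Pair) : Set (ℂ → ℂ) :=
  {g | IsSmirnov p Φ.a A g ∧
    ∀ ε : ℝ≥0∞, 0 < ε → ∃ f ∈ E, smirnovNorm p Φ.a (g - f.1) < ε}

/-- The trace of `E` on the sheet `B`. -/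
def traceB (p : ℝ) (Φ : RiemannMaps A B) (E : Submodule ℂ Pair) : Set (ℂ → ℂ) :=
  {g | IsSmirnov p Φ.b B g ∧
    ∀ ε : ℝ≥0∞, 0 < ε → ∃ f ∈ E, smirnovNorm p Φ.b (g - f.2) < ε}

/-- The restriction of a function on `R₀` to the two copies of `A ∩ B`. -/
noncomputable def restrictC (A B : Set ℂ) (f : Pair) : Pair :=
  ((A ∩ B).indicator f.1, (A ∩ B).indicator f.2)

/-- The trace of `E` on the two copies of `A ∩ B`: the closure in `E^p(A ∩ B) ⊕ E^p(A ∩ B)` of the
restrictions of the elements of `E`. -/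
def traceC (p : ℝ) (Φ : RiemannMaps A B) (E : Submodule ℂ Pair) : Set Pair :=
  {g | (IsSmirnov p Φ.c (A ∩ B) g.1 ∧ IsSmirnov p Φ.c (A ∩ B) g.2) ∧
    ∀ ε : ℝ≥0∞, 0 < ε → ∃ f ∈ E,
      smirnovNorm p Φ.c (g.1 - (restrictC A B f).1) +
        smirnovNorm p Φ.c (g.2 - (restrictC A B f).2) < ε}

/-- The standard subspace `St(E)`: all `f ∈ E^p(R₀)` whose restrictions to the sheet `A`, to the
sheet `B` and to the two copies of `A ∩ B` lie in the corresponding traces of `E`. -/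
def standardSubspace (p : ℝ) (Φ : RiemannMaps A B) (E : Submodule ℂ Pair) : Set Pair :=
  {f | IsSmirnovPair p Φ f ∧ f.1 ∈ traceA p Φ E ∧ f.2 ∈ traceB p Φ E ∧
    restrictC A B f ∈ traceC p Φ E}

end Pool.Agent.Helper56.TwoSheet
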