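import Pool.Agent.Helper56.TwoSheet.Norm

/-!
# Smirnov norms on discs
-/

open MeasureTheory
open scoped ENNReal Real NNReal

namespace Pool.Agent.Helper56.TwoSheet

/-- The affine Riemann map of a disc. -/
noncomputable def discMap (c : ℂ) (R : ℝ) (w : ℂ) : ℂ := c + R * w

lemma hasDerivAt_discMap (c : ℂ) (R : ℝ) (w : ℂ) : HasDerivAt (discMap c R) (R : ℂ) w := by
  unfold discMap
  simpa using ((hasDerivAt_id w).const_mul (R : ℂ)).const_add c

lemma isRiemannMap_discMap (c : ℂ) {R : ℝ} (hR : 0 < R) :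
    IsRiemannMap (discMap c R) (Metric.ball c R) := by
  refine ⟨fun w _ => (hasDerivAt_discMap c R w).differentiableAt.differentiableWithinAt,
    fun x _ y _ h => ?_, ?_⟩
  · simp only [discMap, add_right_inj] at h
    exact mul_left_cancel₀ (by exact_mod_cast hR.ne') h
  · ext z
    constructor
    · rintro ⟨w, hw, rfl⟩
      rw [Metric.mem_ball, dist_zero_right] at hw
      rw [Metric.mem_ball, dist_eq_norm, discMap, add_sub_cancel_left, norm_mul,
        Complex.norm_real, Real.norm_eq_abs, abs_of_pos hR]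
      nlinarith
    · intro hz
      rw [Metric.mem_ball, dist_eq_norm] at hz
      refine ⟨(z - c) / R, ?_, ?_⟩
      · rw [Metric.mem_ball, dist_zero_right, norm_div, Complex.norm_real, Real.norm_eq_abs,
          abs_of_pos hR, div_lt_one hR]
        exact hz
      · have : (R : ℂ) ≠ 0 := by exact_mod_cast hR.ne'
        simp only [discMap]; field_simp; ring

lemma discMap_circleMap (c : ℂ) (R r θ : ℝ) :
    discMap c R (circleMap 0 r θ) = circleMap c (R * r) θ := by
  simp only [discMap, circleMap]; push_cast; ring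

lemma lintegral_deriv_discMap (c : ℂ) {R : ℝ} (hR : 0 < R) (r : ℝ) :
    ∫⁻ θ in Set.Ioc (0 : ℝ) (2 * π), ‖deriv (discMap c R) (circleMap 0 r θ)‖ₑ =
      ENNReal.ofReal (R * (2 * π)) := by
  have : ∀ θ : ℝ, ‖deriv (discMap c R) (circleMap 0 r θ)‖ₑ = ENNReal.ofReal R := by
    intro θ
    rw [(hasDerivAt_discMap c R _).deriv, ← ofReal_norm, Complex.norm_real,
      Real.norm_eq_abs, abs_of_pos hR]
  simp only [this, lintegral_const, Measure.restrict_apply MeasurableSet.univ, Set.univ_inter,
    Real.volume_Ioc, sub_zero]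
  rw [← ENNReal.ofReal_mul hR.le]

/-- Pointwise estimate in the Smirnov space of a disc. -/
lemma disc_pointwise {p : ℝ} (hp : 1 ≤ p) (c : ℂ) {R : ℝ} (hR : 0 < R) :
    ∃ K : ℝ, 0 < K ∧ ∀ f : ℂ → ℂ, DifferentiableOn ℂ f (Metric.ball c R) →
      smirnovNorm p (discMap c R) f < ∞ → ∀ z ∈ Metric.ball c R,
      ‖f z‖ ≤ K * (smirnovNorm p (discMap c R) f).toReal / (R - ‖z - c‖) := by
  have hp0 : 0 < p := by linarith
  have hpi := Real.pi_pos
  -- the constant coming from Hölder
  set L : ℝ≥0∞ := ENNReal.ofReal R ^ (-(1 / p)) * ENNReal.ofReal (2 * π) ^ (1 / 1 - 1 / p) with hL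
  have hLtop : L ≠ ∞ := by
    refine ENNReal.mul_ne_top ?_ ?_
    · exact ENNReal.rpow_ne_top_of_ne_zero (by simpa using hR) ENNReal.ofReal_ne_top
    · refine (ENNReal.rpow_lt_top_of_nonneg ?_ ENNReal.ofReal_ne_top).ne
      rw [sub_nonneg, div_le_div_iff₀ hp0 one_pos]; linarith
  refine ⟨R / π * (L.toReal + 1), by positivity, fun f hf hfin z hz => ?_⟩
  set N := smirnovNorm p (discMap c R) f with hN
  rw [Metric.mem_ball, dist_eq_norm] at hz
  set ρ := ‖z - c‖ with hρ
  have hρ0 : 0 ≤ ρ := norm_nonneg _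
  set s : ℝ := (R + ρ) / 2 with hs
  have hs1 : ρ < s := by rw [hs]; linarith
  have hs2 : s < R := by rw [hs]; linarith
  have hs0 : 0 < s := by linarith
  set r : ℝ := s / R with hr
  have hrI : r ∈ Set.Ioo (0 : ℝ) 1 := ⟨by positivity, by rw [hr, div_lt_one hR]; exact hs2⟩
  have hRr : R * r = s := by rw [hr]; field_simp
  have hRM := isRiemannMap_discMap c hR
  -- the integral of the norm
  have hcont : Continuous fun θ : ℝ => f (circleMap c s θ) := by
    have h := continuous_comp hRM hrI hf.continuousOn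
    simpa only [discMap_circleMap, hRr] using h
  set J : ℝ := ∫ θ in (0 : ℝ)..2 * π, ‖f (circleMap c s θ)‖ with hJ
  have hCauchy : ‖f z‖ ≤ (2 * π)⁻¹ * (s / (s - ρ) * J) := by
    have hzb : z ∈ Metric.ball c s := by rw [Metric.mem_ball, dist_eq_norm]; exact hs1
    have h1 : (∮ ζ in C(c, s), (ζ - z)⁻¹ • f ζ) = (2 * π * Complex.I : ℂ) • f z := by
      refine DiffContOnCl.circleIntegral_sub_inv_smul ?_ hzb
      refine DifferentiableOn.diffContOnCl_ball (U := Metric.ball c R) hf ?_
      exact Metric.closedBall_subset_ball hs2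
    have h2 : ‖∮ ζ in C(c, s), (ζ - z)⁻¹ • f ζ‖ ≤ s / (s - ρ) * J := by
      rw [circleIntegral, hJ, ← intervalIntegral.integral_const_mul]
      refine intervalIntegral.norm_integral_le_of_norm_le (by positivity) ?_ ?_
      · refine Filter.Eventually.of_forall fun θ _ => ?_
        rw [norm_smul, norm_smul, norm_inv, deriv_circleMap, norm_mul, Complex.norm_I, mul_one,
          norm_circleMap_zero, abs_of_pos hs0, ← mul_assoc]
        refine mul_le_mul_of_nonneg_right ?_ (norm_nonneg _)
        rw [div_eq_mul_inv]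
        refine mul_le_mul_of_nonneg_left ?_ hs0.le
        refine inv_anti₀ (by linarith) ?_
        have h3 : ‖circleMap c s θ - c‖ = s := by
          rw [circleMap_sub_center, norm_circleMap_zero, abs_of_pos hs0]
        calc s - ρ = ‖circleMap c s θ - c‖ - ‖z - c‖ := by rw [h3]
          _ ≤ ‖circleMap c s θ - c - (z - c)‖ := norm_sub_norm_le _ _
          _ = ‖circleMap c s θ - z‖ := by congr 1; ring
      · exact (hcont.norm.const_mul _).intervalIntegrable _ _
    rw [h1, norm_smul] at h2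
    have h4 : ‖(2 * π * Complex.I : ℂ)‖ = 2 * π := by
      rw [norm_mul, norm_mul, Complex.norm_I, Complex.norm_real, Real.norm_eq_abs,
        abs_of_pos hpi]; norm_num
    rw [h4] at h2
    rw [← div_eq_inv_mul, le_div_iff₀ (by positivity)]
    linarith
  have hJle : ENNReal.ofReal J ≤ L * N := by
    have h1 : ENNReal.ofReal J = ∫⁻ θ in Set.Ioc (0 : ℝ) (2 * π), ‖f (circleMap c s θ)‖ₑ := by
      rw [hJ, intervalIntegral.integral_of_le (by positivity),
        ofReal_integral_eq_lintegral_ofReal]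
      · simp only [ofReal_norm]
      · exact (hcont.norm.integrableOn_Ioc)
      · exact Filter.Eventually.of_forall fun _ => norm_nonneg _
    have h2 := eLpNorm'_le_eLpNorm'_mul_rpow_measure_univ (p := 1) (q := p) one_pos hp
      (μ := volume.restrict (Set.Ioc (0 : ℝ) (2 * π))) (f := fun θ : ℝ => f (circleMap c s θ))
      hcont.aestronglyMeasurable
    simp only [eLpNorm'_eq_lintegral_enorm, ENNReal.rpow_one, div_one,
      Measure.restrict_apply MeasurableSet.univ, Set.univ_inter, Real.volume_Ioc, sub_zero] at h2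
    have h3 : (∫⁻ θ in Set.Ioc (0 : ℝ) (2 * π), ‖f (circleMap c s θ)‖ₑ ^ p) ^ (1 / p) ≤
        ENNReal.ofReal R ^ (-(1 / p)) * N := by
      have h4 : sInt p (discMap c R) f r =
          ENNReal.ofReal R * ∫⁻ θ in Set.Ioc (0 : ℝ) (2 * π), ‖f (circleMap c s θ)‖ₑ ^ p := by
        unfold sInt
        rw [← lintegral_const_mul' _ _ ENNReal.ofReal_ne_top]
        refine lintegral_congr fun θ => ?_
        rw [discMap_circleMap, hRr, (hasDerivAt_discMap c R _).deriv, mul_comm,
          ← ofReal_norm (R : ℂ), Complex.norm_real, Real.norm_eq_abs, abs_of_pos hR]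
      have h5 := le_smirnovNorm hrI p (discMap c R) f
      rw [h4, ENNReal.mul_rpow_of_nonneg _ _ (by positivity)] at h5
      calc _ = ENNReal.ofReal R ^ (-(1 / p)) * (ENNReal.ofReal R ^ (1 / p) *
            (∫⁻ θ in Set.Ioc (0 : ℝ) (2 * π), ‖f (circleMap c s θ)‖ₑ ^ p) ^ (1 / p)) := by
            rw [← mul_assoc, ← ENNReal.rpow_add _ _ (by simpa using hR) ENNReal.ofReal_ne_top,
              neg_add_cancel, ENNReal.rpow_zero, one_mul]
        _ ≤ _ := mul_le_mul' le_rfl h5
    rw [h1]
    refine h2.trans ?_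
    calc _ ≤ (ENNReal.ofReal R ^ (-(1 / p)) * N) * ENNReal.ofReal (2 * π) ^ (1 - 1 / p) :=
          mul_le_mul' h3 le_rfl
      _ = L * N := by rw [hL, div_one]; ring
  have hJ0 : 0 ≤ J := intervalIntegral.integral_nonneg (by positivity) fun _ _ => norm_nonneg _
  have hJ2 : J ≤ L.toReal * N.toReal := by
    have := ENNReal.toReal_mono (ENNReal.mul_ne_top hLtop hfin.ne) hJle
    rwa [ENNReal.toReal_ofReal hJ0, ENNReal.toReal_mul] at this
  have hsρ : s - ρ = (R - ρ) / 2 := by rw [hs]; ring
  have hRρ : 0 < R - ρ := by linarith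
  calc ‖f z‖ ≤ (2 * π)⁻¹ * (s / (s - ρ) * J) := hCauchy
    _ ≤ (2 * π)⁻¹ * (R / ((R - ρ) / 2) * ((L.toReal + 1) * N.toReal)) := by
        rw [hsρ]
        gcongr
        exact hJ2.trans (mul_le_mul_of_nonneg_right (by linarith) ENNReal.toReal_nonneg)
    _ = _ := by field_simp

end Pool.Agent.Helper56.TwoSheet
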