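import Mathlib

/-!
# The Faddeeva function
-/

open MeasureTheory Complex
open scoped Real

namespace Pool.Agent.Helper56.TwoSheet

/-- The integrand of the Faddeeva function. -/
noncomputable def fadIntegrand (x : ℂ) (s : ℝ) : ℂ := cexp (-(s : ℂ) ^ 2 + 2 * I * x * s)

/-- The Faddeeva function `w(x) = (2/√π) ∫_0^∞ exp (-s² + 2 i x s) ds = exp(-x²) erfc(-ix)`. -/
noncomputable def fad (x : ℂ) : ℂ := (2 / √π : ℝ) * ∫ s in Set.Ioi (0 : ℝ), fadIntegrand x s

lemma integrable_fadIntegrand (x : ℂ) : Integrable (fadIntegrand x) := by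
  have h := integrable_cexp_quadratic (b := 1) (by simp) (2 * I * x) 0
  refine h.congr (Filter.Eventually.of_forall fun s => ?_)
  simp only [fadIntegrand]
  congr 1; ring

lemma norm_fadIntegrand (x : ℂ) (s : ℝ) :
    ‖fadIntegrand x s‖ = Real.exp (-s ^ 2 - 2 * x.im * s) := by
  rw [fadIntegrand, Complex.norm_exp]
  congr 1
  simp [pow_two]
  ring

lemma hasDerivAt_fadIntegrand (s : ℝ) (x : ℂ) :
    HasDerivAt (fun x => fadIntegrand x s) (2 * I * s * fadIntegrand x s) x := by
  have h : HasDerivAt (fun x : ℂ => -(s : ℂ) ^ 2 + 2 * I * x * s) (2 * I * s) x := by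
    have := (((hasDerivAt_id x).const_mul (2 * I)).mul_const (s : ℂ)).const_add (-(s : ℂ) ^ 2)
    simpa using this
  exact h.cexp.congr_deriv (mul_comm _ _)

lemma differentiable_fad : Differentiable ℂ fad := by
  intro x₀
  set Bd : ℝ := |x₀.im| + 1 with hB
  have hB0 : 0 ≤ Bd := by positivity
  have key := hasDerivAt_integral_of_dominated_loc_of_deriv_le
    (μ := volume.restrict (Set.Ioi (0 : ℝ))) (F := fun x s => fadIntegrand x s)
    (F' := fun x s => 2 * I * s * fadIntegrand x s)
    (bound := fun s => Real.exp (2 * Bd ^ 2) * (2 * (s * Real.exp (-(1 / 2) * s ^ 2))))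
    (s := Metric.ball x₀ 1) (x₀ := x₀) (Metric.ball_mem_nhds _ one_pos)
    (Filter.Eventually.of_forall fun x => (integrable_fadIntegrand x).aestronglyMeasurable.restrict)
    (integrable_fadIntegrand x₀).restrict
    (by
      refine AEStronglyMeasurable.mul ?_ (integrable_fadIntegrand x₀).aestronglyMeasurable.restrict
      exact (Continuous.aestronglyMeasurable (by fun_prop)))
    (by
      refine (ae_restrict_iff' measurableSet_Ioi).2 (Filter.Eventually.of_forall fun s hs x hx => ?_)
      rw [Set.mem_Ioi] at hs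
      rw [norm_mul, norm_mul, norm_mul, Complex.norm_I, Complex.norm_real, Real.norm_eq_abs,
        abs_of_pos hs, norm_fadIntegrand]
      have h1 : |x.im| ≤ Bd := by
        have h2 : |x.im - x₀.im| ≤ ‖x - x₀‖ := by
          rw [← Complex.sub_im]; exact Complex.abs_im_le_norm _
        have h3 : ‖x - x₀‖ < 1 := by rwa [Metric.mem_ball, dist_eq_norm] at hx
        have h4 : |x.im| ≤ |x.im - x₀.im| + |x₀.im| := by
          calc |x.im| = |(x.im - x₀.im) + x₀.im| := by ring_nf
            _ ≤ _ := abs_add_le _ _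
        linarith
      have h5 : -s ^ 2 - 2 * x.im * s ≤ 2 * Bd ^ 2 + -(1 / 2) * s ^ 2 := by
        have h6 : -(2 * x.im * s) ≤ 2 * Bd * s := by
          have := (abs_le.1 h1).1
          nlinarith
        nlinarith [sq_nonneg (s - 2 * Bd)]
      calc ‖(2 : ℂ)‖ * 1 * s * Real.exp (-s ^ 2 - 2 * x.im * s)
          ≤ 2 * 1 * s * Real.exp (2 * Bd ^ 2 + -(1 / 2) * s ^ 2) := by
            have : ‖(2 : ℂ)‖ = 2 := by norm_num
            rw [this]
            gcongr
        _ = _ := by rw [Real.exp_add]; ring)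
    (by
      refine Integrable.const_mul (Integrable.const_mul ?_ _) _
      exact (integrable_mul_exp_neg_mul_sq (b := 1 / 2) (by norm_num)).restrict)
    (Filter.Eventually.of_forall fun s x _ => hasDerivAt_fadIntegrand s x)
  exact (key.2.differentiableAt).const_mul _

lemma norm_fad_le_one {x : ℂ} (hx : 0 ≤ x.im) : ‖fad x‖ ≤ 1 := by
  rw [fad, norm_mul, Complex.norm_real, Real.norm_eq_abs, abs_of_nonneg (by positivity)]
  have h1 : ‖∫ s in Set.Ioi (0 : ℝ), fadIntegrand x s‖ ≤
      ∫ s in Set.Ioi (0 : ℝ), Real.exp (-1 * s ^ 2) := by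
    refine norm_integral_le_of_norm_le (integrable_exp_neg_mul_sq one_pos).restrict ?_
    refine (ae_restrict_iff' measurableSet_Ioi).2 (Filter.Eventually.of_forall fun s hs => ?_)
    rw [Set.mem_Ioi] at hs
    rw [norm_fadIntegrand]
    refine Real.exp_le_exp.2 ?_
    nlinarith [mul_nonneg hx hs.le]
  rw [integral_gaussian_Ioi, div_one] at h1
  have hpi : 0 < √π := Real.sqrt_pos.2 Real.pi_pos
  calc 2 / √π * ‖∫ s in Set.Ioi (0 : ℝ), fadIntegrand x s‖ ≤ 2 / √π * (√π / 2) := by gcongr
    _ = 1 := by field_simp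

lemma fad_add_fad_neg (x : ℂ) : fad x + fad (-x) = 2 * cexp (-x ^ 2) := by
  have hpi : (0 : ℝ) < √π := Real.sqrt_pos.2 Real.pi_pos
  have h1 : ∫ s in Set.Ioi (0 : ℝ), fadIntegrand (-x) s = ∫ s in Set.Iic (0 : ℝ),
      fadIntegrand x s := by
    have := integral_comp_neg_Ioi (0 : ℝ) (fadIntegrand x)
    rw [neg_zero] at this
    rw [← this]
    refine setIntegral_congr_fun measurableSet_Ioi fun s _ => ?_
    simp only [fadIntegrand]
    congr 1
    push_cast
    ring
  have h2 : (∫ s in Set.Iic (0 : ℝ), fadIntegrand x s) + ∫ s in Set.Ioi (0 : ℝ), fadIntegrand x s =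
      ∫ s : ℝ, fadIntegrand x s :=
    intervalIntegral.integral_Iic_add_Ioi (integrable_fadIntegrand x).integrableOn
      (integrable_fadIntegrand x).integrableOn
  have h3 : ∫ s : ℝ, fadIntegrand x s = √π * cexp (-x ^ 2) := by
    have h4 := fourierIntegral_gaussian (b := 1) (by simp) (2 * x)
    have h5 : ∫ s : ℝ, fadIntegrand x s = ∫ s : ℝ, cexp (I * (2 * x) * s) * cexp (-1 * s ^ 2) := by
      refine integral_congr_ae (Filter.Eventually.of_forall fun s => ?_)
      simp only [fadIntegrand]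
      rw [← Complex.exp_add]
      congr 1; ring
    rw [h5, h4]
    congr 1
    · rw [div_one, Real.sqrt_eq_rpow]
      rw [Complex.ofReal_cpow Real.pi_pos.le]
      norm_num
    · congr 1
      ring
  rw [fad, fad, h1, ← mul_add, add_comm (∫ s in Set.Ioi (0 : ℝ), fadIntegrand x s), h2, h3]
  have hpi' : ((√π : ℝ) : ℂ) ≠ 0 := by exact_mod_cast hpi.ne'
  push_cast
  field_simp

end Pool.Agent.Helper56.TwoSheet
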