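import Pool.Agent.Helper56.TwoSheet.Sq

/-!
# The Riemann map of the lens `dsk 1 ∩ dsk (-1)`
-/

open Complex MeasureTheory
open scoped ENNReal Real NNReal

namespace Pool.Agent.Helper56.TwoSheet

/-- The square root of `1 - w²`. -/
noncomputable def rt (w : ℂ) : ℂ := sq (1 - w ^ 2)

/-- The Riemann map of the lens. -/
noncomputable def lensMap (w : ℂ) : ℂ := w / (1 + rt w)

lemma one_sub_sq_re {w : ℂ} (hw : w ∈ Metric.ball (0 : ℂ) 1) : 0 < (1 - w ^ 2).re := by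
  rw [Metric.mem_ball, dist_zero_right] at hw
  have h1 : (w ^ 2).re ≤ ‖w ^ 2‖ := Complex.re_le_norm _
  have h2 : ‖w ^ 2‖ < 1 := by
    rw [norm_pow]; exact pow_lt_one₀ (norm_nonneg _) hw (by norm_num)
  rw [Complex.sub_re, Complex.one_re]
  linarith

lemma one_sub_sq_slit {w : ℂ} (hw : w ∈ Metric.ball (0 : ℂ) 1) : 1 - w ^ 2 ∈ slitPlane := by
  rw [Complex.mem_slitPlane_iff]; left; exact one_sub_sq_re hw

lemma rt_sq (w : ℂ) : rt w ^ 2 = 1 - w ^ 2 := sq_pow _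

lemma rt_re_pos {w : ℂ} (hw : w ∈ Metric.ball (0 : ℂ) 1) : 0 < (rt w).re :=
  sq_re_pos (one_sub_sq_slit hw)

lemma one_add_rt_ne {w : ℂ} (hw : w ∈ Metric.ball (0 : ℂ) 1) : 1 + rt w ≠ 0 := by
  intro h
  have := congrArg Complex.re h
  rw [Complex.add_re, Complex.one_re, Complex.zero_re] at this
  linarith [rt_re_pos hw]

lemma rt_ne {w : ℂ} (hw : w ∈ Metric.ball (0 : ℂ) 1) : rt w ≠ 0 := by
  intro h
  have := rt_re_pos hw
  rw [h, Complex.zero_re] at this
  exact lt_irrefl _ this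

lemma abs_im_rt {w : ℂ} (hw : w ∈ Metric.ball (0 : ℂ) 1) : |(rt w).im| < (rt w).re := by
  have h1 := rt_re_pos hw
  have h2 : (rt w ^ 2).re = (rt w).re ^ 2 - (rt w).im ^ 2 := by
    rw [pow_two, Complex.mul_re]; ring
  have h3 := one_sub_sq_re hw
  rw [← rt_sq, h2] at h3
  refine abs_lt_of_sq_lt_sq ?_ h1.le
  linarith

lemma lensMap_sq {w : ℂ} (hw : w ∈ Metric.ball (0 : ℂ) 1) :
    1 + lensMap w ^ 2 = 2 / (1 + rt w) := by
  have h := one_add_rt_ne hw
  rw [lensMap]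
  field_simp
  linear_combination rt_sq w

lemma lensMap_inv {w : ℂ} (hw : w ∈ Metric.ball (0 : ℂ) 1) :
    2 * lensMap w / (1 + lensMap w ^ 2) = w := by
  have h := one_add_rt_ne hw
  rw [lensMap_sq hw, lensMap]
  field_simp

lemma norm_lensMap_lt {w : ℂ} (hw : w ∈ Metric.ball (0 : ℂ) 1) : ‖lensMap w‖ < 1 := by
  have h := one_add_rt_ne hw
  have h1 : lensMap w ^ 2 * (1 + rt w) = 1 - rt w := by
    have := lensMap_sq hw
    rw [eq_div_iff h] at this
    linear_combination this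
  have h2 : ‖lensMap w‖ ^ 2 * ‖1 + rt w‖ = ‖1 - rt w‖ := by
    rw [← norm_pow, ← norm_mul, h1]
  have h3 : ‖1 - rt w‖ < ‖1 + rt w‖ := by
    have h4 : ‖1 - rt w‖ ^ 2 < ‖1 + rt w‖ ^ 2 := by
      rw [← Complex.normSq_eq_norm_sq, ← Complex.normSq_eq_norm_sq, Complex.normSq_apply,
        Complex.normSq_apply]
      simp only [Complex.sub_re, Complex.add_re, Complex.one_re, Complex.sub_im, Complex.add_im,
        Complex.one_im]
      nlinarith [rt_re_pos hw]
    exact lt_of_pow_lt_pow_left₀ 2 (norm_nonneg _) h4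
  have h5 : 0 < ‖1 + rt w‖ := norm_pos_iff.2 h
  have h6 : ‖lensMap w‖ ^ 2 < 1 := by
    by_contra hcon
    rw [not_lt] at hcon
    nlinarith
  nlinarith [norm_nonneg (lensMap w)]

lemma mem_dsk_iff {s : ℝ} (hs : s * s = 1) {z : ℂ} :
    z ∈ dsk s ↔ z.re ^ 2 + z.im ^ 2 + 2 * s * z.im < 1 := by
  rw [dsk, Metric.mem_ball, dist_eq_norm]
  have h1 : ‖z - -(s : ℂ) * I‖ ^ 2 = z.re ^ 2 + z.im ^ 2 + 2 * s * z.im + 1 := by
    rw [← Complex.normSq_eq_norm_sq, Complex.normSq_apply]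
    simp
    linear_combination hs
  have h2 : (√2) ^ 2 = 2 := Real.sq_sqrt (by norm_num)
  constructor
  · intro h
    have : ‖z - -(s : ℂ) * I‖ ^ 2 < (√2) ^ 2 := by gcongr
    linarith
  · intro h
    refine lt_of_pow_lt_pow_left₀ 2 (by positivity) ?_
    linarith

lemma mem_lens_iff {z : ℂ} : z ∈ dsk 1 ∩ dsk (-1) ↔
    z.re ^ 2 + z.im ^ 2 + 2 * z.im < 1 ∧ z.re ^ 2 + z.im ^ 2 - 2 * z.im < 1 := by
  rw [Set.mem_inter_iff, mem_dsk_iff (by norm_num), mem_dsk_iff (by norm_num)]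
  constructor
  · rintro ⟨h1, h2⟩; exact ⟨by linarith, by linarith⟩
  · rintro ⟨h1, h2⟩; exact ⟨by linarith, by linarith⟩

lemma normSq_identity (z : ℂ) : ‖1 + z ^ 2‖ ^ 2 - ‖2 * z‖ ^ 2 =
    (1 - (z.re ^ 2 + z.im ^ 2 + 2 * z.im)) * (1 - (z.re ^ 2 + z.im ^ 2 - 2 * z.im)) := by
  rw [← Complex.normSq_eq_norm_sq, ← Complex.normSq_eq_norm_sq, Complex.normSq_apply,
    Complex.normSq_apply]
  simp [pow_two]
  ring

lemma lensMap_mem {w : ℂ} (hw : w ∈ Metric.ball (0 : ℂ) 1) : lensMap w ∈ dsk 1 ∩ dsk (-1) := by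
  have h1 := norm_lensMap_lt hw
  have h2 := lensMap_inv hw
  have h3 := lensMap_sq hw
  set z := lensMap w with hz
  have h4 : 1 + z ^ 2 ≠ 0 := by
    rw [h3]; exact div_ne_zero two_ne_zero (one_add_rt_ne hw)
  rw [Metric.mem_ball, dist_zero_right] at hw
  have h5 : ‖2 * z‖ < ‖1 + z ^ 2‖ := by
    have h6 : ‖2 * z‖ / ‖1 + z ^ 2‖ < 1 := by rw [← norm_div, h2]; exact hw
    rwa [div_lt_one (norm_pos_iff.2 h4)] at h6
  have h7 : ‖2 * z‖ ^ 2 < ‖1 + z ^ 2‖ ^ 2 := by gcongr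
  have h8 := normSq_identity z
  have h9 : 0 < (1 - (z.re ^ 2 + z.im ^ 2 + 2 * z.im)) * (1 - (z.re ^ 2 + z.im ^ 2 - 2 * z.im)) := by
    linarith
  have h10 : z.re ^ 2 + z.im ^ 2 < 1 := by
    have h11 : ‖z‖ ^ 2 = z.re ^ 2 + z.im ^ 2 := by
      rw [← Complex.normSq_eq_norm_sq, Complex.normSq_apply]; ring
    rw [← h11]
    exact pow_lt_one₀ (norm_nonneg _) h1 (by norm_num)
  rw [mem_lens_iff]
  rcases pos_and_pos_or_neg_and_neg_of_mul_pos h9 with ⟨ha, hb⟩ | ⟨ha, hb⟩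
  · exact ⟨by linarith, by linarith⟩
  · exfalso; linarith

lemma lensMap_surj {z : ℂ} (hz : z ∈ dsk 1 ∩ dsk (-1)) :
    ∃ w ∈ Metric.ball (0 : ℂ) 1, lensMap w = z := by
  rw [mem_lens_iff] at hz
  obtain ⟨h1, h2⟩ := hz
  have h8 := normSq_identity z
  have h9 : 0 < (1 - (z.re ^ 2 + z.im ^ 2 + 2 * z.im)) * (1 - (z.re ^ 2 + z.im ^ 2 - 2 * z.im)) :=
    mul_pos (by linarith) (by linarith)
  have h10 : ‖z‖ ^ 2 < 1 := by
    have h11 : ‖z‖ ^ 2 = z.re ^ 2 + z.im ^ 2 := by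
      rw [← Complex.normSq_eq_norm_sq, Complex.normSq_apply]; ring
    rw [h11]; linarith
  have h12 : ‖z ^ 2‖ < 1 := by rw [norm_pow]; exact h10
  have h4 : 1 + z ^ 2 ≠ 0 := by
    intro h
    have : z ^ 2 = -1 := by linear_combination h
    rw [this] at h12
    simp at h12
  have h5 : ‖2 * z‖ < ‖1 + z ^ 2‖ := by
    refine lt_of_pow_lt_pow_left₀ 2 (norm_nonneg _) ?_
    linarith
  set w := 2 * z / (1 + z ^ 2) with hw
  have hwb : w ∈ Metric.ball (0 : ℂ) 1 := by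
    rw [Metric.mem_ball, dist_zero_right, hw, norm_div, div_lt_one (norm_pos_iff.2 h4)]
    exact h5
  refine ⟨w, hwb, ?_⟩
  have h6 : rt w = (1 - z ^ 2) / (1 + z ^ 2) := by
    refine sq_unique ?_ ?_ (one_sub_sq_slit hwb)
    · rw [hw]; field_simp; ring
    · have h7 : (1 - z ^ 2) / (1 + z ^ 2) = (1 - z ^ 2) * (starRingEnd ℂ) (1 + z ^ 2) /
          ((‖1 + z ^ 2‖ ^ 2 : ℝ) : ℂ) := by
        rw [div_eq_div_iff h4 (by exact_mod_cast (pow_ne_zero 2 (norm_ne_zero_iff.2 h4))),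
          ← Complex.normSq_eq_norm_sq, ← Complex.mul_conj]
        ring
      rw [h7, Complex.div_ofReal_re]
      refine div_pos ?_ (by positivity)
      have h13 : ((1 - z ^ 2) * (starRingEnd ℂ) (1 + z ^ 2)).re = 1 - ‖z ^ 2‖ ^ 2 := by
        rw [← Complex.normSq_eq_norm_sq, Complex.normSq_apply]
        simp only [Complex.mul_re, Complex.sub_re, Complex.one_re, map_add, map_one,
          Complex.add_re, Complex.conj_re, Complex.sub_im, Complex.one_im, Complex.add_im,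
          Complex.conj_im]
        ring
      rw [h13]
      have := pow_lt_one₀ (norm_nonneg (z ^ 2)) h12 (n := 2) (by norm_num)
      linarith
  rw [lensMap, h6, hw]
  field_simp
  ring

lemma hasDerivAt_sq {x : ℂ} (hx : x ∈ slitPlane) : HasDerivAt sq (1 / (2 * sq x)) x := by
  have h1 := (differentiableAt_sq hx).hasDerivAt
  have h2 : sq x ≠ 0 := by
    intro h; have := sq_re_pos hx; rw [h, Complex.zero_re] at this; exact lt_irrefl _ this
  have h3 : HasDerivAt (fun x => sq x ^ 2) (2 * sq x * deriv sq x) x := by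
    have h := h1.fun_pow 2
    exact h.congr_deriv (by simp)
  have h4 : HasDerivAt (fun x : ℂ => sq x ^ 2) 1 x := by
    have : (fun x : ℂ => sq x ^ 2) = id := by ext y; exact sq_pow y
    rw [this]; exact hasDerivAt_id x
  have h5 := h3.unique h4
  refine h1.congr_deriv ?_
  rw [eq_div_iff (mul_ne_zero two_ne_zero h2)]
  linear_combination h5

lemma hasDerivAt_rt {w : ℂ} (hw : w ∈ Metric.ball (0 : ℂ) 1) : HasDerivAt rt (-w / rt w) w := by
  have h1 : HasDerivAt (fun w : ℂ => 1 - w ^ 2) (-(2 * w)) w := by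
    simpa using ((hasDerivAt_id w).pow 2).const_sub 1
  have h2 := (hasDerivAt_sq (one_sub_sq_slit hw)).comp w h1
  refine h2.congr_deriv ?_
  have h3 := rt_ne hw
  show 1 / (2 * rt w) * -(2 * w) = -w / rt w
  field_simp

lemma hasDerivAt_lensMap {w : ℂ} (hw : w ∈ Metric.ball (0 : ℂ) 1) :
    HasDerivAt lensMap (1 / (rt w * (1 + rt w))) w := by
  have h := one_add_rt_ne hw
  have h0 := rt_ne hw
  have h1 := (hasDerivAt_id w).div ((hasDerivAt_rt hw).const_add 1) h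
  refine h1.congr_deriv ?_
  simp only [id]
  field_simp
  linear_combination (rt_sq w)

lemma isRiemannMap_lensMap : IsRiemannMap lensMap (dsk 1 ∩ dsk (-1)) := by
  refine ⟨fun w hw => (hasDerivAt_lensMap hw).differentiableAt.differentiableWithinAt, ?_, ?_⟩
  · intro x hx y hy h
    rw [← lensMap_inv hx, ← lensMap_inv hy, h]
  · ext z
    constructor
    · rintro ⟨w, hw, rfl⟩; exact lensMap_mem hw
    · intro hz
      obtain ⟨w, hw, h⟩ := lensMap_surj hz
      exact ⟨w, hw, h⟩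

lemma norm_deriv_lensMap {w : ℂ} (hw : w ∈ Metric.ball (0 : ℂ) 1) :
    ‖deriv lensMap w‖ ≤ 2 * ((rt w)⁻¹).re := by
  have h0 := rt_re_pos hw
  have h1 := abs_lt.1 (abs_im_rt hw)
  have hne := rt_ne hw
  have hpos : 0 < ‖rt w‖ := norm_pos_iff.2 hne
  rw [(hasDerivAt_lensMap hw).deriv, norm_div, norm_one, norm_mul]
  have h2 : (1 : ℝ) ≤ ‖1 + rt w‖ := by
    calc (1 : ℝ) ≤ (1 + rt w).re := by rw [Complex.add_re, Complex.one_re]; linarith
      _ ≤ _ := Complex.re_le_norm _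
  have h3 : ((rt w)⁻¹).re = (rt w).re / ‖rt w‖ ^ 2 := by
    rw [Complex.inv_re, Complex.normSq_eq_norm_sq]
  have h4 : ‖rt w‖ ≤ 2 * (rt w).re := by
    have := Complex.norm_le_abs_re_add_abs_im (rt w)
    rw [abs_of_pos h0] at this
    linarith [abs_im_rt hw]
  rw [h3]
  calc 1 / (‖rt w‖ * ‖1 + rt w‖) ≤ 1 / ‖rt w‖ := by
        refine one_div_le_one_div_of_le hpos ?_
        nlinarith
    _ = ‖rt w‖ / ‖rt w‖ ^ 2 := by field_simp
    _ ≤ 2 * (rt w).re / ‖rt w‖ ^ 2 := by gcongr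
    _ = _ := by ring

lemma lintegral_deriv_lensMap {r : ℝ} (hr : r ∈ Set.Ioo (0 : ℝ) 1) :
    ∫⁻ θ in Set.Ioc (0 : ℝ) (2 * π), ‖deriv lensMap (circleMap 0 r θ)‖ₑ ≤
      ENNReal.ofReal (4 * π) := by
  have hpi := Real.pi_pos
  have hd : DifferentiableOn ℂ (fun w => (rt w)⁻¹) (Metric.ball 0 1) := fun w hw =>
    ((hasDerivAt_rt hw).differentiableAt.inv (rt_ne hw)).differentiableWithinAt
  have hcont : Continuous fun θ : ℝ => (rt (circleMap 0 r θ))⁻¹ :=
    hd.continuousOn.comp_continuous (continuous_circleMap 0 r) (circleMap_mem hr)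
  have havg : Real.circleAverage (fun w => (rt w)⁻¹) 0 r = (rt 0)⁻¹ := by
    refine DiffContOnCl.circleAverage ?_
    rw [abs_of_pos hr.1]
    refine DifferentiableOn.diffContOnCl_ball (U := Metric.ball 0 1) hd ?_
    exact Metric.closedBall_subset_ball hr.2
  have hrt0 : rt 0 = 1 := by
    rw [rt]
    refine sq_unique (by simp) (by simp) ?_
    simp
  rw [hrt0, inv_one, Real.circleAverage_def] at havg
  have hint : ∫ θ in (0 : ℝ)..2 * π, (rt (circleMap 0 r θ))⁻¹ = 2 * π := by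
    have h2 : ((2 * π : ℝ) : ℂ) ≠ 0 := by exact_mod_cast (by positivity : (2 * π : ℝ) ≠ 0)
    rw [Complex.real_smul, Complex.ofReal_inv, inv_mul_eq_iff_eq_mul₀ h2, mul_one] at havg
    rw [havg]
    push_cast
    ring
  have hre : ∫ θ in (0 : ℝ)..2 * π, ((rt (circleMap 0 r θ))⁻¹).re = 2 * π := by
    have h3 := congrArg Complex.re hint
    have h4 : (∫ θ in (0 : ℝ)..2 * π, (rt (circleMap 0 r θ))⁻¹).re =
        ∫ θ in (0 : ℝ)..2 * π, ((rt (circleMap 0 r θ))⁻¹).re := by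
      rw [intervalIntegral.integral_of_le (by positivity),
        intervalIntegral.integral_of_le (by positivity)]
      have h5 := integral_re (𝕜 := ℂ) (μ := volume.restrict (Set.Ioc (0 : ℝ) (2 * π)))
        (f := fun θ : ℝ => (rt (circleMap 0 r θ))⁻¹) (hcont.integrableOn_Ioc)
      simpa using h5.symm
    rw [h4] at h3
    rw [h3]
    have : ((2 : ℂ) * (π : ℂ)) = ((2 * π : ℝ) : ℂ) := by push_cast; ring
    rw [this, Complex.ofReal_re]
  calc ∫⁻ θ in Set.Ioc (0 : ℝ) (2 * π), ‖deriv lensMap (circleMap 0 r θ)‖ₑ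
      ≤ ∫⁻ θ in Set.Ioc (0 : ℝ) (2 * π),
        ENNReal.ofReal (2 * ((rt (circleMap 0 r θ))⁻¹).re) := by
        refine lintegral_mono fun θ => ?_
        rw [← ofReal_norm]
        exact ENNReal.ofReal_le_ofReal (norm_deriv_lensMap (circleMap_mem hr θ))
    _ = ENNReal.ofReal (∫ θ in Set.Ioc (0 : ℝ) (2 * π), 2 * ((rt (circleMap 0 r θ))⁻¹).re) := by
        rw [ofReal_integral_eq_lintegral_ofReal]
        · exact ((Complex.continuous_re.comp hcont).const_mul 2).integrableOn_Ioc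
        · refine Filter.Eventually.of_forall fun θ => ?_
          have := (norm_nonneg _).trans (norm_deriv_lensMap (circleMap_mem hr θ))
          exact this
    _ ≤ ENNReal.ofReal (4 * π) := by
        refine ENNReal.ofReal_le_ofReal ?_
        rw [integral_const_mul, ← intervalIntegral.integral_of_le (by positivity), hre]
        linarith

end Pool.Agent.Helper56.TwoSheet
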