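import Pool.Agent.Helper56.TwoSheet.Bound
import Pool.Agent.Helper56.TwoSheet.Approx
import Pool.Agent.Helper56.TwoSheet.Lens

/-!
# The generating space and its closure
-/

open MeasureTheory Complex
open scoped ENNReal Real NNReal

namespace Pool.Agent.Helper56.TwoSheet

/-- the Riemann maps -/
noncomputable def maps : RiemannMaps (dsk 1) (dsk (-1)) where
  a := dmap 1
  b := dmap (-1)
  c := lensMap
  isRiemannMap_a := isRiemannMap_dmap 1
  isRiemannMap_b := isRiemannMap_dmap (-1)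
  isRiemannMap_c := isRiemannMap_lensMap

/-- the data defining an element of the generating space -/
structure IsGen (vA vB k : ℂ → ℂ) (M : ℝ) : Prop where
  dA : DifferentiableOn ℂ vA (dsk 1)
  dB : DifferentiableOn ℂ vB (dsk (-1))
  dk : DifferentiableOn ℂ k (dsk 1 ∩ dsk (-1))
  bA : ∀ z ∈ dsk 1, ‖vA z‖ ≤ M
  bB : ∀ z ∈ dsk (-1), ‖vB z‖ ≤ M
  bk : ∀ z ∈ dsk 1 ∩ dsk (-1), ‖k z‖ ≤ M
  eq : ∀ z ∈ dsk 1 ∩ dsk (-1), vA z - vB z = cexp (-(zeta z) ^ 2) * k z

/-- the pair `(S vA, S vB)` -/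
noncomputable def mkPair (vA vB : ℂ → ℂ) : Pair :=
  ((dsk 1).indicator fun z => sing z * vA z, (dsk (-1)).indicator fun z => sing z * vB z)

lemma mkPair_fst {vA vB : ℂ → ℂ} {z : ℂ} (hz : z ∈ dsk 1) : (mkPair vA vB).1 z = sing z * vA z :=
  Set.indicator_of_mem hz (fun z => sing z * vA z)

lemma mkPair_snd {vA vB : ℂ → ℂ} {z : ℂ} (hz : z ∈ dsk (-1)) :
    (mkPair vA vB).2 z = sing z * vB z :=
  Set.indicator_of_mem hz (fun z => sing z * vB z)

lemma mkPair_add (vA vB uA uB : ℂ → ℂ) :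
    mkPair (vA + uA) (vB + uB) = mkPair vA vB + mkPair uA uB := by
  unfold mkPair
  ext z
  · simp only [Prod.fst_add, Pi.add_apply, Set.indicator]
    split_ifs <;> simp [mul_add]
  · simp only [Prod.snd_add, Pi.add_apply, Set.indicator]
    split_ifs <;> simp [mul_add]

lemma mkPair_mul (g vA vB : ℂ → ℂ) :
    mkPair (fun z => g z * vA z) (fun z => g z * vB z) =
      (fun z => g z * (mkPair vA vB).1 z, fun z => g z * (mkPair vA vB).2 z) := by
  unfold mkPair
  ext z
  · simp only [Set.indicator]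
    split_ifs
    · ring
    · simp
  · simp only [Set.indicator]
    split_ifs
    · ring
    · simp

/-- The generating space. -/
noncomputable def genSpace : Submodule ℂ Pair where
  carrier := {f | ∃ vA vB k : ℂ → ℂ, ∃ M : ℝ, IsGen vA vB k M ∧ f = mkPair vA vB}
  add_mem' := by
    rintro f g ⟨vA, vB, k, M, h, rfl⟩ ⟨uA, uB, l, L, h', rfl⟩
    refine ⟨vA + uA, vB + uB, k + l, M + L, ⟨h.dA.add h'.dA, h.dB.add h'.dB, h.dk.add h'.dk,
      fun z hz => (norm_add_le _ _).trans (add_le_add (h.bA z hz) (h'.bA z hz)),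
      fun z hz => (norm_add_le _ _).trans (add_le_add (h.bB z hz) (h'.bB z hz)),
      fun z hz => (norm_add_le _ _).trans (add_le_add (h.bk z hz) (h'.bk z hz)), fun z hz => ?_⟩,
      (mkPair_add _ _ _ _).symm⟩
    have e1 := h.eq z hz
    have e2 := h'.eq z hz
    simp only [Pi.add_apply]
    linear_combination e1 + e2
  zero_mem' := by
    refine ⟨0, 0, 0, 0, ⟨differentiableOn_const 0, differentiableOn_const 0,
      differentiableOn_const 0, by simp, by simp, by simp, by simp⟩, ?_⟩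
    unfold mkPair
    ext z <;> simp [Set.indicator]
  smul_mem' := by
    rintro c f ⟨vA, vB, k, M, h, rfl⟩
    refine ⟨fun z => c * vA z, fun z => c * vB z, fun z => c * k z, ‖c‖ * M,
      ⟨h.dA.const_mul c, h.dB.const_mul c, h.dk.const_mul c, fun z hz => ?_, fun z hz => ?_,
        fun z hz => ?_, fun z hz => ?_⟩, ?_⟩
    · rw [norm_mul]; exact mul_le_mul_of_nonneg_left (h.bA z hz) (norm_nonneg c)
    · rw [norm_mul]; exact mul_le_mul_of_nonneg_left (h.bB z hz) (norm_nonneg c)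
    · rw [norm_mul]; exact mul_le_mul_of_nonneg_left (h.bk z hz) (norm_nonneg c)
    · have e1 := h.eq z hz
      linear_combination c * e1
    · rw [mkPair_mul (fun _ => c)]
      rfl

lemma norm_le_of_mem {s : ℝ} (hs : s = 1 ∨ s = -1) {z : ℂ} (hz : z ∈ dsk s) : ‖z‖ ≤ 3 := by
  rw [dsk, Metric.mem_ball, dist_eq_norm] at hz
  have h1 : ‖-(s : ℂ) * I‖ = 1 := by
    rw [norm_mul, norm_neg, Complex.norm_I, Complex.norm_real]
    rcases hs with rfl | rfl <;> simp
  have h2 : √2 ≤ 2 := by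
    rw [Real.sqrt_le_left (by norm_num)]; norm_num
  calc ‖z‖ = ‖(z - -(s : ℂ) * I) + (-(s : ℂ) * I)‖ := by congr 1; ring
    _ ≤ ‖z - -(s : ℂ) * I‖ + ‖-(s : ℂ) * I‖ := norm_add_le _ _
    _ ≤ 3 := by linarith

lemma IsGen.nonneg {vA vB k : ℂ → ℂ} {M : ℝ} (h : IsGen vA vB k M) : 0 ≤ M := by
  have h0 : (zof 1) ∈ dsk 1 := zof_mem (by norm_num) (by simp)
  exact (norm_nonneg _).trans (h.bA _ h0)

/-- The generating space is stable under multiplication by bounded functions which are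
holomorphic on the union of the two discs. -/
lemma mul_mem_gen {g : ℂ → ℂ} (hg1 : DifferentiableOn ℂ g (dsk 1))
    (hg2 : DifferentiableOn ℂ g (dsk (-1))) {L : ℝ} (hb1 : ∀ z ∈ dsk 1, ‖g z‖ ≤ L)
    (hb2 : ∀ z ∈ dsk (-1), ‖g z‖ ≤ L) {f : Pair} (hf : f ∈ genSpace) :
    ((fun z => g z * f.1 z, fun z => g z * f.2 z) : Pair) ∈ genSpace := by
  obtain ⟨vA, vB, k, M, h, rfl⟩ := hf
  refine ⟨fun z => g z * vA z, fun z => g z * vB z, fun z => g z * k z, L * M,
    ⟨hg1.mul h.dA, hg2.mul h.dB, (hg1.mono Set.inter_subset_left).mul h.dk, fun z hz => ?_,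
      fun z hz => ?_, fun z hz => ?_, fun z hz => ?_⟩, (mkPair_mul g vA vB).symm⟩
  · rw [norm_mul]
    exact mul_le_mul (hb1 z hz) (h.bA z hz) (norm_nonneg _) ((norm_nonneg _).trans (hb1 z hz))
  · rw [norm_mul]
    exact mul_le_mul (hb2 z hz) (h.bB z hz) (norm_nonneg _) ((norm_nonneg _).trans (hb2 z hz))
  · rw [norm_mul]
    exact mul_le_mul (hb1 z hz.1) (h.bk z hz) (norm_nonneg _) ((norm_nonneg _).trans (hb1 z hz.1))
  · have e1 := h.eq z hz
    linear_combination g z * e1

lemma mulSub_mem_gen (lam : ℂ) {f : Pair} (hf : f ∈ genSpace) : mulSub lam f ∈ genSpace := by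
  have hb : ∀ s : ℝ, (s = 1 ∨ s = -1) → ∀ z ∈ dsk s, ‖z - lam‖ ≤ 3 + ‖lam‖ := fun s hs z hz =>
    (norm_sub_le _ _).trans (add_le_add (norm_le_of_mem hs hz) le_rfl)
  exact mul_mem_gen (g := fun z => z - lam) (by fun_prop) (by fun_prop)
    (hb 1 (Or.inl rfl)) (hb (-1) (Or.inr rfl)) hf

/-- `(S q, S q)` with `q` entire belongs to the generating space. -/
lemma diag_mem_gen {q : ℂ → ℂ} (hq : Differentiable ℂ q) : mkPair q q ∈ genSpace := by
  obtain ⟨L, hL⟩ := (isCompact_closedBall (0 : ℂ) 3).exists_bound_of_continuousOn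
    hq.continuous.continuousOn
  have hb : ∀ s : ℝ, (s = 1 ∨ s = -1) → ∀ z ∈ dsk s, ‖q z‖ ≤ L := fun s hs z hz =>
    hL z (by rw [Metric.mem_closedBall, dist_zero_right]; exact norm_le_of_mem hs hz)
  have hL0 : 0 ≤ L := by
    have h0 : (zof 1) ∈ dsk 1 := zof_mem (by norm_num) (by simp)
    exact (norm_nonneg _).trans (hb 1 (Or.inl rfl) _ h0)
  exact ⟨q, q, 0, L, ⟨hq.differentiableOn, hq.differentiableOn, differentiableOn_const 0,
    hb 1 (Or.inl rfl), hb (-1) (Or.inr rfl), fun z _ => by simpa using hL0, fun z _ => by simp⟩, rfl⟩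

lemma fad_bound {s : ℝ} (hs : s = 1 ∨ s = -1) {ζ : ℂ} (h : 0 < ζ.re - s * ζ.im) :
    ‖fad (-s * ζ)‖ ≤ 3 := by
  have him : (-(s : ℂ) * ζ).im = -(s * ζ.im) := by
    rw [neg_mul, Complex.neg_im, Complex.im_ofReal_mul]
  rcases le_or_gt 0 (-(s * ζ.im)) with h1 | h1
  · exact (norm_fad_le_one (by rw [him]; exact h1)).trans (by norm_num)
  · have h2 : 0 ≤ (-(-(s : ℂ) * ζ)).im := by rw [Complex.neg_im, him]; linarith
    have h3 := norm_fad_le_one h2
    have h4 : ‖cexp (-(-(s : ℂ) * ζ) ^ 2)‖ ≤ 1 := by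
      have e : (-(s : ℂ) * ζ) ^ 2 = ζ ^ 2 := by
        rw [mul_pow, neg_sq]
        rcases hs with rfl | rfl <;> simp
      rw [e, Complex.norm_exp, Real.exp_le_one_iff, Complex.neg_re, pow_two, Complex.mul_re]
      have h5 : (s * ζ.im) * (s * ζ.im) = ζ.im * ζ.im := by
        linear_combination (ζ.im * ζ.im) * (sMul hs)
      rw [← h5]
      nlinarith
    have h6 : fad (-(s : ℂ) * ζ) = 2 * cexp (-(-(s : ℂ) * ζ) ^ 2) - fad (-(-(s : ℂ) * ζ)) := by
      rw [← fad_add_fad_neg]; ring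
    rw [h6]
    refine (norm_sub_le _ _).trans ?_
    rw [norm_mul]
    have : ‖(2 : ℂ)‖ = 2 := by norm_num
    rw [this]
    linarith

/-- the second generator -/
lemma fad_mem_gen : mkPair (fun z => -fad (-zeta z)) (fun z => fad (zeta z)) ∈ genSpace := by
  have o1 : (1 : ℝ) = 1 ∨ (1 : ℝ) = -1 := Or.inl rfl
  have o2 : (-1 : ℝ) = 1 ∨ (-1 : ℝ) = -1 := Or.inr rfl
  refine ⟨_, _, fun _ => -2, 3, ⟨?_, ?_, differentiableOn_const _, fun z hz => ?_, fun z hz => ?_,
    fun z _ => ?_, fun z _ => ?_⟩, rfl⟩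
  · exact (differentiable_fad.comp_differentiableOn (differentiableOn_zeta (by norm_num)).neg).neg
  · exact differentiable_fad.comp_differentiableOn (differentiableOn_zeta (by norm_num))
  · have := fad_bound o1 (zeta_pos (by norm_num) hz)
    rw [norm_neg]
    simpa using this
  · have := fad_bound o2 (zeta_pos (by norm_num) hz)
    simpa using this
  · norm_num
  · linear_combination -(fad_add_fad_neg (zeta z))

/-- Division property of the generating space. -/
lemma division {lam : ℂ} (hl : lam ∈ dsk 1 ∩ dsk (-1)) {f : Pair} (hf : f ∈ genSpace)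
    (h1 : f.1 lam = 0) (h2 : f.2 lam = 0) : ∃ g ∈ genSpace, f = mulSub lam g := by
  obtain ⟨vA, vB, k, M, h, rfl⟩ := hf
  have hM := h.nonneg
  have v1 : vA lam = 0 := by
    rw [mkPair_fst hl.1] at h1
    exact (mul_eq_zero.1 h1).resolve_left (sing_ne_zero lam)
  have v2 : vB lam = 0 := by
    rw [mkPair_snd hl.2] at h2
    exact (mul_eq_zero.1 h2).resolve_left (sing_ne_zero lam)
  have v3 : k lam = 0 := by
    have := h.eq lam hl
    rw [v1, v2, sub_zero] at this
    exact (mul_eq_zero.1 this.symm).resolve_left (Complex.exp_ne_zero _)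
  have key : ∀ (V : Set ℂ) (v : ℂ → ℂ), IsOpen V → lam ∈ V → DifferentiableOn ℂ v V →
      (∀ z ∈ V, ‖v z‖ ≤ M) → v lam = 0 → DifferentiableOn ℂ (dslope v lam) V ∧
      (∃ L : ℝ, ∀ z ∈ V, ‖dslope v lam z‖ ≤ L) ∧ ∀ z, v z = (z - lam) * dslope v lam z := by
    intro V v hV hlV hv hb h0
    have hd : DifferentiableOn ℂ (dslope v lam) V :=
      (Complex.differentiableOn_dslope (hV.mem_nhds hlV)).2 hv
    have heq : ∀ z, v z = (z - lam) * dslope v lam z := by
      intro z
      have := sub_smul_dslope v lam z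
      rw [h0, sub_zero, smul_eq_mul] at this
      exact this.symm
    refine ⟨hd, ?_, heq⟩
    obtain ⟨δ, hδ, hδV⟩ := Metric.isOpen_iff.1 hV lam hlV
    have hsub : Metric.closedBall lam (δ / 2) ⊆ V :=
      (Metric.closedBall_subset_ball (by linarith)).trans hδV
    obtain ⟨L, hL⟩ := (isCompact_closedBall lam (δ / 2)).exists_bound_of_continuousOn
      (hd.continuousOn.mono hsub)
    refine ⟨max L (M / (δ / 2)), fun z hz => ?_⟩
    by_cases hzb : z ∈ Metric.closedBall lam (δ / 2)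
    · exact (hL z hzb).trans (le_max_left _ _)
    · refine le_trans ?_ (le_max_right _ _)
      rw [Metric.mem_closedBall, dist_eq_norm, not_le] at hzb
      rw [le_div_iff₀ (by positivity), mul_comm]
      calc δ / 2 * ‖dslope v lam z‖ ≤ ‖z - lam‖ * ‖dslope v lam z‖ := by gcongr
        _ = ‖v z‖ := by rw [heq z, norm_mul]
        _ ≤ M := hb z hz
  obtain ⟨a1, ⟨L1, a2⟩, a3⟩ := key _ vA Metric.isOpen_ball hl.1 h.dA h.bA v1
  obtain ⟨b1, ⟨L2, b2⟩, b3⟩ := key _ vB Metric.isOpen_ball hl.2 h.dB h.bB v2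
  obtain ⟨c1, ⟨L3, c2⟩, c3⟩ := key _ k (Metric.isOpen_ball.inter Metric.isOpen_ball) hl h.dk h.bk v3
  refine ⟨mkPair (dslope vA lam) (dslope vB lam),
    ⟨_, _, dslope k lam, max L1 (max L2 L3), ⟨a1, b1, c1,
      fun z hz => (a2 z hz).trans (le_max_left _ _),
      fun z hz => (b2 z hz).trans ((le_max_left _ _).trans (le_max_right _ _)),
      fun z hz => (c2 z hz).trans ((le_max_right _ _).trans (le_max_right _ _)), ?_⟩, rfl⟩, ?_⟩
  · -- the relation on the intersection
    have hne : ∀ z ∈ dsk 1 ∩ dsk (-1), z ≠ lam →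
        dslope vA lam z - dslope vB lam z = cexp (-(zeta z) ^ 2) * dslope k lam z := by
      intro z hz hzl
      have h5 : z - lam ≠ 0 := sub_ne_zero.2 hzl
      have h6 := h.eq z hz
      rw [a3 z, b3 z, c3 z] at h6
      refine mul_left_cancel₀ h5 ?_
      linear_combination h6
    intro z hz
    by_cases hzl : z = lam
    · subst hzl
      have hopen : IsOpen (dsk 1 ∩ dsk (-1)) := Metric.isOpen_ball.inter Metric.isOpen_ball
      have l1 : ContinuousAt (fun w => dslope vA z w - dslope vB z w) z :=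
        ((a1.differentiableAt (Metric.isOpen_ball.mem_nhds hz.1)).continuousAt).sub
          ((b1.differentiableAt (Metric.isOpen_ball.mem_nhds hz.2)).continuousAt)
      have l2 : ContinuousAt (fun w => cexp (-(zeta w) ^ 2) * dslope k z w) z := by
        refine ContinuousAt.mul ?_ ((c1.differentiableAt (hopen.mem_nhds hz)).continuousAt)
        have h7 : ContinuousAt zeta z := (hasDerivAt_zeta (ne_one_of_mem (by norm_num) hz.1)).continuousAt
        exact ((h7.pow 2).neg).cexp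
      have t1 : Filter.Tendsto (fun w => dslope vA z w - dslope vB z w) (nhdsWithin z {z}ᶜ)
          (nhds (dslope vA z z - dslope vB z z)) := l1.tendsto.mono_left nhdsWithin_le_nhds
      have t2 : Filter.Tendsto (fun w => cexp (-(zeta w) ^ 2) * dslope k z w) (nhdsWithin z {z}ᶜ)
          (nhds (cexp (-(zeta z) ^ 2) * dslope k z z)) := l2.tendsto.mono_left nhdsWithin_le_nhds
      refine tendsto_nhds_unique (t1.congr' ?_) t2
      filter_upwards [self_mem_nhdsWithin, nhdsWithin_le_nhds (hopen.mem_nhds hz)] with w hw hw2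
      exact hne w hw2 hw
    · exact hne z hz hzl
  · rw [mulSub, ← mkPair_mul (fun z => z - lam)]
    unfold mkPair
    ext z
    · simp only [Set.indicator]
      split_ifs
      · rw [a3 z]
      · rfl
    · simp only [Set.indicator]
      split_ifs
      · rw [b3 z]
      · rfl

end Pool.Agent.Helper56.TwoSheet
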