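import Pool.Agent.Helper56.TwoSheet.Disc

/-!
# Geometry of the two discs in the coordinate `ζ = (1+z)/(1-z)`
-/

open Complex
open scoped ENNReal Real NNReal

namespace Pool.Agent.Helper56.TwoSheet

/-- The disc with centre `-s i` and radius `√2`. -/
def dsk (s : ℝ) : Set ℂ := Metric.ball (-(s : ℂ) * I) √2

/-- `ζ = (1+z)/(1-z)`. -/
noncomputable def zeta (z : ℂ) : ℂ := (1 + z) / (1 - z)

/-- `z = (ζ-1)/(ζ+1)`. -/
noncomputable def zof (ζ : ℂ) : ℂ := (ζ - 1) / (ζ + 1)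

lemma zof_zeta {z : ℂ} (hz : z ≠ 1) : zof (zeta z) = z := by
  have h : (1 - z) ≠ 0 := sub_ne_zero.2 (Ne.symm hz)
  unfold zof zeta
  have h2 : (1 + z) / (1 - z) - 1 = 2 * z / (1 - z) := by field_simp; ring
  have h3 : (1 + z) / (1 - z) + 1 = 2 / (1 - z) := by field_simp; ring
  rw [h2, h3]
  field_simp

lemma zeta_zof {ζ : ℂ} (hζ : ζ ≠ -1) : zeta (zof ζ) = ζ := by
  have h : ζ + 1 ≠ 0 := fun h => hζ (eq_neg_of_add_eq_zero_left h)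
  unfold zof zeta
  have h2 : 1 + (ζ - 1) / (ζ + 1) = 2 * ζ / (ζ + 1) := by field_simp; ring
  have h3 : 1 - (ζ - 1) / (ζ + 1) = 2 / (ζ + 1) := by field_simp; ring
  rw [h2, h3]
  field_simp

lemma one_sub_zof {ζ : ℂ} (hζ : ζ ≠ -1) : 1 - zof ζ = 2 / (1 + ζ) := by
  have h : ζ + 1 ≠ 0 := fun h => hζ (eq_neg_of_add_eq_zero_left h)
  have h' : 1 + ζ ≠ 0 := by rwa [add_comm]
  unfold zof
  field_simp
  ring

lemma ne_neg_one {ζ : ℂ} {s : ℝ} (h : 0 < ζ.re - s * ζ.im) : ζ ≠ -1 := by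
  rintro rfl
  simp at h
  linarith

lemma add_one_ne_zero' {ζ : ℂ} {s : ℝ} (h : 0 < ζ.re - s * ζ.im) : ζ + 1 ≠ 0 := fun h' =>
  ne_neg_one h (eq_neg_of_add_eq_zero_left h')

lemma norm_add_sq {s : ℝ} (hs : s * s = 1) {ζ : ℂ} (hζ : ζ + 1 ≠ 0) :
    2 - ‖zof ζ - (-(s : ℂ) * I)‖ ^ 2 = 4 * (ζ.re - s * ζ.im) / ‖ζ + 1‖ ^ 2 := by
  have h1 : zof ζ - (-(s : ℂ) * I) = ((ζ - 1) + s * I * (ζ + 1)) / (ζ + 1) := by
    unfold zof; field_simp; ring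
  have h2 : (0 : ℝ) < ‖ζ + 1‖ ^ 2 := by positivity
  rw [h1, norm_div, div_pow, eq_div_iff h2.ne', sub_mul, div_mul_cancel₀ _ h2.ne']
  rw [← Complex.normSq_eq_norm_sq, ← Complex.normSq_eq_norm_sq, Complex.normSq_apply,
    Complex.normSq_apply]
  simp
  linear_combination (-((ζ.re + 1) ^ 2 + ζ.im ^ 2)) * hs

lemma center_norm_le {s : ℝ} (hs : s * s = 1) {ζ : ℂ} (h : 0 < ζ.re - s * ζ.im) :
    √2 * (ζ.re - s * ζ.im) / ‖ζ + 1‖ ^ 2 ≤ √2 - ‖zof ζ - (-(s : ℂ) * I)‖ := by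
  have hne := add_one_ne_zero' h
  have hpos : (0 : ℝ) < ‖ζ + 1‖ ^ 2 := by positivity
  set x := ‖zof ζ - (-(s : ℂ) * I)‖ with hx
  have hx0 : 0 ≤ x := norm_nonneg _
  have hkey : 2 - x ^ 2 = 4 * (ζ.re - s * ζ.im) / ‖ζ + 1‖ ^ 2 := norm_add_sq hs hne
  set d := (ζ.re - s * ζ.im) / ‖ζ + 1‖ ^ 2 with hd
  have hd0 : 0 < d := by positivity
  have h1 : 2 - x ^ 2 = 4 * d := by rw [hkey, hd]; ring
  have h2 : √2 * (ζ.re - s * ζ.im) / ‖ζ + 1‖ ^ 2 = √2 * d := by rw [hd]; ring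
  rw [h2]
  have hs2 : √2 * √2 = 2 := Real.mul_self_sqrt (by norm_num)
  have hs0 : 0 < √2 := by positivity
  have hlt : x < √2 := by nlinarith
  have hle : √2 + x ≤ 2 * √2 := by linarith
  have h3 : (√2 - x) * (√2 + x) = 4 * d := by nlinarith
  nlinarith [mul_le_mul_of_nonneg_left hle (by linarith : (0 : ℝ) ≤ √2 - x)]

lemma zof_mem {s : ℝ} (hs : s * s = 1) {ζ : ℂ} (h : 0 < ζ.re - s * ζ.im) : zof ζ ∈ dsk s := by
  have h1 := center_norm_le hs h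
  have hne := add_one_ne_zero' h
  have h2 : 0 < √2 * (ζ.re - s * ζ.im) / ‖ζ + 1‖ ^ 2 := by positivity
  rw [dsk, Metric.mem_ball, dist_eq_norm]
  linarith

lemma ne_one_of_mem {s : ℝ} (hs : s * s = 1) {z : ℂ} (hz : z ∈ dsk s) : z ≠ 1 := by
  rintro rfl
  rw [dsk, Metric.mem_ball, dist_eq_norm] at hz
  have h1 : ‖(1 : ℂ) - -(s : ℂ) * I‖ ^ 2 = 2 := by
    rw [← Complex.normSq_eq_norm_sq, Complex.normSq_apply]
    simp; linarith
  have h2 : (√2) ^ 2 = 2 := Real.sq_sqrt (by norm_num)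
  have h3 : ‖(1 : ℂ) - -(s : ℂ) * I‖ ^ 2 < (√2) ^ 2 := by
    gcongr
  linarith

lemma zeta_pos {s : ℝ} (hs : s * s = 1) {z : ℂ} (hz : z ∈ dsk s) :
    0 < (zeta z).re - s * (zeta z).im := by
  have h1 := ne_one_of_mem hs hz
  have h2 : zeta z + 1 ≠ 0 := by
    have h : (1 - z) ≠ 0 := sub_ne_zero.2 (Ne.symm h1)
    have : zeta z + 1 = 2 / (1 - z) := by unfold zeta; field_simp; ring
    rw [this]; exact div_ne_zero two_ne_zero h
  have h3 := norm_add_sq hs h2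
  rw [zof_zeta h1] at h3
  rw [dsk, Metric.mem_ball, dist_eq_norm] at hz
  have h4 : ‖z - -(s : ℂ) * I‖ ^ 2 < (√2) ^ 2 := by gcongr
  rw [Real.sq_sqrt (by norm_num)] at h4
  have h5 : 0 < 4 * ((zeta z).re - s * (zeta z).im) / ‖zeta z + 1‖ ^ 2 := by linarith
  have h6 : (0 : ℝ) < ‖zeta z + 1‖ ^ 2 := by positivity
  rw [lt_div_iff₀ h6] at h5
  linarith

lemma zeta_slit {s : ℝ} {ζ : ℂ} (h : 0 < ζ.re - s * ζ.im) : ζ ∈ slitPlane := by
  rw [Complex.mem_slitPlane_iff]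
  by_cases h0 : ζ.im = 0
  · left; rw [h0] at h; linarith
  · right; exact h0

lemma hasDerivAt_zeta {z : ℂ} (hz : z ≠ 1) : HasDerivAt zeta (2 / (1 - z) ^ 2) z := by
  have h : (1 - z) ≠ 0 := sub_ne_zero.2 (Ne.symm hz)
  have h1 : HasDerivAt (fun z : ℂ => 1 + z) 1 z := (hasDerivAt_id z).const_add 1
  have h2 : HasDerivAt (fun z : ℂ => 1 - z) (-1) z := (hasDerivAt_id z).const_sub 1
  exact (h1.div h2 h).congr_deriv (by ring)

lemma differentiableOn_zeta {s : ℝ} (hs : s * s = 1) : DifferentiableOn ℂ zeta (dsk s) :=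
  fun _ hz => (hasDerivAt_zeta (ne_one_of_mem hs hz)).differentiableAt.differentiableWithinAt

lemma hasDerivAt_zof {ζ : ℂ} (hζ : ζ + 1 ≠ 0) : HasDerivAt zof (2 / (ζ + 1) ^ 2) ζ := by
  have h1 : HasDerivAt (fun z : ℂ => z - 1) 1 ζ := (hasDerivAt_id ζ).sub_const 1
  have h2 : HasDerivAt (fun z : ℂ => z + 1) 1 ζ := (hasDerivAt_id ζ).add_const 1
  exact (h1.div h2 hζ).congr_deriv (by ring)

/-- The cube root. -/
noncomputable def cbr (ζ : ℂ) : ℂ := ζ ^ ((3 : ℂ)⁻¹)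

/-- The square root. -/
noncomputable def sq (ζ : ℂ) : ℂ := ζ ^ ((2 : ℂ)⁻¹)

lemma cbr_pow (ζ : ℂ) : cbr ζ ^ 3 = ζ := cpow_ofNat_inv_pow ζ 3

lemma sq_pow (ζ : ℂ) : sq ζ ^ 2 = ζ := cpow_ofNat_inv_pow ζ 2

lemma arg_lt {ζ : ℂ} {s : ℝ} (hs : s = 1 ∨ s = -1) (h : 0 < ζ.re - s * ζ.im) :
    |ζ.arg| < 3 * π / 4 := by
  have hζ : ζ ≠ 0 := by rintro rfl; simp at h
  have hpi := Real.pi_pos
  by_contra hcon
  rw [not_lt] at hcon
  set θ := |ζ.arg| with hθ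
  have hθ2 : θ ≤ π := Complex.abs_arg_le_pi ζ
  have h1 : ζ.re = ‖ζ‖ * Real.cos θ := by
    rw [hθ, Real.cos_abs, Complex.norm_mul_cos_arg]
  have h2 : |ζ.im| = ‖ζ‖ * Real.sin θ := by
    have h3 : ζ.im = ‖ζ‖ * Real.sin ζ.arg := (Complex.norm_mul_sin_arg ζ).symm
    have h4 : |Real.sin ζ.arg| = Real.sin θ := by
      rcases le_or_gt 0 ζ.arg with h5 | h5
      · rw [hθ, abs_of_nonneg h5, abs_of_nonneg]
        exact Real.sin_nonneg_of_nonneg_of_le_pi h5 (Complex.arg_le_pi ζ)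
      · rw [hθ, abs_of_neg h5, Real.sin_neg, abs_of_nonpos]
        exact Real.sin_nonpos_of_nonpos_of_neg_pi_le h5.le (Complex.neg_pi_lt_arg ζ).le
    rw [h3, abs_mul, h4, abs_of_nonneg (norm_nonneg _)]
  have h5 : ζ.re - s * ζ.im ≤ ζ.re + |ζ.im| := by
    rcases hs with rfl | rfl
    · linarith [neg_abs_le ζ.im]
    · linarith [le_abs_self ζ.im]
  have h6 : Real.cos θ + Real.sin θ ≤ 0 := by
    have h7 : Real.cos θ + Real.sin θ = √2 * Real.sin (θ + π / 4) := by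
      rw [Real.sin_add, Real.sin_pi_div_four, Real.cos_pi_div_four]
      have : √2 * √2 = 2 := Real.mul_self_sqrt (by norm_num)
      linear_combination (-(Real.cos θ + Real.sin θ) / 2) * this
    rw [h7]
    have h8 : Real.sin (θ + π / 4) ≤ 0 := by
      have h9 : Real.sin (θ + π / 4) = -Real.sin (θ + π / 4 - π) := by
        rw [Real.sin_sub_pi, neg_neg]
      rw [h9, neg_nonpos]
      exact Real.sin_nonneg_of_nonneg_of_le_pi (by linarith) (by linarith)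
    nlinarith [Real.sqrt_nonneg 2]
  have h10 : ζ.re + |ζ.im| ≤ 0 := by
    rw [h1, h2, ← mul_add]
    exact mul_nonpos_of_nonneg_of_nonpos (norm_nonneg _) h6
  linarith

lemma cbr_eq {ζ : ℂ} (hζ : ζ ≠ 0) :
    cbr ζ ^ 2 = (‖ζ‖ ^ (2 / 3 : ℝ) : ℝ) * cexp ((2 / 3 * ζ.arg : ℝ) * I) := by
  have h1 : cbr ζ ^ 2 = cexp (2 / 3 * log ζ) := by
    rw [cbr, Complex.cpow_def_of_ne_zero hζ, ← Complex.exp_nat_mul]
    congr 1; push_cast; ring
  rw [h1, Complex.log, mul_add, Complex.exp_add]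
  congr 1
  · rw [Real.rpow_def_of_pos (norm_pos_iff.2 hζ)]
    push_cast
    congr 1; ring
  · congr 1; push_cast; ring

lemma re_cbr_sq {ζ : ℂ} (hζ : ζ ≠ 0) :
    (cbr ζ ^ 2).re = ‖ζ‖ ^ (2 / 3 : ℝ) * Real.cos (2 / 3 * ζ.arg) := by
  rw [cbr_eq hζ, Complex.re_ofReal_mul, Complex.exp_ofReal_mul_I_re]

lemma re_cbr_sq_nonneg {ζ : ℂ} {s : ℝ} (hs : s = 1 ∨ s = -1) (h : 0 < ζ.re - s * ζ.im) :
    0 ≤ (cbr ζ ^ 2).re := by
  have hζ : ζ ≠ 0 := by rintro rfl; simp at h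
  have h1 := abs_lt.1 (arg_lt hs h)
  rw [re_cbr_sq hζ]
  refine mul_nonneg (by positivity) (Real.cos_nonneg_of_neg_pi_div_two_le_of_le ?_ ?_) <;>
    linarith [Real.pi_pos]

lemma norm_cbr (ζ : ℂ) : ‖cbr ζ‖ ^ 3 = ‖ζ‖ := by
  rw [← norm_pow, cbr_pow]

/-- The singular inner function. -/
noncomputable def sing (z : ℂ) : ℂ := cexp (-(cbr (zeta z)) ^ 2)

lemma norm_sing_le {s : ℝ} (hs : s = 1 ∨ s = -1) {z : ℂ} (hz : z ∈ dsk s) : ‖sing z‖ ≤ 1 := by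
  have hss : s * s = 1 := by rcases hs with rfl | rfl <;> norm_num
  rw [sing, Complex.norm_exp, Real.exp_le_one_iff, Complex.neg_re]
  linarith [re_cbr_sq_nonneg hs (zeta_pos hss hz)]

lemma differentiableOn_sing {s : ℝ} (hs : s * s = 1) : DifferentiableOn ℂ sing (dsk s) := by
  intro z hz
  have h1 := zeta_slit (zeta_pos hs hz)
  have h2 := (hasDerivAt_zeta (ne_one_of_mem hs hz)).differentiableAt
  have h3 : DifferentiableAt ℂ (fun z => cbr (zeta z)) z := h2.cpow_const h1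
  exact ((h3.pow 2).neg.cexp).differentiableWithinAt

lemma sing_ne_zero (z : ℂ) : sing z ≠ 0 := Complex.exp_ne_zero _

/-- Pointwise bound in the coordinate `ζ`. -/
lemma pointwise {p : ℝ} (hp : 1 ≤ p) : ∃ K : ℝ, 0 < K ∧ ∀ s : ℝ, s * s = 1 → ∀ f : ℂ → ℂ,
    DifferentiableOn ℂ f (dsk s) →
      smirnovNorm p (discMap (-(s : ℂ) * I) √2) f < ∞ → ∀ ζ : ℂ, 0 < ζ.re - s * ζ.im →
      ‖f (zof ζ)‖ ≤ K * (smirnovNorm p (discMap (-(s : ℂ) * I) √2) f).toReal *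
        (‖ζ + 1‖ ^ 2 / (ζ.re - s * ζ.im)) := by
  have hs0 : 0 < √2 := by positivity
  obtain ⟨K₁, hK₁, h₁⟩ := disc_pointwise hp (-((1 : ℝ) : ℂ) * I) hs0
  obtain ⟨K₂, hK₂, h₂⟩ := disc_pointwise hp (-((-1 : ℝ) : ℂ) * I) hs0
  refine ⟨(K₁ + K₂) / √2, by positivity, fun s hs f hf hfin ζ hζ => ?_⟩
  have hne := add_one_ne_zero' hζ
  have hpos : (0 : ℝ) < ‖ζ + 1‖ ^ 2 := by positivity
  have hmem := zof_mem hs hζ
  have hc := center_norm_le hs hζ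
  set N := (smirnovNorm p (discMap (-(s : ℂ) * I) √2) f).toReal with hN
  have hN0 : 0 ≤ N := ENNReal.toReal_nonneg
  have hsor : s = 1 ∨ s = -1 := by
    rcases mul_self_eq_one_iff.1 hs with h | h
    · exact Or.inl h
    · exact Or.inr h
  have h3 : ‖f (zof ζ)‖ ≤ (K₁ + K₂) * N / (√2 - ‖zof ζ - (-(s : ℂ) * I)‖) := by
    have hden : 0 < √2 - ‖zof ζ - (-(s : ℂ) * I)‖ := by
      rw [dsk, Metric.mem_ball, dist_eq_norm] at hmem; linarith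
    rcases hsor with rfl | rfl
    · refine (h₁ f hf hfin _ hmem).trans ?_
      gcongr; linarith
    · refine (h₂ f hf hfin _ hmem).trans ?_
      gcongr; linarith
  refine h3.trans ?_
  have h4 : 0 < √2 * (ζ.re - s * ζ.im) / ‖ζ + 1‖ ^ 2 := by positivity
  calc (K₁ + K₂) * N / (√2 - ‖zof ζ - (-(s : ℂ) * I)‖)
      ≤ (K₁ + K₂) * N / (√2 * (ζ.re - s * ζ.im) / ‖ζ + 1‖ ^ 2) := by gcongr
    _ = _ := by field_simp

end Pool.Agent.Helper56.TwoSheet
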