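import Pool.Agent.Helper56.TwoSheet.Weights

/-!
# The functional and the functions which it annihilates
-/

open MeasureTheory Complex
open scoped ENNReal Real NNReal

namespace Pool.Agent.Helper56.TwoSheet

/-- integrand in the `τ`-plane -/
noncomputable def fT (g : ℂ → ℂ) (t : ℂ) : ℂ := g (zof (sq t ^ 3)) * mm (sq t ^ 3)

/-- integrand in the `t`-plane -/
noncomputable def fC (s : ℝ) (g : ℂ → ℂ) (t : ℂ) : ℂ :=
  g (zof (sq t)) * (mm (sq t) / (3 * cbr (sq t) ^ 4) * ww s (sq t))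

/-- The functional. -/
noncomputable def fnl (f : Pair) : ℂ :=
  lin 1 (fT f.2) - lin (-1) (fT f.1) + (lin 1 (fC 1 f.1) - lin 1 (fC 1 f.2)) +
    (lin (-1) (fC (-1) f.1) - lin (-1) (fC (-1) f.2))

lemma differentiableAt_nn {ζ : ℂ} {r : ℝ} (hr : r = 1 ∨ r = -1) (h : 0 < ζ.re - r * ζ.im) :
    DifferentiableAt ℂ nn ζ := by
  have h1 := differentiableAt_cbr (zeta_slit h)
  have h2 : (1 + cbr ζ ^ 2) ^ 8 ≠ 0 := by
    refine pow_ne_zero _ ?_
    rw [← norm_pos_iff]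
    linarith [(norm_one_add_cbr hr h).1]
  have h3 : DifferentiableAt ℂ (fun ζ => (1 / 2 : ℂ) * (1 + ζ)) ζ := by fun_prop
  have h4 : DifferentiableAt ℂ (fun ζ => (1 + cbr ζ ^ 2) ^ 8) ζ := ((h1.pow 2).const_add 1).pow 8
  exact h3.div h4 h2

lemma differentiableAt_mm {ζ : ℂ} {r : ℝ} (hr : r = 1 ∨ r = -1) (h : 0 < ζ.re - r * ζ.im) :
    DifferentiableAt ℂ mm ζ :=
  (((differentiableAt_cbr (zeta_slit h)).pow 2).cexp).mul (differentiableAt_nn hr h)

lemma differentiable_ww (s : ℝ) : Differentiable ℂ (ww s) := by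
  have h1 : Differentiable ℂ (fun ζ : ℂ => fad (s * (ζ - 1 / 2))) :=
    differentiable_fad.comp (by fun_prop)
  have h2 : Differentiable ℂ (fun ζ : ℂ => (1 / 2) * cexp ((ζ - 1 / 2) ^ 2)) := by fun_prop
  exact h2.mul h1

lemma cbr_sq_ne_zero {s : ℝ} {t : ℂ} (ht : t ∈ quad s) : 3 * cbr (sq t) ^ 4 ≠ 0 := by
  have h1 := one_le_norm_sq ht
  have h2 : cbr (sq t) ≠ 0 := by
    intro h
    have := norm_cbr (sq t)
    rw [h, norm_zero] at this
    norm_num at this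
    rw [← this] at h1
    linarith
  exact mul_ne_zero three_ne_zero (pow_ne_zero _ h2)

lemma differentiableOn_fT {s : ℝ} (hs : s = 1 ∨ s = -1) {g : ℂ → ℂ}
    (hg : DifferentiableOn ℂ g (dsk (-s))) : DifferentiableOn ℂ (fT g) (quad s) := by
  refine (differentiableOn_comp_cube hs hg).mul fun t ht => ?_
  have h1 := cube_pos hs ht
  have h2 : 0 < (sq t ^ 3).re - (-s) * (sq t ^ 3).im := by linarith
  have h6 : DifferentiableAt ℂ (fun t => sq t ^ 3) t :=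
    (differentiableAt_sq (mem_slit_of_quad ht)).pow 3
  exact ((differentiableAt_mm (sOr hs) h2).comp t h6).differentiableWithinAt

lemma differentiableOn_nn_cube {s : ℝ} (hs : s = 1 ∨ s = -1) :
    DifferentiableOn ℂ (fun t => nn (sq t ^ 3)) (quad s) := by
  intro t ht
  have h1 := cube_pos hs ht
  have h2 : 0 < (sq t ^ 3).re - (-s) * (sq t ^ 3).im := by linarith
  have h6 : DifferentiableAt ℂ (fun t => sq t ^ 3) t :=
    (differentiableAt_sq (mem_slit_of_quad ht)).pow 3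
  exact ((differentiableAt_nn (sOr hs) h2).comp t h6).differentiableWithinAt

lemma differentiableOn_weight {s : ℝ} (hs : s = 1 ∨ s = -1) {F : ℂ → ℂ}
    (hF : ∀ ζ : ℂ, 0 < ζ.re - 1 * ζ.im → DifferentiableAt ℂ F ζ) :
    DifferentiableOn ℂ (fun t => F (sq t) / (3 * cbr (sq t) ^ 4) * ww s (sq t)) (quad s) := by
  intro t ht
  have h2 := sq_pos hs (Or.inl rfl : (1 : ℝ) = 1 ∨ (1 : ℝ) = -1) ht
  have h6 : DifferentiableAt ℂ sq t := differentiableAt_sq (mem_slit_of_quad ht)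
  have h7 : DifferentiableAt ℂ (fun t => F (sq t)) t := (hF _ h2).comp t h6
  have h8 : DifferentiableAt ℂ (fun t => cbr (sq t)) t :=
    (differentiableAt_cbr (zeta_slit h2)).comp t h6
  have h9 : DifferentiableAt ℂ (fun t => ww s (sq t)) t := (differentiable_ww s _).comp t h6
  exact ((h7.div ((h8.pow 4).const_mul 3) (cbr_sq_ne_zero ht)).mul h9).differentiableWithinAt

lemma differentiableOn_fC {s r : ℝ} (hs : s = 1 ∨ s = -1) (hr : r = 1 ∨ r = -1) {g : ℂ → ℂ}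
    (hg : DifferentiableOn ℂ g (dsk r)) : DifferentiableOn ℂ (fC s g) (quad s) :=
  (differentiableOn_comp_sq hs hr hg).mul
    (differentiableOn_weight hs fun _ h => differentiableAt_mm (Or.inl rfl) h)

lemma lin_congr {s : ℝ} (hs : s = 1 ∨ s = -1) {F G : ℂ → ℂ} (h : ∀ t ∈ quad s, F t = G t) :
    lin s F = lin s G := by
  unfold lin
  congr 1
  exact setIntegral_congr_fun measurableSet_Ioi fun y hy => h _ (line_mem hs (le_of_lt hy))

lemma integrableOn_real {s : ℝ} {F : ℂ → ℂ} (hd : ContinuousOn F (quad s)) {C : ℝ}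
    (hb : ∀ z ∈ quad s, ‖F z‖ ≤ C / ‖z‖ ^ 2) : IntegrableOn (fun x : ℝ => F x) (Set.Ioi 1) := by
  refine Integrable.mono' (integrableOn_inv_sq.const_mul C) ?_ ?_
  · refine ContinuousOn.aestronglyMeasurable ?_ measurableSet_Ioi
    exact hd.comp Complex.continuous_ofReal.continuousOn fun x hx => real_mem (le_of_lt hx)
  · refine (ae_restrict_iff' measurableSet_Ioi).2 (Filter.Eventually.of_forall fun x hx => ?_)
    rw [Set.mem_Ioi] at hx
    have := hb x (real_mem hx.le)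
    rwa [Complex.norm_real, Real.norm_eq_abs, sq_abs, div_eq_mul_inv] at this

lemma sing_mul_mm {ζ : ℂ} (hζ : ζ ≠ -1) : sing (zof ζ) * mm ζ = nn ζ := by
  rw [sing, zeta_zof hζ, mm, ← mul_assoc, ← Complex.exp_add, neg_add_cancel, Complex.exp_zero,
    one_mul]

lemma sq_ofReal {u : ℝ} (hu : 0 < u) : sq (u : ℂ) = ((√u : ℝ) : ℂ) := by
  refine sq_unique ?_ ?_ ?_
  · rw [← Complex.ofReal_pow, Real.sq_sqrt hu.le]
  · rw [Complex.ofReal_re]; exact Real.sqrt_pos.2 hu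
  · rw [Complex.ofReal_mem_slitPlane]; exact hu

lemma sq_ofReal_cube {u : ℝ} (hu : 0 < u) : sq ((u ^ 3 : ℝ) : ℂ) = sq (u : ℂ) ^ 3 := by
  rw [sq_ofReal hu]
  refine sq_unique ?_ ?_ ?_
  · rw [← Complex.ofReal_pow, ← Complex.ofReal_pow]
    congr 1
    rw [← pow_mul, mul_comm, pow_mul, Real.sq_sqrt hu.le]
  · rw [← Complex.ofReal_pow, Complex.ofReal_re]
    exact pow_pos (Real.sqrt_pos.2 hu) 3
  · rw [Complex.ofReal_mem_slitPlane]; positivity

lemma image_cube : (fun u : ℝ => u ^ 3) '' Set.Ioi 1 = Set.Ioi 1 := by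
  ext x
  constructor
  · rintro ⟨u, hu, rfl⟩
    rw [Set.mem_Ioi] at hu ⊢
    exact one_lt_pow₀ hu (by norm_num)
  · intro hx
    rw [Set.mem_Ioi] at hx
    refine ⟨x ^ (3⁻¹ : ℝ), ?_, ?_⟩
    · exact Real.one_lt_rpow hx (by norm_num)
    · show (x ^ (3⁻¹ : ℝ)) ^ 3 = x
      exact Real.rpow_inv_natCast_pow (n := 3) (by linarith) (by norm_num)

lemma change_var (K : ℂ → ℂ) : ∫ x in Set.Ioi (1 : ℝ), K x =
    ∫ u in Set.Ioi (1 : ℝ), (3 * (u : ℂ) ^ 2) * K ((u ^ 3 : ℝ) : ℂ) := by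
  have h := integral_image_eq_integral_abs_deriv_smul (s := Set.Ioi (1 : ℝ)) measurableSet_Ioi
    (f := fun u : ℝ => u ^ 3) (f' := fun u => 3 * u ^ 2)
    (fun u _ => by simpa using (hasDerivAt_pow 3 u).hasDerivWithinAt)
    (by
      intro a ha b hb hab
      rw [Set.mem_Ioi] at ha hb
      exact (pow_left_inj₀ (by linarith) (by linarith) (by norm_num)).1 hab)
    (fun x : ℝ => K x)
  rw [image_cube] at h
  rw [h]
  refine setIntegral_congr_fun measurableSet_Ioi fun u _ => ?_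
  show |3 * u ^ 2| • K ((u ^ 3 : ℝ) : ℂ) = (3 * (u : ℂ) ^ 2) * K ((u ^ 3 : ℝ) : ℂ)
  rw [abs_of_nonneg (by positivity), Complex.real_smul]
  push_cast
  ring

lemma half_le {ζ : ℂ} {r : ℝ} (hr : r = 1 ∨ r = -1) (hζ : 0 < ζ.re - r * ζ.im) :
    (1 : ℝ) / 2 ≤ ‖ζ + 1‖ ^ 2 / (ζ.re - r * ζ.im) := by
  rw [le_div_iff₀ hζ, ← Complex.normSq_eq_norm_sq, Complex.normSq_apply, Complex.add_re,
    Complex.add_im, Complex.one_re, Complex.one_im, add_zero]
  rcases hr with rfl | rfl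
  · nlinarith [sq_nonneg (ζ.re + 3 / 4), sq_nonneg (ζ.im + 1 / 4)]
  · nlinarith [sq_nonneg (ζ.re + 3 / 4), sq_nonneg (ζ.im - 1 / 4)]

lemma bounded_pointwise {r : ℝ} (hr : r = 1 ∨ r = -1) {M : ℝ} {g : ℂ → ℂ}
    (bg : ∀ z ∈ dsk r, ‖g z‖ ≤ M) (ζ : ℂ) (hζ : 0 < ζ.re - r * ζ.im) :
    ‖g (zof ζ)‖ ≤ (2 * M) * (‖ζ + 1‖ ^ 2 / (ζ.re - r * ζ.im)) := by
  have m1 := zof_mem (sMul hr) hζ
  have m2 := bg _ m1
  have m3 := half_le hr hζ
  have hM : 0 ≤ M := (norm_nonneg _).trans m2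
  nlinarith

lemma sing_bound {r : ℝ} (hr : r = 1 ∨ r = -1) {M : ℝ} {v : ℂ → ℂ}
    (bv : ∀ z ∈ dsk r, ‖v z‖ ≤ M) : ∀ z ∈ dsk r, ‖sing z * v z‖ ≤ M := by
  intro z hz
  rw [norm_mul]
  calc ‖sing z‖ * ‖v z‖ ≤ 1 * M :=
        mul_le_mul (norm_sing_le hr hz) (bv _ hz) (norm_nonneg _) zero_le_one
    _ = M := one_mul M

lemma fC_bound {s r : ℝ} (hs : s = 1 ∨ s = -1) (hr : r = 1 ∨ r = -1)
    {N : ℝ} (hN : 0 ≤ N)
    {g : ℂ → ℂ} (hg : ∀ ζ : ℂ, 0 < ζ.re - r * ζ.im →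
      ‖g (zof ζ)‖ ≤ N * (‖ζ + 1‖ ^ 2 / (ζ.re - r * ζ.im))) (y : ℝ) (hy : 0 ≤ y) :
    ‖fC s g (1 + s * y * I)‖ ≤ (cst * N) * (1 + y ^ 2)⁻¹ := by
  have h := mm_sq_bound hs hr hy hN hg
  unfold fC
  exact h

lemma fT_bound {s : ℝ} (hs : s = 1 ∨ s = -1) {N : ℝ} (hN : 0 ≤ N)
    {g : ℂ → ℂ} (hg : ∀ ζ : ℂ, 0 < ζ.re - (-s) * ζ.im →
      ‖g (zof ζ)‖ ≤ N * (‖ζ + 1‖ ^ 2 / (ζ.re - (-s) * ζ.im))) (y : ℝ) (hy : 0 ≤ y) :
    ‖fT g (1 + s * y * I)‖ ≤ (12 * N) * (1 + y ^ 2)⁻¹ := by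
  have h := mm_cube_bound hs hy hN hg
  unfold fT
  exact h

lemma lin_fC_sing {s r : ℝ} (hs : s = 1 ∨ s = -1) (hr : r = 1 ∨ r = -1) {M : ℝ} (hM : 0 ≤ M)
    {v g : ℂ → ℂ} (hv : DifferentiableOn ℂ v (dsk r)) (bv : ∀ z ∈ dsk r, ‖v z‖ ≤ M)
    (hg : ∀ z ∈ dsk r, g z = sing z * v z) :
    lin s (fC s g) = lin s (fun t => v (zof (sq t)) *
        (nn (sq t) / (3 * cbr (sq t) ^ 4) * ww s (sq t))) ∧
      IntegrableOn (fun y : ℝ => v (zof (sq (1 + s * y * I))) *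
        (nn (sq (1 + s * y * I)) / (3 * cbr (sq (1 + s * y * I)) ^ 4) *
          ww s (sq (1 + s * y * I)))) (Set.Ioi 0) := by
  have hm : ∀ t ∈ quad s, zof (sq t) ∈ dsk r := fun t ht => zof_mem (sMul hr) (sq_pos hs hr ht)
  have e4 : ∀ t ∈ quad s, fC s (fun z => sing z * v z) t = v (zof (sq t)) *
      (nn (sq t) / (3 * cbr (sq t) ^ 4) * ww s (sq t)) := by
    intro t ht
    simp only [fC]
    rw [← sing_mul_mm (ne_neg_one (sq_pos hs hr ht))]
    ring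
  have e5 : ∀ t ∈ quad s, fC s g t = fC s (fun z => sing z * v z) t := by
    intro t ht
    simp only [fC]
    rw [hg _ (hm t ht)]
  refine ⟨lin_congr hs fun t ht => (e5 t ht).trans (e4 t ht), ?_⟩
  have hbg := bounded_pointwise hr (sing_bound hr bv)
  have hdf : DifferentiableOn ℂ (fC s (fun z => sing z * v z)) (quad s) :=
    differentiableOn_fC hs hr ((differentiableOn_sing (sMul hr)).mul hv)
  have h2M : 0 ≤ 2 * M := by linarith
  have hfb := fC_bound hs hr h2M (g := fun z => sing z * v z) hbg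
  have hbd := lin_bound hs hdf.continuousOn hfb
  refine IntegrableOn.congr_fun hbd.1 (fun y hy => ?_) measurableSet_Ioi
  have hy' : 0 ≤ y := le_of_lt hy
  have h6 := e4 _ (line_mem hs hy')
  exact h6

/-- The functional annihilates the functions in the generating set. -/
theorem fnl_eq_zero {f : Pair} {vA vB k : ℂ → ℂ} {M : ℝ}
    (hA : DifferentiableOn ℂ vA (dsk 1)) (hB : DifferentiableOn ℂ vB (dsk (-1)))
    (bA : ∀ z ∈ dsk 1, ‖vA z‖ ≤ M) (bB : ∀ z ∈ dsk (-1), ‖vB z‖ ≤ M)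
    (bk : ∀ z ∈ dsk 1 ∩ dsk (-1), ‖k z‖ ≤ M)
    (hk : ∀ z ∈ dsk 1 ∩ dsk (-1), vA z - vB z = cexp (-(zeta z) ^ 2) * k z)
    (h1 : ∀ z ∈ dsk 1, f.1 z = sing z * vA z) (h2 : ∀ z ∈ dsk (-1), f.2 z = sing z * vB z) :
    fnl f = 0 := by
  have o1 : (1 : ℝ) = 1 ∨ (1 : ℝ) = -1 := Or.inl rfl
  have o2 : (-1 : ℝ) = 1 ∨ (-1 : ℝ) = -1 := Or.inr rfl
  have hM : 0 ≤ M := by
    have h0 : (zof 1) ∈ dsk 1 := zof_mem (by norm_num) (by simp)
    exact (norm_nonneg _).trans (bA _ h0)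
  -- the τ part
  have tau : ∀ s : ℝ, (s = 1 ∨ s = -1) → ∀ v g : ℂ → ℂ, DifferentiableOn ℂ v (dsk (-s)) →
      (∀ z ∈ dsk (-s), ‖v z‖ ≤ M) → (∀ z ∈ dsk (-s), g z = sing z * v z) →
      lin s (fT g) = ∫ x in Set.Ioi (1 : ℝ), v (zof (sq x ^ 3)) * nn (sq x ^ 3) ∧
      IntegrableOn (fun x : ℝ => v (zof (sq x ^ 3)) * nn (sq x ^ 3)) (Set.Ioi 1) := by
    intro s hs v g hv bv hg
    have hd : DifferentiableOn ℂ (fun t => v (zof (sq t ^ 3)) * nn (sq t ^ 3)) (quad s) :=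
      (differentiableOn_comp_cube hs hv).mul (differentiableOn_nn_cube hs)
    have hmem : ∀ t ∈ quad s, zof (sq t ^ 3) ∈ dsk (-s) := fun t ht =>
      zof_mem (sMul (sOr hs)) (by linarith [cube_pos hs ht])
    have hb : ∀ t ∈ quad s, ‖v (zof (sq t ^ 3)) * nn (sq t ^ 3)‖ ≤ M / ‖t‖ ^ 2 := by
      intro t ht
      rw [norm_mul, div_eq_mul_one_div M]
      exact mul_le_mul (bv _ (hmem t ht)) (nn_cube_bound hs ht).2 (norm_nonneg _) hM
    refine ⟨?_, integrableOn_real hd.continuousOn hb⟩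
    rw [lin_congr hs (G := fun t => v (zof (sq t ^ 3)) * nn (sq t ^ 3))]
    · exact rot s hs hd hb
    · intro t ht
      rw [fT, hg _ (hmem t ht), mul_comm (sing _), mul_assoc, sing_mul_mm]
      exact ne_neg_one (s := -s) (by linarith [cube_pos hs ht])
  obtain ⟨eB, iB⟩ := tau 1 o1 vB f.2 hB bB h2
  obtain ⟨eA, iA⟩ := tau (-1) o2 vA f.1 (by rw [neg_neg]; exact hA)
    (by rw [neg_neg]; exact bA) (by rw [neg_neg]; exact h1)
  -- the t part
  have tee : ∀ s : ℝ, (s = 1 ∨ s = -1) →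
      lin s (fC s f.1) - lin s (fC s f.2) = ∫ x in Set.Ioi (1 : ℝ),
        (vA (zof (sq x)) - vB (zof (sq x))) *
          (nn (sq x) / (3 * cbr (sq x) ^ 4) * ww s (sq x)) ∧
      IntegrableOn (fun x : ℝ => (vA (zof (sq x)) - vB (zof (sq x))) *
          (nn (sq x) / (3 * cbr (sq x) ^ 4) * ww s (sq x))) (Set.Ioi 1) := by
    intro s hs
    have hmA : ∀ t ∈ quad s, zof (sq t) ∈ dsk 1 := fun t ht => zof_mem (by norm_num) (sq_pos hs o1 ht)
    have hmB : ∀ t ∈ quad s, zof (sq t) ∈ dsk (-1) := fun t ht =>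
      zof_mem (by norm_num) (sq_pos hs o2 ht)
    have hd : DifferentiableOn ℂ (fun t => (vA (zof (sq t)) - vB (zof (sq t))) *
          (nn (sq t) / (3 * cbr (sq t) ^ 4) * ww s (sq t))) (quad s) :=
      ((differentiableOn_comp_sq hs o1 hA).sub (differentiableOn_comp_sq hs o2 hB)).mul
        (differentiableOn_weight hs fun _ h => differentiableAt_nn o1 h)
    have hb : ∀ t ∈ quad s, ‖(vA (zof (sq t)) - vB (zof (sq t))) *
          (nn (sq t) / (3 * cbr (sq t) ^ 4) * ww s (sq t))‖ ≤ M / ‖t‖ ^ 2 := by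
      intro t ht
      have hpos := sq_pos hs o1 ht
      have hne : sq t ≠ -1 := ne_neg_one hpos
      have a1 := (sq_facts hs ht).1
      have a2 : ‖vA (zof (sq t)) - vB (zof (sq t))‖ ≤ Real.exp (-t.re) * M := by
        rw [hk _ ⟨hmA t ht, hmB t ht⟩, zeta_zof hne, sq_pow, norm_mul, Complex.norm_exp,
          Complex.neg_re]
        exact mul_le_mul_of_nonneg_left (bk _ ⟨hmA t ht, hmB t ht⟩) (Real.exp_pos _).le
      have a3 := norm_ww_le hs ht
      have hn1 : 1 ≤ ‖sq t‖ := one_le_norm_sq ht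
      set x := ‖cbr (sq t)‖ with hx
      have hx3 : x ^ 3 = ‖sq t‖ := norm_cbr _
      have hx0 : 0 ≤ x := norm_nonneg _
      have hx1 : 1 ≤ x := by
        by_contra hcon
        rw [not_le] at hcon
        have : x ^ 3 < 1 := pow_lt_one₀ hx0 hcon (by norm_num)
        linarith
      have a4 := norm_nn_le' o1 hpos hx1
      rw [← hx] at a4
      have a5 : ‖1 + sq t‖ ≤ 2 * x ^ 3 := by
        calc ‖1 + sq t‖ ≤ ‖(1 : ℂ)‖ + ‖sq t‖ := norm_add_le _ _
          _ = 1 + x ^ 3 := by rw [norm_one, hx3]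
          _ ≤ 2 * x ^ 3 := by linarith [one_le_pow₀ hx1 (n := 3)]
      have a6 : ‖nn (sq t)‖ ≤ x ^ 3 / x ^ 16 := by
        refine a4.trans ?_
        gcongr
        linarith
      have a7 : ‖3 * cbr (sq t) ^ 4‖ = 3 * x ^ 4 := by
        rw [norm_mul, norm_pow, ← hx]; norm_num
      have a8 : ‖t‖ ^ 2 = x ^ 12 := by
        rw [← norm_sq_sq t, ← hx3]; ring
      rw [norm_mul, norm_mul, norm_div, a7, a8]
      have hx0' : 0 < x := by linarith
      calc ‖vA (zof (sq t)) - vB (zof (sq t))‖ * (‖nn (sq t)‖ / (3 * x ^ 4) * ‖ww s (sq t)‖)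
          ≤ (Real.exp (-t.re) * M) * ((x ^ 3 / x ^ 16) / (3 * x ^ 4) *
            ((1 / 2) * Real.exp (t.re - (sq t).re + 1 / 4))) := by gcongr
        _ = M * (Real.exp (-t.re) * Real.exp (t.re - (sq t).re + 1 / 4)) *
            ((x ^ 3 / x ^ 16) / (3 * x ^ 4) * (1 / 2)) := by ring
        _ ≤ M * 1 * (1 / x ^ 12) := by
            refine mul_le_mul ?_ ?_ (by positivity) (by positivity)
            · refine mul_le_mul_of_nonneg_left ?_ hM
              rw [← Real.exp_add, Real.exp_le_one_iff]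
              linarith
            · have e : (x ^ 3 / x ^ 16) / (3 * x ^ 4) * (1 / 2) = 1 / (6 * x ^ 17) := by
                field_simp
                ring
              rw [e]
              refine one_div_le_one_div_of_le (by positivity) ?_
              have := pow_ineq hx1 (show 12 ≤ 17 by norm_num)
              have h0 : 0 < x ^ 17 := by positivity
              linarith
        _ = M / x ^ 12 := by ring
    refine ⟨?_, integrableOn_real hd.continuousOn hb⟩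
    have e3 : lin s (fC s f.1) - lin s (fC s f.2) = lin s (fun t => (vA (zof (sq t)) -
        vB (zof (sq t))) * (nn (sq t) / (3 * cbr (sq t) ^ 4) * ww s (sq t))) := by
      obtain ⟨k1, k2⟩ := lin_fC_sing hs o1 hM hA bA h1
      obtain ⟨k3, k4⟩ := lin_fC_sing hs o2 hM hB bB h2
      rw [k1, k3, ← lin_add k2 k4]
      refine lin_congr hs fun t _ => ?_
      ring
    rw [e3]
    exact rot s hs hd hb
  obtain ⟨c1, d1⟩ := tee 1 o1
  obtain ⟨c2, d2⟩ := tee (-1) o2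
  -- the sum of the two parts
  have hsum : (lin 1 (fC 1 f.1) - lin 1 (fC 1 f.2)) +
      (lin (-1) (fC (-1) f.1) - lin (-1) (fC (-1) f.2)) =
      ∫ x in Set.Ioi (1 : ℝ), (vA (zof (sq x ^ 3)) * nn (sq x ^ 3) -
        vB (zof (sq x ^ 3)) * nn (sq x ^ 3)) := by
    rw [c1, c2, ← integral_add d1 d2]
    have e1 : ∀ x : ℝ, (vA (zof (sq x)) - vB (zof (sq x))) *
          (nn (sq x) / (3 * cbr (sq x) ^ 4) * ww 1 (sq x)) +
        (vA (zof (sq x)) - vB (zof (sq x))) *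
          (nn (sq x) / (3 * cbr (sq x) ^ 4) * ww (-1) (sq x)) =
        (vA (zof (sq x)) - vB (zof (sq x))) * (nn (sq x) / (3 * cbr (sq x) ^ 4)) := by
      intro x
      linear_combination ((vA (zof (sq x)) - vB (zof (sq x))) * (nn (sq x) /
        (3 * cbr (sq x) ^ 4))) * ww_add (sq (x : ℂ))
    simp only [e1]
    rw [change_var (fun x => (vA (zof (sq x)) - vB (zof (sq x))) *
      (nn (sq x) / (3 * cbr (sq x) ^ 4)))]
    refine setIntegral_congr_fun measurableSet_Ioi fun u hu => ?_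
    rw [Set.mem_Ioi] at hu
    have hu0 : 0 < u := by linarith
    rw [sq_ofReal_cube hu0]
    have hcb : cbr (sq (u : ℂ) ^ 3) = sq (u : ℂ) := by
      rw [sq_ofReal hu0]
      refine cbr_cube ?_ ?_
      · rw [Complex.ofReal_re]; exact Real.sqrt_pos.2 hu0
      · rw [Complex.ofReal_re, Complex.ofReal_im, abs_zero]; exact Real.sqrt_pos.2 hu0
    rw [hcb]
    have hq : sq (u : ℂ) ^ 4 = (u : ℂ) ^ 2 := by
      rw [show (4 : ℕ) = 2 * 2 by norm_num, pow_mul, sq_pow]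
    rw [hq]
    have hu' : (u : ℂ) ≠ 0 := by exact_mod_cast hu0.ne'
    field_simp
  rw [fnl, eB, eA, add_assoc, hsum, integral_sub iA iB]
  ring

end Pool.Agent.Helper56.TwoSheet
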