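import Pool.Agent.Helper56.TwoSheet.Space

/-!
# Rank two and non-standardness
-/

open MeasureTheory Complex
open scoped ENNReal Real NNReal

namespace Pool.Agent.Helper56.TwoSheet

variable {p : ℝ}

/-- pointwise bound in the Smirnov space of the disc -/
lemma eval_bound (hp : 1 ≤ p) (s : ℝ) {lam : ℂ} (hl : lam ∈ dsk s) : ∃ C : ℝ≥0, ∀ f : ℂ → ℂ,
    DifferentiableOn ℂ f (dsk s) → smirnovNorm p (dmap s) f < ∞ →
      ‖f lam‖ₑ ≤ C * smirnovNorm p (dmap s) f := by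
  obtain ⟨K, hK, h⟩ := disc_pointwise hp (-(s : ℂ) * I) (by positivity : 0 < √2)
  have hpos : 0 < √2 - ‖lam - -(s : ℂ) * I‖ := by
    rw [dsk, Metric.mem_ball, dist_eq_norm] at hl; linarith
  refine ⟨(K / (√2 - ‖lam - -(s : ℂ) * I‖)).toNNReal, fun f hf hfin => ?_⟩
  have h1 := h f hf hfin lam hl
  rw [← ofReal_norm]
  calc ENNReal.ofReal ‖f lam‖ ≤ ENNReal.ofReal (K / (√2 - ‖lam - -(s : ℂ) * I‖) *
        (smirnovNorm p (dmap s) f).toReal) := by
        refine ENNReal.ofReal_le_ofReal (h1.trans (le_of_eq ?_))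
        rw [dmap]; ring
    _ = _ := by
        rw [ENNReal.ofReal_mul (by positivity), ENNReal.ofReal_toReal hfin.ne]
        rfl

/-- two elements of the generating space with prescribed values at a point of the lens -/
lemma exists_basis {lam : ℂ} (hl : lam ∈ dsk 1 ∩ dsk (-1)) : ∃ x₁ ∈ genSpace, ∃ x₂ ∈ genSpace,
    x₁.1 lam = 1 ∧ x₁.2 lam = 0 ∧ x₂.1 lam = 0 ∧ x₂.2 lam = 1 := by
  have hS := sing_ne_zero lam
  set a := sing lam with ha
  set u := -fad (-zeta lam) with hu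
  set v := fad (zeta lam) with hv
  have e1 : mkPair (fun _ => 1) (fun _ => 1) ∈ genSpace := diag_mem_gen (differentiable_const 1)
  have e2 := fad_mem_gen
  set f₁ := mkPair (fun _ => 1) (fun _ => 1) with hf₁
  set f₂ := mkPair (fun z => -fad (-zeta z)) (fun z => fad (zeta z)) with hf₂
  have v11 : f₁.1 lam = a := by rw [hf₁, mkPair_fst hl.1, mul_one]
  have v12 : f₁.2 lam = a := by rw [hf₁, mkPair_snd hl.2, mul_one]
  have v21 : f₂.1 lam = a * u := by rw [hf₂, mkPair_fst hl.1]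
  have v22 : f₂.2 lam = a * v := by rw [hf₂, mkPair_snd hl.2]
  have huv : v - u ≠ 0 := by
    have : v - u = 2 * cexp (-(zeta lam) ^ 2) := by
      rw [← fad_add_fad_neg, hv, hu]; ring
    rw [this]
    exact mul_ne_zero two_ne_zero (Complex.exp_ne_zero _)
  refine ⟨(v / (a * (v - u))) • f₁ - (1 / (a * (v - u))) • f₂,
    genSpace.sub_mem (genSpace.smul_mem _ e1) (genSpace.smul_mem _ e2),
    (-u / (a * (v - u))) • f₁ + (1 / (a * (v - u))) • f₂,
    genSpace.add_mem (genSpace.smul_mem _ e1) (genSpace.smul_mem _ e2), ?_, ?_, ?_, ?_⟩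
  · show v / (a * (v - u)) * f₁.1 lam - 1 / (a * (v - u)) * f₂.1 lam = 1
    rw [v11, v21]; field_simp
  · show v / (a * (v - u)) * f₁.2 lam - 1 / (a * (v - u)) * f₂.2 lam = 0
    rw [v12, v22]; field_simp; ring
  · show -u / (a * (v - u)) * f₁.1 lam + 1 / (a * (v - u)) * f₂.1 lam = 0
    rw [v11, v21]; field_simp; ring
  · show -u / (a * (v - u)) * f₁.2 lam + 1 / (a * (v - u)) * f₂.2 lam = 1
    rw [v12, v22]; field_simp; ring

/-- a bounded functional vanishing at `y` -/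
lemma functional_sub (E : Submodule ℂ Pair) {l : E →ₗ[ℂ] ℂ} {K : ℝ≥0}
    (hK : ∀ f : E, ‖l f‖ₑ ≤ K * pairNorm p maps f) (f y : E) (hy : l y = 0) {D : ℝ≥0∞}
    (hD : pairNorm p maps ((f : Pair) - (y : Pair)) ≤ D) : ‖l f‖ₑ ≤ K * D := by
  have h1 : l f = l (f - y) := by rw [map_sub, hy, sub_zero]
  rw [h1]
  exact (hK (f - y)).trans (mul_le_mul' le_rfl hD)

/-- A functional in the kernel of the adjoint vanishes at the functions vanishing at both points
over `λ`. -/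
lemma adjoint_vanish (hp : 1 ≤ p) {lam : ℂ} (hl : lam ∈ dsk 1 ∩ dsk (-1))
    {l : invSpace p hp →ₗ[ℂ] ℂ} (hlk : l ∈ adjointKernel p maps (invSpace p hp) lam)
    (f : invSpace p hp) (h1 : (f : Pair).1 lam = 0) (h2 : (f : Pair).2 lam = 0) : l f = 0 := by
  obtain ⟨⟨K, hK⟩, hv⟩ := hlk
  obtain ⟨x₁, hx₁, x₂, hx₂, a11, a12, a21, a22⟩ := exists_basis hl
  obtain ⟨C₁, hC₁⟩ := eval_bound hp 1 hl.1
  obtain ⟨C₂, hC₂⟩ := eval_bound hp (-1) hl.2
  have sx₁ := gen_smirnov hp hx₁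
  have sx₂ := gen_smirnov hp hx₂
  set n₁ := pairNorm p maps x₁ with hn₁
  set n₂ := pairNorm p maps x₂ with hn₂
  have hn₁' : n₁ ≠ ∞ := (ENNReal.add_lt_top.2 ⟨sx₁.1.2.2, sx₁.2.2.2⟩).ne
  have hn₂' : n₂ ≠ ∞ := (ENNReal.add_lt_top.2 ⟨sx₂.1.2.2, sx₂.2.2.2⟩).ne
  set T : ℝ≥0∞ := K * (1 + C₁ * n₁ + C₂ * n₂) with hT
  have hT' : T ≠ ∞ := by
    refine ENNReal.mul_ne_top ENNReal.coe_ne_top (ENNReal.add_ne_top.2 ⟨ENNReal.add_ne_top.2
      ⟨ENNReal.one_ne_top, ENNReal.mul_ne_top ENNReal.coe_ne_top hn₁'⟩,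
      ENNReal.mul_ne_top ENNReal.coe_ne_top hn₂'⟩)
  -- the main estimate
  have main : ∀ ε : ℝ≥0∞, 0 < ε → ‖l f‖ₑ ≤ T * ε := by
    intro ε hε
    obtain ⟨x, hx, hxε⟩ := f.2.2 ε hε
    have sx := gen_smirnov hp hx
    have sf := f.2.1
    set c₁ := x.1 lam with hc₁
    set c₂ := x.2 lam with hc₂
    have hy : x - (c₁ • x₁ + c₂ • x₂) ∈ genSpace :=
      genSpace.sub_mem hx (genSpace.add_mem (genSpace.smul_mem _ hx₁) (genSpace.smul_mem _ hx₂))
    set y := x - (c₁ • x₁ + c₂ • x₂) with hydef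
    have y1 : y.1 lam = 0 := by
      show x.1 lam - (c₁ * x₁.1 lam + c₂ * x₂.1 lam) = 0
      rw [a11, a21, ← hc₁]; ring
    have y2 : y.2 lam = 0 := by
      show x.2 lam - (c₁ * x₁.2 lam + c₂ * x₂.2 lam) = 0
      rw [a12, a22, ← hc₂]; ring
    obtain ⟨g, hg, hyg⟩ := division hl hy y1 y2
    have hly : l ⟨y, gen_le_inv hp hy⟩ = 0 :=
      hv ⟨g, gen_le_inv hp hg⟩ ⟨y, gen_le_inv hp hy⟩ hyg
    have hN1 : smirnovNorm p (dmap 1) ((f : Pair).1 - x.1) ≤ ε :=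
      (le_self_add.trans hxε.le)
    have hN2 : smirnovNorm p (dmap (-1)) ((f : Pair).2 - x.2) ≤ ε :=
      (le_add_self.trans hxε.le)
    have b1 : ‖c₁‖ₑ ≤ C₁ * ε := by
      have h3 := hC₁ ((f : Pair).1 - x.1) (sf.1.1.sub sx.1.1)
        ((smirnovNorm_sub_le (isRiemannMap_dmap 1) hp sf.1.1.continuousOn
          sx.1.1.continuousOn).trans_lt (ENNReal.add_lt_top.2 ⟨sf.1.2.2, sx.1.2.2⟩))
      rw [Pi.sub_apply, h1, zero_sub, enorm_neg] at h3
      exact h3.trans (mul_le_mul' le_rfl hN1)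
    have b2 : ‖c₂‖ₑ ≤ C₂ * ε := by
      have h3 := hC₂ ((f : Pair).2 - x.2) (sf.2.1.sub sx.2.1)
        ((smirnovNorm_sub_le (isRiemannMap_dmap (-1)) hp sf.2.1.continuousOn
          sx.2.1.continuousOn).trans_lt (ENNReal.add_lt_top.2 ⟨sf.2.2.2, sx.2.2.2⟩))
      rw [Pi.sub_apply, h2, zero_sub, enorm_neg] at h3
      exact h3.trans (mul_le_mul' le_rfl hN2)
    have sy := gen_smirnov hp hy
    have hsm : ∀ (c : ℂ) (x : Pair), pairNorm p maps (c • x) ≤ ‖c‖ₑ * pairNorm p maps x := by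
      intro c x
      exact pairNorm_mul_le (g := fun _ => c) (M := ‖c‖₊) hp (fun z _ => le_rfl) (fun z _ => le_rfl) x
    have b3 : pairNorm p maps ((f : Pair) - y) ≤ ε + (C₁ * ε * n₁ + C₂ * ε * n₂) := by
      refine (pairNorm_sub_tri hp sf sx sy).trans (add_le_add hxε.le ?_)
      have e : x - y = c₁ • x₁ + c₂ • x₂ := by rw [hydef]; abel
      rw [e]
      have t1 := gen_smirnov hp (genSpace.smul_mem c₁ hx₁)
      have t2 := gen_smirnov hp (genSpace.smul_mem c₂ hx₂)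
      refine (pairNorm_add_le hp t1.1.1.continuousOn t1.2.1.continuousOn t2.1.1.continuousOn
        t2.2.1.continuousOn).trans (add_le_add ?_ ?_)
      · exact (hsm c₁ x₁).trans (mul_le_mul' b1 le_rfl)
      · exact (hsm c₂ x₂).trans (mul_le_mul' b2 le_rfl)
    refine (functional_sub (invSpace p hp) hK f ⟨y, gen_le_inv hp hy⟩ hly b3).trans
      (le_of_eq ?_)
    rw [hT]; ring
  by_contra h0
  set a := ‖l f‖ₑ with ha
  have ha0 : a ≠ 0 := by rw [ha]; simpa using h0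
  have ha1 : a ≠ ∞ := by rw [ha]; exact enorm_ne_top
  have hT1 : T + 1 ≠ 0 := by simp
  have hT1' : T + 1 ≠ ∞ := ENNReal.add_ne_top.2 ⟨hT', ENNReal.one_ne_top⟩
  have h5 := main (a / 2 / (T + 1)) (ENNReal.div_pos (ENNReal.half_pos ha0).ne' hT1')
  have h6 : T * (a / 2 / (T + 1)) ≤ a / 2 := by
    calc T * (a / 2 / (T + 1)) ≤ (T + 1) * (a / 2 / (T + 1)) := mul_le_mul' le_self_add le_rfl
      _ = a / 2 := ENNReal.mul_div_cancel hT1 hT1'
  exact absurd (h5.trans h6) (not_le.2 (ENNReal.half_lt_self ha0 ha1))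

/-- evaluation on the sheet `A` -/
noncomputable def evA (hp : 1 ≤ p) (lam : ℂ) : invSpace p hp →ₗ[ℂ] ℂ where
  toFun f := (f : Pair).1 lam
  map_add' _ _ := rfl
  map_smul' _ _ := rfl

/-- evaluation on the sheet `B` -/
noncomputable def evB (hp : 1 ≤ p) (lam : ℂ) : invSpace p hp →ₗ[ℂ] ℂ where
  toFun f := (f : Pair).2 lam
  map_add' _ _ := rfl
  map_smul' _ _ := rfl

lemma evA_mem (hp : 1 ≤ p) {lam : ℂ} (hl : lam ∈ dsk 1) :
    evA hp lam ∈ adjointKernel p maps (invSpace p hp) lam := by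
  obtain ⟨C, hC⟩ := eval_bound hp 1 hl
  refine ⟨⟨C, fun f => ?_⟩, fun f g h => ?_⟩
  · have sf := f.2.1
    exact (hC _ sf.1.1 sf.1.2.2).trans (mul_le_mul' le_rfl le_self_add)
  · show (g : Pair).1 lam = 0
    rw [h]
    simp [mulSub]

lemma evB_mem (hp : 1 ≤ p) {lam : ℂ} (hl : lam ∈ dsk (-1)) :
    evB hp lam ∈ adjointKernel p maps (invSpace p hp) lam := by
  obtain ⟨C, hC⟩ := eval_bound hp (-1) hl
  refine ⟨⟨C, fun f => ?_⟩, fun f g h => ?_⟩
  · have sf := f.2.1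
    exact (hC _ sf.2.1 sf.2.2.2).trans (mul_le_mul' le_rfl le_add_self)
  · show (g : Pair).2 lam = 0
    rw [h]
    simp [mulSub]

/-- The rank function is equal to two on the lens. -/
theorem rank_eq_two (hp : 1 ≤ p) {lam : ℂ} (hl : lam ∈ dsk 1 ∩ dsk (-1)) :
    rankFunction p maps (invSpace p hp) lam = 2 := by
  obtain ⟨x₁, hx₁, x₂, hx₂, a11, a12, a21, a22⟩ := exists_basis hl
  set y₁ : invSpace p hp := ⟨x₁, gen_le_inv hp hx₁⟩ with hy₁
  set y₂ : invSpace p hp := ⟨x₂, gen_le_inv hp hx₂⟩ with hy₂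
  let Tm : adjointKernel p maps (invSpace p hp) lam →ₗ[ℂ] ℂ × ℂ :=
    { toFun := fun l => ((l : invSpace p hp →ₗ[ℂ] ℂ) y₁, (l : invSpace p hp →ₗ[ℂ] ℂ) y₂)
      map_add' := fun _ _ => rfl
      map_smul' := fun _ _ => rfl }
  have hinj : Function.Injective Tm := by
    rw [← LinearMap.ker_eq_bot, LinearMap.ker_eq_bot']
    rintro ⟨l, hlk⟩ h
    have h1 : l y₁ = 0 := congrArg Prod.fst h
    have h2 : l y₂ = 0 := congrArg Prod.snd h
    ext f
    show l f = 0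
    set g : invSpace p hp := f - ((f : Pair).1 lam) • y₁ - ((f : Pair).2 lam) • y₂ with hg
    have g1 : (g : Pair).1 lam = 0 := by
      show (f : Pair).1 lam - (f : Pair).1 lam * x₁.1 lam - (f : Pair).2 lam * x₂.1 lam = 0
      rw [a11, a21]; ring
    have g2 : (g : Pair).2 lam = 0 := by
      show (f : Pair).2 lam - (f : Pair).1 lam * x₁.2 lam - (f : Pair).2 lam * x₂.2 lam = 0
      rw [a12, a22]; ring
    have h3 := adjoint_vanish hp hl hlk g g1 g2
    rw [hg, map_sub, map_sub, map_smul, map_smul, h1, h2, smul_zero, smul_zero, sub_zero,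
      sub_zero] at h3
    exact h3
  have hsurj : Function.Surjective Tm := by
    rintro ⟨a, b⟩
    refine ⟨⟨a • evA hp lam + b • evB hp lam, Submodule.add_mem _
      (Submodule.smul_mem _ _ (evA_mem hp hl.1)) (Submodule.smul_mem _ _ (evB_mem hp hl.2))⟩, ?_⟩
    refine Prod.ext ?_ ?_
    · show a * x₁.1 lam + b * x₁.2 lam = a
      rw [a11, a12]; ring
    · show a * x₂.1 lam + b * x₂.2 lam = b
      rw [a21, a22]; ring
  rw [rankFunction, (LinearEquiv.ofBijective Tm ⟨hinj, hsurj⟩).finrank_eq, Module.finrank_prod,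
    Module.finrank_self]

/-- the function `(1 - z, 1 - z)` -/
noncomputable def target : Pair :=
  ((dsk 1).indicator fun z => 1 - z, (dsk (-1)).indicator fun z => 1 - z)

lemma one_sub_bound {s : ℝ} (hs : s = 1 ∨ s = -1) {z : ℂ} (hz : z ∈ dsk s) : ‖1 - z‖ ≤ 4 := by
  refine (norm_sub_le _ _).trans ?_
  rw [norm_one]
  linarith [norm_le_of_mem hs hz]

lemma target_smirnov (hp : 1 ≤ p) : IsSmirnovPair p maps target :=
  ⟨smirnov_of_bounded hp (by fun_prop) (fun _ hz => one_sub_bound (Or.inl rfl) hz) (by norm_num),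
    smirnov_of_bounded hp (by fun_prop) (fun _ hz => one_sub_bound (Or.inr rfl) hz) (by norm_num)⟩

/-- `(1 - z, 1 - z)` is not in the invariant subspace. -/
theorem target_not_mem (hp : 1 ≤ p) : target ∉ invSpace p hp := by
  intro hmem
  obtain ⟨C, hC, hcont⟩ := fnl_continuous hp
  have st := target_smirnov hp
  have hne : fnl target ≠ 0 := fnl_ne_zero (fun z hz => Set.indicator_of_mem hz _)
    (fun z hz => Set.indicator_of_mem hz _)
  have hpos : 0 < ‖fnl target‖ := norm_pos_iff.2 hne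
  set ε : ℝ := ‖fnl target‖ / (2 * (C + 1)) with hε
  have hε0 : 0 < ε := by positivity
  obtain ⟨x, hx, hxε⟩ := hmem.2 (ENNReal.ofReal ε) (ENNReal.ofReal_pos.2 hε0)
  have sx := gen_smirnov hp hx
  have h0 : fnl x = 0 := by
    obtain ⟨vA, vB, k, M, h, rfl⟩ := hx
    exact fnl_eq_zero h.dA h.dB h.bA h.bB h.bk h.eq (fun z hz => mkPair_fst hz)
      (fun z hz => mkPair_snd hz)
  have h1 := hcont target x ⟨st.1.1, st.1.2.2⟩ ⟨st.2.1, st.2.2.2⟩ ⟨sx.1.1, sx.1.2.2⟩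
    ⟨sx.2.1, sx.2.2.2⟩
  rw [h0, sub_zero] at h1
  have hN1 : smirnovNorm p (dmap 1) (target.1 - x.1) < ENNReal.ofReal ε :=
    lt_of_le_of_lt le_self_add hxε
  have hN2 : smirnovNorm p (dmap (-1)) (target.2 - x.2) < ENNReal.ofReal ε :=
    lt_of_le_of_lt le_add_self hxε
  have h2 : (smirnovNorm p (dmap 1) (target.1 - x.1)).toReal ≤ ε :=
    ENNReal.toReal_le_of_le_ofReal hε0.le hN1.le
  have h3 : (smirnovNorm p (dmap (-1)) (target.2 - x.2)).toReal ≤ ε :=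
    ENNReal.toReal_le_of_le_ofReal hε0.le hN2.le
  have h4 : ‖fnl target‖ ≤ C * (ε + ε) := h1.trans (by gcongr)
  have h5 : C * (ε + ε) < ‖fnl target‖ := by
    have h6 : ‖fnl target‖ = ε * (2 * (C + 1)) := by rw [hε]; field_simp
    rw [h6]
    nlinarith
  linarith

/-- `(1 - z, 1 - z)` is in the standard subspace. -/
theorem target_mem_standard (hp : 1 ≤ p) :
    target ∈ standardSubspace p maps (invSpace p hp) := by
  have o1 : (1 : ℝ) = 1 ∨ (1 : ℝ) = -1 := Or.inl rfl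
  have o2 : (-1 : ℝ) = 1 ∨ (-1 : ℝ) = -1 := Or.inr rfl
  have hKp := KK_pow_ne_top hp
  -- a suitable real number
  have hreal : ∀ ε : ℝ≥0∞, 0 < ε → ∃ δ : ℝ, 0 < δ ∧ 2 * (ENNReal.ofReal δ * KK ^ (1 / p)) < ε := by
    intro ε hε
    have h1 : 2 * (KK ^ (1 / p) + 1) ≠ 0 := by simp
    have h2 : 2 * (KK ^ (1 / p) + 1) ≠ ∞ := ENNReal.mul_ne_top (by simp)
      (ENNReal.add_ne_top.2 ⟨hKp, ENNReal.one_ne_top⟩)
    obtain ⟨δ, hδ0, hδ⟩ : ∃ δ : ℝ≥0∞, 0 < δ ∧ δ < min 1 (ε / (2 * (KK ^ (1 / p) + 1))) :=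
      exists_between (lt_min one_pos (ENNReal.div_pos hε.ne' h2))
    have hδt : δ ≠ ∞ := (hδ.trans_le (min_le_left _ _)).ne_top
    refine ⟨δ.toReal, ENNReal.toReal_pos hδ0.ne' hδt, ?_⟩
    rw [ENNReal.ofReal_toReal hδt]
    calc 2 * (δ * KK ^ (1 / p)) ≤ (2 * (KK ^ (1 / p) + 1)) * δ := by
          rw [mul_comm δ, ← mul_assoc]
          exact mul_le_mul' (mul_le_mul' le_rfl le_self_add) le_rfl
      _ < (2 * (KK ^ (1 / p) + 1)) * (ε / (2 * (KK ^ (1 / p) + 1))) :=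
          (ENNReal.mul_lt_mul_iff_right h1 h2).2 (hδ.trans_le (min_le_right _ _))
      _ = ε := ENNReal.mul_div_cancel h1 h2
  have ht1 : ∀ z ∈ dsk 1, target.1 z = 1 - z := fun z hz =>
    Set.indicator_of_mem hz (fun z => 1 - z)
  have ht2 : ∀ z ∈ dsk (-1), target.2 z = 1 - z := fun z hz =>
    Set.indicator_of_mem hz (fun z => 1 - z)
  refine ⟨target_smirnov hp, ⟨(target_smirnov hp).1, fun ε hε => ?_⟩,
    ⟨(target_smirnov hp).2, fun ε hε => ?_⟩, ?_⟩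
  · obtain ⟨δ, hδ, hδε⟩ := hreal ε hε
    obtain ⟨q, hq, hqa⟩ := sing_approx o1 hδ
    refine ⟨mkPair q q, gen_le_inv hp (diag_mem_gen hq), ?_⟩
    have hb : ∀ z ∈ dsk 1, ‖(target.1 - (mkPair q q).1) z‖ ≤ δ := by
      intro z hz
      rw [Pi.sub_apply, ht1 z hz, mkPair_fst hz, norm_sub_rev]
      exact hqa z hz
    refine (norm_le_bound hp hb hδ.le).trans_lt (lt_of_le_of_lt ?_ hδε)
    rw [two_mul]; exact le_self_add
  · obtain ⟨δ, hδ, hδε⟩ := hreal ε hε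
    obtain ⟨q, hq, hqa⟩ := sing_approx o2 hδ
    refine ⟨mkPair q q, gen_le_inv hp (diag_mem_gen hq), ?_⟩
    have hb : ∀ z ∈ dsk (-1), ‖(target.2 - (mkPair q q).2) z‖ ≤ δ := by
      intro z hz
      rw [Pi.sub_apply, ht2 z hz, mkPair_snd hz, norm_sub_rev]
      exact hqa z hz
    refine (norm_le_bound hp hb hδ.le).trans_lt (lt_of_le_of_lt ?_ hδε)
    rw [two_mul]; exact le_self_add
  · have hr1 : ∀ z ∈ dsk 1 ∩ dsk (-1), (restrictC (dsk 1) (dsk (-1)) target).1 z = 1 - z := by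
      intro z hz
      rw [restrictC]
      show (dsk 1 ∩ dsk (-1)).indicator target.1 z = 1 - z
      rw [Set.indicator_of_mem hz, ht1 z hz.1]
    have hr2 : ∀ z ∈ dsk 1 ∩ dsk (-1), (restrictC (dsk 1) (dsk (-1)) target).2 z = 1 - z := by
      intro z hz
      rw [restrictC]
      show (dsk 1 ∩ dsk (-1)).indicator target.2 z = 1 - z
      rw [Set.indicator_of_mem hz, ht2 z hz.2]
    have hsm : ∀ g : ℂ → ℂ, (∀ z ∈ dsk 1 ∩ dsk (-1), g z = 1 - z) →
        (∀ z ∉ dsk 1 ∩ dsk (-1), g z = 0) → IsSmirnov p maps.c (dsk 1 ∩ dsk (-1)) g := by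
      intro g hg hg0
      refine ⟨DifferentiableOn.congr (f := fun z => 1 - z) (by fun_prop) hg, hg0, ?_⟩
      refine (norm_le_bound_lens hp (M := 4) (fun z hz => ?_) (by norm_num)).trans_lt
        (ENNReal.mul_lt_top ENNReal.ofReal_lt_top hKp.lt_top)
      rw [hg z hz]
      exact one_sub_bound o1 hz.1
    refine ⟨⟨hsm _ hr1 fun z hz => Set.indicator_of_notMem hz _,
      hsm _ hr2 fun z hz => Set.indicator_of_notMem hz _⟩, fun ε hε => ?_⟩
    obtain ⟨δ, hδ, hδε⟩ := hreal ε hε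
    obtain ⟨q, hq, hqa⟩ := sing_approx o1 hδ
    refine ⟨mkPair q q, gen_le_inv hp (diag_mem_gen hq), ?_⟩
    have hb1 : ∀ z ∈ dsk 1 ∩ dsk (-1), ‖((restrictC (dsk 1) (dsk (-1)) target).1 -
        (restrictC (dsk 1) (dsk (-1)) (mkPair q q)).1) z‖ ≤ δ := by
      intro z hz
      rw [Pi.sub_apply, hr1 z hz]
      have e : (restrictC (dsk 1) (dsk (-1)) (mkPair q q)).1 z = sing z * q z := by
        show (dsk 1 ∩ dsk (-1)).indicator (mkPair q q).1 z = _
        rw [Set.indicator_of_mem hz, mkPair_fst hz.1]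
      rw [e, norm_sub_rev]
      exact hqa z hz.1
    have hb2 : ∀ z ∈ dsk 1 ∩ dsk (-1), ‖((restrictC (dsk 1) (dsk (-1)) target).2 -
        (restrictC (dsk 1) (dsk (-1)) (mkPair q q)).2) z‖ ≤ δ := by
      intro z hz
      rw [Pi.sub_apply, hr2 z hz]
      have e : (restrictC (dsk 1) (dsk (-1)) (mkPair q q)).2 z = sing z * q z := by
        show (dsk 1 ∩ dsk (-1)).indicator (mkPair q q).2 z = _
        rw [Set.indicator_of_mem hz, mkPair_snd hz.2]
      rw [e, norm_sub_rev]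
      exact hqa z hz.1
    calc _ ≤ ENNReal.ofReal δ * KK ^ (1 / p) + ENNReal.ofReal δ * KK ^ (1 / p) :=
          add_le_add (norm_le_bound_lens hp hb1 hδ.le) (norm_le_bound_lens hp hb2 hδ.le)
      _ = 2 * (ENNReal.ofReal δ * KK ^ (1 / p)) := by rw [two_mul]
      _ < ε := hδε

end Pool.Agent.Helper56.TwoSheet
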