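import Pool.Agent.Helper56.TwoSheet.Defs

/-!
# Elementary properties of the Smirnov norm
-/

open MeasureTheory
open scoped ENNReal Real NNReal

namespace Pool.Agent.Helper56.TwoSheet

variable {V : Set ℂ} {φ : ℂ → ℂ} {p : ℝ}

lemma IsRiemannMap.mem (h : IsRiemannMap φ V) {w : ℂ} (hw : w ∈ Metric.ball (0 : ℂ) 1) :
    φ w ∈ V := by
  rw [← h.2.2]; exact ⟨w, hw, rfl⟩

lemma circleMap_mem {r : ℝ} (hr : r ∈ Set.Ioo (0 : ℝ) 1) (θ : ℝ) :
    circleMap 0 r θ ∈ Metric.ball (0 : ℂ) 1 := by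
  simp only [Metric.mem_ball, dist_zero_right, circleMap, zero_add, norm_mul, Complex.norm_real,
    Complex.norm_exp_ofReal_mul_I, mul_one]
  rw [Real.norm_eq_abs, abs_of_pos hr.1]; exact hr.2

lemma continuous_comp (h : IsRiemannMap φ V) {r : ℝ} (hr : r ∈ Set.Ioo (0 : ℝ) 1)
    {f : ℂ → ℂ} (hf : ContinuousOn f V) :
    Continuous fun θ : ℝ => f (φ (circleMap 0 r θ)) := by
  have h1 : ContinuousOn (f ∘ φ) (Metric.ball 0 1) :=
    hf.comp h.1.continuousOn fun w hw => h.mem hw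
  exact h1.comp_continuous (continuous_circleMap 0 r) (circleMap_mem hr)

lemma continuous_deriv_comp (h : IsRiemannMap φ V) {r : ℝ} (hr : r ∈ Set.Ioo (0 : ℝ) 1) :
    Continuous fun θ : ℝ => deriv φ (circleMap 0 r θ) := by
  have h1 : ContinuousOn (deriv φ) (Metric.ball 0 1) :=
    (h.1.deriv Metric.isOpen_ball).continuousOn
  exact h1.comp_continuous (continuous_circleMap 0 r) (circleMap_mem hr)

/-- The integral in the definition of the Smirnov norm. -/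
noncomputable def sInt (p : ℝ) (φ f : ℂ → ℂ) (r : ℝ) : ℝ≥0∞ :=
  ∫⁻ θ in Set.Ioc (0 : ℝ) (2 * π),
      ‖f (φ (circleMap 0 r θ))‖ₑ ^ p * ‖deriv φ (circleMap 0 r θ)‖ₑ

lemma smirnovNorm_eq (p : ℝ) (φ f : ℂ → ℂ) :
    smirnovNorm p φ f = ⨆ r ∈ Set.Ioo (0 : ℝ) 1, (sInt p φ f r) ^ (1 / p) := rfl

lemma le_smirnovNorm {r : ℝ} (hr : r ∈ Set.Ioo (0 : ℝ) 1) (p : ℝ) (φ f : ℂ → ℂ) :
    (sInt p φ f r) ^ (1 / p) ≤ smirnovNorm p φ f := by
  rw [smirnovNorm_eq]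
  exact le_iSup₂ (f := fun r (_ : r ∈ Set.Ioo (0 : ℝ) 1) => (sInt p φ f r) ^ (1 / p)) r hr

lemma smirnovNorm_le {K : ℝ≥0∞} {f : ℂ → ℂ}
    (h : ∀ r ∈ Set.Ioo (0 : ℝ) 1, (sInt p φ f r) ^ (1 / p) ≤ K) : smirnovNorm p φ f ≤ K := by
  rw [smirnovNorm_eq]
  exact iSup₂_le h

lemma smirnovNorm_congr (h : IsRiemannMap φ V) {f g : ℂ → ℂ} (hfg : Set.EqOn f g V) :
    smirnovNorm p φ f = smirnovNorm p φ g := by
  rw [smirnovNorm_eq, smirnovNorm_eq]
  refine iSup_congr fun r => iSup_congr fun hr => ?_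
  unfold sInt
  congr 1
  refine lintegral_congr fun θ => ?_
  rw [hfg (h.mem (circleMap_mem hr θ))]

lemma smirnovNorm_add_le (h : IsRiemannMap φ V) (hp : 1 ≤ p) {f g : ℂ → ℂ}
    (hf : ContinuousOn f V) (hg : ContinuousOn g V) :
    smirnovNorm p φ (f + g) ≤ smirnovNorm p φ f + smirnovNorm p φ g := by
  have hp0 : 0 < p := by linarith
  refine smirnovNorm_le fun r hr => ?_
  set w : ℝ → ℝ≥0∞ := fun θ => ‖deriv φ (circleMap 0 r θ)‖ₑ with hw
  have hwm : Measurable w := (continuous_deriv_comp h hr).enorm.measurable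
  have key : ∀ F : ℂ → ℂ, sInt p φ F r =
      ∫⁻ θ in Set.Ioc (0 : ℝ) (2 * π), (‖F (φ (circleMap 0 r θ))‖ₑ * w θ ^ (1 / p)) ^ p := by
    intro F
    refine lintegral_congr fun θ => ?_
    rw [ENNReal.mul_rpow_of_nonneg _ _ hp0.le, ← ENNReal.rpow_mul, one_div,
      inv_mul_cancel₀ hp0.ne', ENNReal.rpow_one]
  have hm : ∀ F : ℂ → ℂ, ContinuousOn F V →
      AEMeasurable (fun θ : ℝ => ‖F (φ (circleMap 0 r θ))‖ₑ * w θ ^ (1 / p))
        (volume.restrict (Set.Ioc (0 : ℝ) (2 * π))) := by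
    intro F hF
    exact ((continuous_comp h hr hF).enorm.measurable.mul (hwm.pow_const _)).aemeasurable
  calc (sInt p φ (f + g) r) ^ (1 / p)
      ≤ (∫⁻ θ in Set.Ioc (0 : ℝ) (2 * π),
          (((fun θ => ‖f (φ (circleMap 0 r θ))‖ₑ * w θ ^ (1 / p)) +
            (fun θ => ‖g (φ (circleMap 0 r θ))‖ₑ * w θ ^ (1 / p))) θ) ^ p) ^ (1 / p) := by
        rw [key]
        refine ENNReal.rpow_le_rpow (lintegral_mono fun θ => ?_) (by positivity)
        refine ENNReal.rpow_le_rpow ?_ hp0.le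
        simp only [Pi.add_apply]
        rw [← add_mul]
        exact mul_le_mul' (enorm_add_le _ _) le_rfl
    _ ≤ _ := ENNReal.lintegral_Lp_add_le (hm f hf) (hm g hg) hp
    _ ≤ _ := by
        rw [← key, ← key]
        exact add_le_add (le_smirnovNorm hr p φ f) (le_smirnovNorm hr p φ g)

lemma smirnovNorm_mul_le (h : IsRiemannMap φ V) (hp : 1 ≤ p) {f g : ℂ → ℂ} {M : ℝ≥0}
    (hg : ∀ z ∈ V, ‖g z‖ₑ ≤ M) :
    smirnovNorm p φ (fun z => g z * f z) ≤ M * smirnovNorm p φ f := by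
  have hp0 : 0 < p := by linarith
  refine smirnovNorm_le fun r hr => ?_
  refine le_trans ?_ (mul_le_mul' le_rfl (le_smirnovNorm hr p φ f))
  have h1 : sInt p φ (fun z => g z * f z) r ≤ (M : ℝ≥0∞) ^ p * sInt p φ f r := by
    unfold sInt
    rw [← lintegral_const_mul' _ _ (by simp [hp0.le])]
    refine lintegral_mono fun θ => ?_
    have h2 := hg _ (h.mem (circleMap_mem hr θ))
    calc ‖g (φ (circleMap 0 r θ)) * f (φ (circleMap 0 r θ))‖ₑ ^ p *
          ‖deriv φ (circleMap 0 r θ)‖ₑ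
        ≤ (M * ‖f (φ (circleMap 0 r θ))‖ₑ) ^ p * ‖deriv φ (circleMap 0 r θ)‖ₑ := by
          refine mul_le_mul' (ENNReal.rpow_le_rpow ?_ hp0.le) le_rfl
          rw [enorm_mul]
          exact mul_le_mul' h2 le_rfl
      _ = _ := by rw [ENNReal.mul_rpow_of_nonneg _ _ hp0.le, mul_assoc]
  calc (sInt p φ (fun z => g z * f z) r) ^ (1 / p)
      ≤ ((M : ℝ≥0∞) ^ p * sInt p φ f r) ^ (1 / p) := ENNReal.rpow_le_rpow h1 (by positivity)
    _ = M * (sInt p φ f r) ^ (1 / p) := by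
        rw [ENNReal.mul_rpow_of_nonneg _ _ (by positivity), ← ENNReal.rpow_mul, one_div,
          mul_inv_cancel₀ hp0.ne', ENNReal.rpow_one]

lemma smirnovNorm_le_of_bound (h : IsRiemannMap φ V) (hp : 1 ≤ p) {f : ℂ → ℂ} {M : ℝ≥0}
    (hf : ∀ z ∈ V, ‖f z‖ₑ ≤ M) {K : ℝ≥0∞}
    (hK : ∀ r ∈ Set.Ioo (0 : ℝ) 1,
      ∫⁻ θ in Set.Ioc (0 : ℝ) (2 * π), ‖deriv φ (circleMap 0 r θ)‖ₑ ≤ K) :
    smirnovNorm p φ f ≤ M * K ^ (1 / p) := by
  have hp0 : 0 < p := by linarith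
  refine smirnovNorm_le fun r hr => ?_
  have h1 : sInt p φ f r ≤ (M : ℝ≥0∞) ^ p * K := by
    refine le_trans ?_ (mul_le_mul' le_rfl (hK r hr))
    unfold sInt
    rw [← lintegral_const_mul' _ _ (by simp [hp0.le])]
    refine lintegral_mono fun θ => ?_
    exact mul_le_mul' (ENNReal.rpow_le_rpow (hf _ (h.mem (circleMap_mem hr θ))) hp0.le) le_rfl
  calc (sInt p φ f r) ^ (1 / p)
      ≤ ((M : ℝ≥0∞) ^ p * K) ^ (1 / p) := ENNReal.rpow_le_rpow h1 (by positivity)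
    _ = M * K ^ (1 / p) := by
        rw [ENNReal.mul_rpow_of_nonneg _ _ (by positivity), ← ENNReal.rpow_mul, one_div,
          mul_inv_cancel₀ hp0.ne', ENNReal.rpow_one]

lemma smirnovNorm_neg (f : ℂ → ℂ) : smirnovNorm p φ (-f) = smirnovNorm p φ f := by
  rw [smirnovNorm_eq, smirnovNorm_eq]
  refine iSup_congr fun r => iSup_congr fun _ => ?_
  unfold sInt
  simp only [Pi.neg_apply, enorm_neg]

lemma smirnovNorm_zero (hp : 1 ≤ p) : smirnovNorm p φ 0 = 0 := by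
  have hp0 : 0 < p := by linarith
  rw [smirnovNorm_eq]
  have : ∀ r, sInt p φ 0 r = 0 := by
    intro r
    unfold sInt
    simp [ENNReal.zero_rpow_of_pos hp0]
  simp [this, ENNReal.zero_rpow_of_pos (inv_pos.2 hp0)]

lemma smirnovNorm_sub_le (h : IsRiemannMap φ V) (hp : 1 ≤ p) {f g : ℂ → ℂ}
    (hf : ContinuousOn f V) (hg : ContinuousOn g V) :
    smirnovNorm p φ (f - g) ≤ smirnovNorm p φ f + smirnovNorm p φ g := by
  rw [sub_eq_add_neg]
  refine (smirnovNorm_add_le h hp hf hg.neg).trans ?_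
  rw [smirnovNorm_neg]

end Pool.Agent.Helper56.TwoSheet
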