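import Mathlib

/-!
# Rotation of a half-line by a quarter turn
-/

open MeasureTheory Complex Filter Topology
open scoped Real

namespace Pool.Agent.Helper56.TwoSheet

/-- The quadrant `Re z ≥ 1`, `s Im z ≥ 0`. -/
def quad (s : ℝ) : Set ℂ := {z | 1 ≤ z.re ∧ 0 ≤ s * z.im}

lemma integrableOn_inv_sq : IntegrableOn (fun x : ℝ => (x ^ 2)⁻¹) (Set.Ioi 1) := by
  have h := integrableOn_Ioi_rpow_of_lt (a := -2) (by norm_num) (c := 1) one_pos
  refine h.congr_fun (fun x hx => ?_) measurableSet_Ioi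
  rw [Set.mem_Ioi] at hx
  show x ^ (-2 : ℝ) = _
  rw [Real.rpow_neg (by linarith), Real.rpow_two]

lemma norm_sq_line (s y : ℝ) (hs : s = 1 ∨ s = -1) : ‖(1 : ℂ) + s * y * I‖ ^ 2 = 1 + y ^ 2 := by
  rw [← Complex.normSq_eq_norm_sq, Complex.normSq_apply]
  rcases hs with rfl | rfl <;> simp <;> ring

lemma ne_zero_line (s y : ℝ) : (1 : ℂ) + s * y * I ≠ 0 := by
  intro h
  have := congrArg Complex.re h
  simp at this

/-- A function which is holomorphic in the quadrant and `O(|z|⁻²)` has the same integral over the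
two sides of the quadrant. -/
lemma rot (s : ℝ) (hs : s = 1 ∨ s = -1) {F : ℂ → ℂ} {C : ℝ}
    (hd : DifferentiableOn ℂ F (quad s)) (hb : ∀ z ∈ quad s, ‖F z‖ ≤ C / ‖z‖ ^ 2) :
    (s * I) * ∫ y in Set.Ioi (0 : ℝ), F (1 + s * y * I) = ∫ x in Set.Ioi (1 : ℝ), F x := by
  have hss : s * s = 1 := by rcases hs with rfl | rfl <;> norm_num
  have hC : 0 ≤ C := by
    have h := (norm_nonneg _).trans (hb 1 ⟨by simp, by simp⟩)
    simpa using h
  -- integrability
  have hmem1 : ∀ x : ℝ, 1 ≤ x → (x : ℂ) ∈ quad s := fun x hx => ⟨by simpa using hx, by simp⟩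
  have hmem2 : ∀ y : ℝ, 0 ≤ y → (1 + s * y * I : ℂ) ∈ quad s := fun y hy =>
    ⟨by simp, by simp [← mul_assoc, hss, hy]⟩
  have hI1 : IntegrableOn (fun x : ℝ => F x) (Set.Ioi 1) := by
    refine Integrable.mono' (integrableOn_inv_sq.const_mul C) ?_ ?_
    · refine ContinuousOn.aestronglyMeasurable ?_ measurableSet_Ioi
      exact hd.continuousOn.comp Complex.continuous_ofReal.continuousOn
        fun x hx => hmem1 x (le_of_lt hx)
    · refine (ae_restrict_iff' measurableSet_Ioi).2 (Eventually.of_forall fun x hx => ?_)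
      rw [Set.mem_Ioi] at hx
      have := hb x (hmem1 x hx.le)
      rwa [Complex.norm_real, Real.norm_eq_abs, sq_abs, div_eq_mul_inv] at this
  have hI2 : IntegrableOn (fun y : ℝ => F (1 + s * y * I)) (Set.Ioi 0) := by
    refine Integrable.mono' ((integrable_inv_one_add_sq.const_mul C).integrableOn) ?_ ?_
    · refine ContinuousOn.aestronglyMeasurable ?_ measurableSet_Ioi
      exact hd.continuousOn.comp (by fun_prop) fun x hx => hmem2 x (le_of_lt hx)
    · refine (ae_restrict_iff' measurableSet_Ioi).2 (Eventually.of_forall fun x hx => ?_)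
      rw [Set.mem_Ioi] at hx
      have := hb _ (hmem2 x hx.le)
      rwa [norm_sq_line s x hs, div_eq_mul_inv] at this
  -- the rectangle
  have hrect : ∀ T : ℝ, 1 ≤ T →
      (∫ x : ℝ in (1 : ℝ)..T, F x) - (∫ x : ℝ in (1 : ℝ)..T, F (x + s * T * I)) +
        (s * I) * (∫ y : ℝ in (0 : ℝ)..T, F (T + s * y * I)) -
        (s * I) * (∫ y : ℝ in (0 : ℝ)..T, F (1 + s * y * I)) = 0 := by
    intro T hT
    have hsub : (Set.uIcc (1 : ℂ).re ((T : ℂ) + (s * T : ℝ) * I).re ×ℂ
        Set.uIcc (1 : ℂ).im ((T : ℂ) + (s * T : ℝ) * I).im) ⊆ quad s := by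
      intro z hz
      rw [Complex.mem_reProdIm] at hz
      obtain ⟨h1, h2⟩ := hz
      simp only [one_re, add_re, ofReal_re, mul_re, I_re, mul_zero, ofReal_im, I_im, mul_one,
        sub_self, add_zero] at h1
      simp only [one_im, add_im, ofReal_im, mul_im, ofReal_re, I_im, mul_one, I_re, mul_zero,
        add_zero, zero_add] at h2
      rw [Set.uIcc_of_le hT] at h1
      refine ⟨h1.1, ?_⟩
      rcases hs with rfl | rfl
      · rw [one_mul, Set.uIcc_of_le (by linarith)] at h2
        rw [one_mul]; exact h2.1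
      · rw [neg_one_mul, Set.uIcc_of_ge (by linarith)] at h2
        rw [neg_one_mul]; linarith [h2.2]
    have key := Complex.integral_boundary_rect_eq_zero_of_differentiableOn F 1
      ((T : ℂ) + (s * T : ℝ) * I) (hd.mono hsub)
    simp only [one_re, add_re, ofReal_re, mul_re, I_re, mul_zero, ofReal_im, I_im, mul_one,
      sub_self, add_zero, one_im, add_im, mul_im, zero_add, ofReal_zero, zero_mul,
      smul_eq_mul, ofReal_mul, ofReal_one, sub_zero] at key
    have hsc : ∀ a : ℂ, ∫ y : ℝ in (0 : ℝ)..(s * T), F (a + y * I) =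
        s * ∫ y : ℝ in (0 : ℝ)..T, F (a + s * y * I) := by
      intro a
      have hs0 : s ≠ 0 := by rintro rfl; norm_num at hss
      have := intervalIntegral.integral_comp_mul_left (a := 0) (b := T)
        (fun y : ℝ => F (a + y * I)) hs0
      simp only [mul_zero, ofReal_mul] at this
      rw [this, ← smul_eq_mul (a := (s : ℂ)), Complex.coe_smul, smul_smul, mul_inv_cancel₀ hs0,
        one_smul]
    rw [hsc, hsc] at key
    rw [← key]; ring
  -- limits
  have hid : Tendsto (fun T : ℝ => T) atTop atTop := tendsto_id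
  have t1 : Tendsto (fun T : ℝ => ∫ x : ℝ in (1 : ℝ)..T, F x) atTop
      (𝓝 (∫ x in Set.Ioi (1 : ℝ), F x)) := intervalIntegral_tendsto_integral_Ioi 1 hI1 hid
  have t4 : Tendsto (fun T : ℝ => ∫ y : ℝ in (0 : ℝ)..T, F (1 + s * y * I)) atTop
      (𝓝 (∫ y in Set.Ioi (0 : ℝ), F (1 + s * y * I))) :=
    intervalIntegral_tendsto_integral_Ioi 0 hI2 hid
  have hlim : Tendsto (fun T : ℝ => C / T) atTop (𝓝 0) := tendsto_const_nhds.div_atTop hid
  have t2 : Tendsto (fun T : ℝ => ∫ x : ℝ in (1 : ℝ)..T, F (x + s * T * I)) atTop (𝓝 0) := by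
    refine squeeze_zero_norm' ?_ hlim
    filter_upwards [eventually_ge_atTop (1 : ℝ)] with T hT
    have h1 : ∀ x ∈ Set.uIoc (1 : ℝ) T, ‖F (x + s * T * I)‖ ≤ C / T ^ 2 := by
      intro x hx
      rw [Set.uIoc_of_le hT] at hx
      refine (hb _ ⟨by simpa using hx.1.le, ?_⟩).trans ?_
      · simp only [add_im, ofReal_im, mul_im, mul_re, ofReal_re, I_im, I_re]
        ring_nf
        rw [show s ^ 2 = 1 by rw [pow_two, hss]]
        linarith
      · refine div_le_div_of_nonneg_left hC (by positivity) ?_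
        rw [← Complex.normSq_eq_norm_sq, Complex.normSq_apply]
        simp
        nlinarith [sq_nonneg x]
    refine (intervalIntegral.norm_integral_le_of_norm_le_const h1).trans ?_
    rw [abs_of_nonneg (by linarith), div_mul_eq_mul_div, div_le_div_iff₀ (by positivity)
      (by positivity)]
    nlinarith [mul_nonneg hC (by positivity : (0 : ℝ) ≤ T)]
  have t3 : Tendsto (fun T : ℝ => ∫ y : ℝ in (0 : ℝ)..T, F (T + s * y * I)) atTop (𝓝 0) := by
    refine squeeze_zero_norm' ?_ hlim
    filter_upwards [eventually_ge_atTop (1 : ℝ)] with T hT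
    have h1 : ∀ y ∈ Set.uIoc (0 : ℝ) T, ‖F (T + s * y * I)‖ ≤ C / T ^ 2 := by
      intro y hy
      rw [Set.uIoc_of_le (by linarith)] at hy
      refine (hb _ ⟨by simpa using hT, ?_⟩).trans ?_
      · simp only [add_im, ofReal_im, mul_im, mul_re, ofReal_re, I_im, I_re]
        ring_nf
        rw [show s ^ 2 = 1 by rw [pow_two, hss]]
        linarith [hy.1]
      · refine div_le_div_of_nonneg_left hC (by positivity) ?_
        rw [← Complex.normSq_eq_norm_sq, Complex.normSq_apply]
        simp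
        nlinarith [mul_self_nonneg (s * y)]
    refine (intervalIntegral.norm_integral_le_of_norm_le_const h1).trans ?_
    rw [sub_zero, abs_of_nonneg (by linarith), div_mul_eq_mul_div, div_le_div_iff₀ (by positivity)
      (by positivity)]
    nlinarith [mul_nonneg hC (by positivity : (0 : ℝ) ≤ T)]
  have t5 := ((t1.sub t2).add (t3.const_mul ((s : ℂ) * I))).sub (t4.const_mul ((s : ℂ) * I))
  have t6 : (fun T : ℝ => (∫ x : ℝ in (1 : ℝ)..T, F x) -
      (∫ x : ℝ in (1 : ℝ)..T, F (x + s * T * I)) +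
        (s * I) * (∫ y : ℝ in (0 : ℝ)..T, F (T + s * y * I)) -
        (s * I) * (∫ y : ℝ in (0 : ℝ)..T, F (1 + s * y * I))) =ᶠ[atTop] fun _ => 0 := by
    filter_upwards [eventually_ge_atTop (1 : ℝ)] with T hT
    exact hrect T hT
  have t7 := tendsto_nhds_unique (t5.congr' t6) tendsto_const_nhds
  rw [sub_zero, mul_zero, add_zero, sub_eq_zero] at t7
  exact t7.symm

end Pool.Agent.Helper56.TwoSheet
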