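import Pool.Agent.Helper56.TwoSheet.Gen

/-!
# The invariant subspace
-/

open MeasureTheory Complex
open scoped ENNReal Real NNReal

namespace Pool.Agent.Helper56.TwoSheet

variable {p : ℝ}

lemma pairNorm_add_le (hp : 1 ≤ p) {f g : Pair} (f1 : ContinuousOn f.1 (dsk 1))
    (f2 : ContinuousOn f.2 (dsk (-1))) (g1 : ContinuousOn g.1 (dsk 1))
    (g2 : ContinuousOn g.2 (dsk (-1))) :
    pairNorm p maps (f + g) ≤ pairNorm p maps f + pairNorm p maps g := by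
  unfold pairNorm
  calc _ ≤ (smirnovNorm p maps.a f.1 + smirnovNorm p maps.a g.1) +
        (smirnovNorm p maps.b f.2 + smirnovNorm p maps.b g.2) :=
        add_le_add (smirnovNorm_add_le (isRiemannMap_dmap 1) hp f1 g1)
          (smirnovNorm_add_le (isRiemannMap_dmap (-1)) hp f2 g2)
    _ = _ := by ring

lemma pairNorm_mul_le (hp : 1 ≤ p) {g : ℂ → ℂ} {M : ℝ≥0} (hg1 : ∀ z ∈ dsk 1, ‖g z‖ₑ ≤ M)
    (hg2 : ∀ z ∈ dsk (-1), ‖g z‖ₑ ≤ M) (f : Pair) :
    pairNorm p maps (fun z => g z * f.1 z, fun z => g z * f.2 z) ≤ M * pairNorm p maps f := by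
  unfold pairNorm
  rw [mul_add]
  exact add_le_add (smirnovNorm_mul_le (isRiemannMap_dmap 1) hp hg1)
    (smirnovNorm_mul_le (isRiemannMap_dmap (-1)) hp hg2)

/-- the constant for the bound of the Smirnov norm by the supremum norm -/
noncomputable def KK : ℝ≥0∞ := ENNReal.ofReal (4 * π)

lemma KK_ne_top : KK ≠ ∞ := ENNReal.ofReal_ne_top

lemma dmap_deriv (s : ℝ) {r : ℝ} :
    ∫⁻ θ in Set.Ioc (0 : ℝ) (2 * π), ‖deriv (dmap s) (circleMap 0 r θ)‖ₑ ≤ KK := by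
  unfold dmap
  rw [lintegral_deriv_discMap _ (by positivity), KK]
  refine ENNReal.ofReal_le_ofReal ?_
  have h2 : √2 ≤ 2 := by
    rw [Real.sqrt_le_left (by norm_num)]; norm_num
  nlinarith [Real.pi_pos]

lemma norm_le_bound {s : ℝ} (hp : 1 ≤ p) {f : ℂ → ℂ} {M : ℝ} (hf : ∀ z ∈ dsk s, ‖f z‖ ≤ M)
    (hM : 0 ≤ M) : smirnovNorm p (dmap s) f ≤ ENNReal.ofReal M * KK ^ (1 / p) := by
  exact smirnovNorm_le_of_bound (isRiemannMap_dmap s) hp (f := f) (M := M.toNNReal)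
    (fun z hz => by
      rw [← ofReal_norm]
      exact ENNReal.ofReal_le_ofReal (hf z hz)) (K := KK) (fun r _ => dmap_deriv s)

lemma norm_le_bound_lens (hp : 1 ≤ p) {f : ℂ → ℂ} {M : ℝ}
    (hf : ∀ z ∈ dsk 1 ∩ dsk (-1), ‖f z‖ ≤ M) (hM : 0 ≤ M) :
    smirnovNorm p lensMap f ≤ ENNReal.ofReal M * KK ^ (1 / p) := by
  exact smirnovNorm_le_of_bound isRiemannMap_lensMap hp (f := f) (M := M.toNNReal)
    (fun z hz => by
      rw [← ofReal_norm]
      exact ENNReal.ofReal_le_ofReal (hf z hz)) (K := KK) (fun r hr => lintegral_deriv_lensMap hr)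

lemma KK_pow_ne_top (hp : 1 ≤ p) : KK ^ (1 / p) ≠ ∞ :=
  ENNReal.rpow_ne_top_of_nonneg (by positivity) KK_ne_top

lemma smirnov_of_bounded {s : ℝ} (hp : 1 ≤ p) {f : ℂ → ℂ} {M : ℝ}
    (hd : DifferentiableOn ℂ f (dsk s)) (hf : ∀ z ∈ dsk s, ‖f z‖ ≤ M) (hM : 0 ≤ M) :
    IsSmirnov p (dmap s) (dsk s) ((dsk s).indicator f) := by
  refine ⟨hd.congr fun z hz => Set.indicator_of_mem hz f,
    fun z hz => Set.indicator_of_notMem hz f, ?_⟩
  refine (norm_le_bound hp (M := M) (fun z hz => ?_) hM).trans_lt ?_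
  · rw [Set.indicator_of_mem hz]; exact hf z hz
  · exact ENNReal.mul_lt_top ENNReal.ofReal_lt_top (KK_pow_ne_top hp).lt_top

lemma gen_smirnov (hp : 1 ≤ p) {f : Pair} (hf : f ∈ genSpace) : IsSmirnovPair p maps f := by
  obtain ⟨vA, vB, k, M, h, rfl⟩ := hf
  exact ⟨smirnov_of_bounded hp ((differentiableOn_sing (by norm_num)).mul h.dA)
    (sing_bound (Or.inl rfl) h.bA) h.nonneg,
    smirnov_of_bounded hp ((differentiableOn_sing (by norm_num)).mul h.dB)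
    (sing_bound (Or.inr rfl) h.bB) h.nonneg⟩

lemma IsSmirnov.add {φ : ℂ → ℂ} {V : Set ℂ} (hp : 1 ≤ p) (hφ : IsRiemannMap φ V) {f g : ℂ → ℂ}
    (hf : IsSmirnov p φ V f) (hg : IsSmirnov p φ V g) : IsSmirnov p φ V (f + g) :=
  ⟨hf.1.add hg.1, fun z hz => by rw [Pi.add_apply, hf.2.1 z hz, hg.2.1 z hz, add_zero],
    (smirnovNorm_add_le hφ hp hf.1.continuousOn hg.1.continuousOn).trans_lt
      (ENNReal.add_lt_top.2 ⟨hf.2.2, hg.2.2⟩)⟩

lemma IsSmirnov.mul {φ : ℂ → ℂ} {V : Set ℂ} (hp : 1 ≤ p) (hφ : IsRiemannMap φ V) {f g : ℂ → ℂ}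
    {M : ℝ≥0} (hg : DifferentiableOn ℂ g V) (hb : ∀ z ∈ V, ‖g z‖ₑ ≤ M)
    (hf : IsSmirnov p φ V f) : IsSmirnov p φ V (fun z => g z * f z) :=
  ⟨hg.mul hf.1, fun z hz => by simp only [hf.2.1 z hz, mul_zero],
    (smirnovNorm_mul_le hφ hp hb).trans_lt (ENNReal.mul_lt_top ENNReal.coe_lt_top hf.2.2)⟩

/-- closeness to the generating space -/
def Near (p : ℝ) (f : Pair) : Prop :=
  ∀ ε : ℝ≥0∞, 0 < ε → ∃ x ∈ genSpace, pairNorm p maps (f - x) < ε

lemma pairNorm_sub_tri (hp : 1 ≤ p) {f g h : Pair} (hf : IsSmirnovPair p maps f)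
    (hg : IsSmirnovPair p maps g) (hh : IsSmirnovPair p maps h) :
    pairNorm p maps (f - h) ≤ pairNorm p maps (f - g) + pairNorm p maps (g - h) := by
  have e : f - h = (f - g) + (g - h) := by abel
  rw [e]
  exact pairNorm_add_le hp (hf.1.1.continuousOn.sub hg.1.1.continuousOn)
    (hf.2.1.continuousOn.sub hg.2.1.continuousOn) (hg.1.1.continuousOn.sub hh.1.1.continuousOn)
    (hg.2.1.continuousOn.sub hh.2.1.continuousOn)

/-- multiplication by a bounded holomorphic function -/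
lemma near_mul (hp : 1 ≤ p) {g : ℂ → ℂ} (hg1 : DifferentiableOn ℂ g (dsk 1))
    (hg2 : DifferentiableOn ℂ g (dsk (-1))) {L : ℝ≥0} (hb1 : ∀ z ∈ dsk 1, ‖g z‖ₑ ≤ L)
    (hb2 : ∀ z ∈ dsk (-1), ‖g z‖ₑ ≤ L) {f : Pair} (hf : Near p f) :
    Near p (fun z => g z * f.1 z, fun z => g z * f.2 z) := by
  intro ε hε
  have hL : (L : ℝ≥0∞) + 1 ≠ 0 := by simp
  have hL' : (L : ℝ≥0∞) + 1 ≠ ∞ := by simp
  obtain ⟨x, hx, hxε⟩ := hf (ε / (L + 1)) (ENNReal.div_pos hε.ne' hL')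
  have hb1' : ∀ z ∈ dsk 1, ‖g z‖ ≤ L := fun z hz => by
    have := hb1 z hz
    rwa [enorm_le_coe] at this
  have hb2' : ∀ z ∈ dsk (-1), ‖g z‖ ≤ L := fun z hz => by
    have := hb2 z hz
    rwa [enorm_le_coe] at this
  refine ⟨_, mul_mem_gen hg1 hg2 hb1' hb2' hx, ?_⟩
  have e : ((fun z => g z * f.1 z, fun z => g z * f.2 z) : Pair) -
      (fun z => g z * x.1 z, fun z => g z * x.2 z) =
      (fun z => g z * (f - x).1 z, fun z => g z * (f - x).2 z) := by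
    ext z <;> simp [mul_sub]
  rw [e]
  calc _ ≤ (L : ℝ≥0∞) * pairNorm p maps (f - x) := pairNorm_mul_le hp hb1 hb2 _
    _ ≤ (L + 1) * pairNorm p maps (f - x) := mul_le_mul' (by simp) le_rfl
    _ < (L + 1) * (ε / (L + 1)) := (ENNReal.mul_lt_mul_iff_right hL hL').2 hxε
    _ = ε := ENNReal.mul_div_cancel hL hL'

/-- The invariant subspace: the closure of the generating space. -/
noncomputable def invSpace (p : ℝ) (hp : 1 ≤ p) : Submodule ℂ Pair where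
  carrier := {f | IsSmirnovPair p maps f ∧ Near p f}
  add_mem' := by
    rintro f g ⟨hf, hf'⟩ ⟨hg, hg'⟩
    refine ⟨⟨hf.1.add hp (isRiemannMap_dmap 1) hg.1, hf.2.add hp (isRiemannMap_dmap (-1)) hg.2⟩,
      fun ε hε => ?_⟩
    obtain ⟨x, hx, hxε⟩ := hf' (ε / 2) (ENNReal.half_pos hε.ne')
    obtain ⟨y, hy, hyε⟩ := hg' (ε / 2) (ENNReal.half_pos hε.ne')
    refine ⟨x + y, genSpace.add_mem hx hy, ?_⟩
    have e : f + g - (x + y) = (f - x) + (g - y) := by abel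
    have hx' := gen_smirnov hp hx
    have hy' := gen_smirnov hp hy
    rw [e]
    calc _ ≤ pairNorm p maps (f - x) + pairNorm p maps (g - y) :=
          pairNorm_add_le hp (hf.1.1.continuousOn.sub hx'.1.1.continuousOn)
            (hf.2.1.continuousOn.sub hx'.2.1.continuousOn)
            (hg.1.1.continuousOn.sub hy'.1.1.continuousOn)
            (hg.2.1.continuousOn.sub hy'.2.1.continuousOn)
      _ < ε / 2 + ε / 2 := ENNReal.add_lt_add hxε hyε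
      _ = ε := ENNReal.add_halves ε
  zero_mem' := by
    have h0 : (0 : Pair) ∈ genSpace := genSpace.zero_mem
    refine ⟨gen_smirnov hp h0, fun ε hε => ⟨0, h0, ?_⟩⟩
    rw [sub_zero, pairNorm]
    show smirnovNorm p _ 0 + smirnovNorm p _ 0 < ε
    rw [smirnovNorm_zero hp, smirnovNorm_zero hp, add_zero]
    exact hε
  smul_mem' := by
    rintro c f ⟨hf, hf'⟩
    have hb : ∀ (s : ℝ), ∀ z ∈ dsk s, ‖(fun _ : ℂ => c) z‖ₑ ≤ (‖c‖₊ : ℝ≥0∞) := fun s z _ => le_rfl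
    refine ⟨⟨hf.1.mul hp (isRiemannMap_dmap 1) (differentiableOn_const c) (hb 1),
      hf.2.mul hp (isRiemannMap_dmap (-1)) (differentiableOn_const c) (hb (-1))⟩, ?_⟩
    exact near_mul hp (differentiableOn_const c) (differentiableOn_const c) (hb 1) (hb (-1)) hf'

lemma gen_le_inv (hp : 1 ≤ p) {f : Pair} (hf : f ∈ genSpace) : f ∈ invSpace p hp := by
  refine ⟨gen_smirnov hp hf, fun ε hε => ⟨f, hf, ?_⟩⟩
  rw [sub_self, pairNorm]
  show smirnovNorm p _ 0 + smirnovNorm p _ 0 < ε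
  rw [smirnovNorm_zero hp, smirnovNorm_zero hp, add_zero]
  exact hε

lemma enorm_sub_le {s : ℝ} (hs : s = 1 ∨ s = -1) (lam : ℂ) {z : ℂ} (hz : z ∈ dsk s) :
    ‖z - lam‖ₑ ≤ ((3 + ‖lam‖₊ : ℝ≥0) : ℝ≥0∞) := by
  rw [enorm_le_coe]
  exact (norm_sub_le _ _).trans (add_le_add (norm_le_of_mem hs hz) le_rfl)

theorem isInvariant_invSpace (hp : 1 ≤ p) : IsInvariantSubspace p maps (invSpace p hp) where
  smirnov f hf := hf.1
  closed f hf h := by
    refine ⟨hf, fun ε hε => ?_⟩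
    obtain ⟨g, hg, hgε⟩ := h (ε / 2) (ENNReal.half_pos hε.ne')
    obtain ⟨x, hx, hxε⟩ := hg.2 (ε / 2) (ENNReal.half_pos hε.ne')
    refine ⟨x, hx, ?_⟩
    calc _ ≤ pairNorm p maps (f - g) + pairNorm p maps (g - x) :=
          pairNorm_sub_tri hp hf hg.1 (gen_smirnov hp hx)
      _ < ε / 2 + ε / 2 := ENNReal.add_lt_add hgε hxε
      _ = ε := ENNReal.add_halves ε
  invariant f hf := by
    have o1 : (1 : ℝ) = 1 ∨ (1 : ℝ) = -1 := Or.inl rfl
    have o2 : (-1 : ℝ) = 1 ∨ (-1 : ℝ) = -1 := Or.inr rfl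
    refine ⟨⟨?_, ?_⟩, ?_⟩
    · exact hf.1.1.mul (g := fun z => z - 0) hp (isRiemannMap_dmap 1) (by fun_prop)
        (fun z hz => enorm_sub_le o1 0 hz)
    · exact hf.1.2.mul (g := fun z => z - 0) hp (isRiemannMap_dmap (-1)) (by fun_prop)
        (fun z hz => enorm_sub_le o2 0 hz)
    · exact near_mul (g := fun z => z - 0) hp (by fun_prop) (by fun_prop)
        (fun z hz => enorm_sub_le o1 0 hz) (fun z hz => enorm_sub_le o2 0 hz) hf.2

end Pool.Agent.Helper56.TwoSheet
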