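import Pool.Agent.Helper56.TwoSheet.Geom
import Pool.Agent.Helper56.TwoSheet.Rot
import Pool.Agent.Helper56.TwoSheet.Fad

/-!
# Square roots on the quadrants
-/

open Complex
open scoped Real

namespace Pool.Agent.Helper56.TwoSheet

lemma sq_re_pos {t : ℂ} (ht : t ∈ slitPlane) : 0 < (sq t).re := by
  have h0 : t ≠ 0 := Complex.slitPlane_ne_zero ht
  rw [sq, Complex.cpow_def_of_ne_zero h0, Complex.exp_re]
  refine mul_pos (Real.exp_pos _) ?_
  have h1 : (log t * (2 : ℂ)⁻¹).im = t.arg / 2 := by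
    rw [← one_div, show (1 / 2 : ℂ) = ((1 / 2 : ℝ) : ℂ) by push_cast; ring, Complex.im_mul_ofReal,
      Complex.log_im]
    ring
  rw [h1]
  have h2 := Complex.arg_le_pi t
  have h3 := Complex.neg_pi_lt_arg t
  have h4 : t.arg ≠ π := Complex.slitPlane_arg_ne_pi ht
  have h5 : t.arg < π := lt_of_le_of_ne h2 h4
  exact Real.cos_pos_of_mem_Ioo ⟨by linarith, by linarith⟩

lemma sq_unique {u t : ℂ} (h : u ^ 2 = t) (hu : 0 < u.re) (ht : t ∈ slitPlane) : sq t = u := by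
  have h1 : sq t ^ 2 = u ^ 2 := by rw [sq_pow, h]
  rcases sq_eq_sq_iff_eq_or_eq_neg.1 h1 with h2 | h2
  · exact h2
  · have h3 := sq_re_pos ht
    rw [h2, Complex.neg_re] at h3
    linarith

lemma mem_slit_of_quad {s : ℝ} {t : ℂ} (ht : t ∈ quad s) : t ∈ slitPlane := by
  rw [Complex.mem_slitPlane_iff]; left; linarith [ht.1]

/-- Facts about `u = √t` for `t` in a quadrant. -/
lemma sq_facts {s : ℝ} (hs : s = 1 ∨ s = -1) {t : ℂ} (ht : t ∈ quad s) :
    1 ≤ (sq t).re ∧ 0 ≤ s * (sq t).im ∧ s * (sq t).im < (sq t).re ∧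
      (sq t).re ^ 2 - (sq t).im ^ 2 = t.re ∧ 2 * (sq t).re * (sq t).im = t.im := by
  have hss : s * s = 1 := by rcases hs with rfl | rfl <;> norm_num
  have h0 := sq_re_pos (mem_slit_of_quad ht)
  have hp := sq_pow t
  set u := sq t with hu
  have hre : u.re ^ 2 - u.im ^ 2 = t.re := by
    have := congrArg Complex.re hp
    simp only [pow_two, Complex.mul_re] at this
    nlinarith
  have him : 2 * u.re * u.im = t.im := by
    have := congrArg Complex.im hp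
    simp only [pow_two, Complex.mul_im] at this
    linarith
  have h1 : 0 ≤ s * u.im := by
    have h2 : 0 ≤ s * t.im := ht.2
    rw [← him] at h2
    by_contra hcon
    rw [not_le] at hcon
    nlinarith
  have h2 := ht.1
  have h3 : (s * u.im) ^ 2 = u.im ^ 2 := by rw [mul_pow, pow_two s, hss, one_mul]
  refine ⟨?_, h1, ?_, hre, him⟩
  · nlinarith [sq_nonneg u.im]
  · nlinarith

lemma abs_im_lt {s : ℝ} (hs : s = 1 ∨ s = -1) {t : ℂ} (ht : t ∈ quad s) :
    |(sq t).im| < (sq t).re := by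
  obtain ⟨h1, h2, h3, h4, h5⟩ := sq_facts hs ht
  have h6 := ht.1
  refine abs_lt_of_sq_lt_sq ?_ (by linarith)
  linarith

/-- On the quadrant `quad s`, `ζ = √t` satisfies `Re ζ - r Im ζ > 0`. -/
lemma sq_pos {s r : ℝ} (hs : s = 1 ∨ s = -1) (hr : r = 1 ∨ r = -1) {t : ℂ} (ht : t ∈ quad s) :
    0 < (sq t).re - r * (sq t).im := by
  have h := abs_lt.1 (abs_im_lt hs ht)
  rcases hr with rfl | rfl <;> linarith [h.1, h.2]

lemma sq_pos' {s r : ℝ} (hs : s = 1 ∨ s = -1) (hr : r = 1 ∨ r = -1) {t : ℂ} (ht : t ∈ quad s) :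
    1 / (2 * (sq t).re) ≤ (sq t).re - r * (sq t).im := by
  obtain ⟨h1, h2, h3, h4, h5⟩ := sq_facts hs ht
  have h := abs_lt.1 (abs_im_lt hs ht)
  have h6 := ht.1
  set a := (sq t).re
  set b := (sq t).im
  rw [div_le_iff₀ (by linarith)]
  rcases hr with rfl | rfl
  · nlinarith [h.1, h.2]
  · nlinarith [h.1, h.2]

lemma norm_sq_le {s : ℝ} (hs : s = 1 ∨ s = -1) {t : ℂ} (ht : t ∈ quad s) :
    ‖sq t‖ ≤ 2 * (sq t).re := by
  have h := abs_im_lt hs ht
  have h0 := (sq_facts hs ht).1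
  have := Complex.norm_le_abs_re_add_abs_im (sq t)
  rw [abs_of_nonneg (by linarith : (0 : ℝ) ≤ (sq t).re)] at this
  linarith

lemma abs_arg_lt {u : ℂ} (hu : 0 < u.re) (hu2 : |u.im| < u.re) : |u.arg| < π / 3 := by
  have hpi := Real.pi_pos
  have h0 : u ≠ 0 := by rintro rfl; simp at hu
  have hn : 0 < ‖u‖ := norm_pos_iff.2 h0
  have h1 : |u.arg| < π / 2 := Complex.abs_arg_lt_pi_div_two_iff.2 (Or.inl hu)
  by_contra hcon
  rw [not_lt] at hcon
  have h2 : Real.cos (2 * |u.arg|) < 0 := by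
    refine Real.cos_neg_of_pi_div_two_lt_of_lt (by linarith) (by linarith)
  have h3 : Real.cos (2 * |u.arg|) = Real.cos (2 * u.arg) := by
    rcases abs_choice u.arg with h | h <;> rw [h]
    rw [mul_neg, Real.cos_neg]
  rw [h3, Real.cos_two_mul] at h2
  have h4 : ‖u‖ * Real.cos u.arg = u.re := Complex.norm_mul_cos_arg u
  have h5 : ‖u‖ ^ 2 = u.re ^ 2 + u.im ^ 2 := by
    rw [← Complex.normSq_eq_norm_sq, Complex.normSq_apply]; ring
  have h6 : u.im ^ 2 < u.re ^ 2 := by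
    rw [← sq_abs u.im]
    exact pow_lt_pow_left₀ hu2 (abs_nonneg _) two_ne_zero
  have h7 : ‖u‖ ^ 2 * (2 * Real.cos u.arg ^ 2 - 1) < 0 :=
    mul_neg_of_pos_of_neg (by positivity) h2
  have h8 : ‖u‖ ^ 2 * (2 * Real.cos u.arg ^ 2 - 1) = 2 * (‖u‖ * Real.cos u.arg) ^ 2 - ‖u‖ ^ 2 := by
    ring
  rw [h8, h4, h5] at h7
  linarith

lemma cbr_cube {u : ℂ} (hu : 0 < u.re) (hu2 : |u.im| < u.re) : cbr (u ^ 3) = u := by
  have h := abs_lt.1 (abs_arg_lt hu hu2)
  rw [cbr]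
  exact Complex.pow_cpow_ofNat_inv (n := 3) h.1 h.2.le

lemma cbr_sq_cube {s : ℝ} (hs : s = 1 ∨ s = -1) {t : ℂ} (ht : t ∈ quad s) :
    cbr (sq t ^ 3) = sq t :=
  cbr_cube (by linarith [(sq_facts hs ht).1]) (abs_im_lt hs ht)

/-- On `quad s`, `ζ = τ^{3/2}` satisfies `Re ζ + s Im ζ ≥ 1`. -/
lemma cube_pos {s : ℝ} (hs : s = 1 ∨ s = -1) {t : ℂ} (ht : t ∈ quad s) :
    1 ≤ (sq t ^ 3).re - (-s) * (sq t ^ 3).im := by
  have hss : s * s = 1 := by rcases hs with rfl | rfl <;> norm_num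
  obtain ⟨h1, h2, h3, h4, h5⟩ := sq_facts hs ht
  have h6 := ht.1
  have h7 : 0 ≤ s * t.im := ht.2
  have h8 : sq t ^ 3 = t * sq t := by
    rw [pow_succ, sq_pow]
  rw [h8, Complex.mul_re, Complex.mul_im]
  set a := (sq t).re
  set b := (sq t).im
  have h9 : t.re * a - t.im * b - -s * (t.re * b + t.im * a) =
      t.re * (a + s * b) + (s * t.im) * (a - s * b) := by
    linear_combination (t.im * b) * hss
  rw [h9]
  nlinarith [mul_nonneg h7 (by linarith : (0 : ℝ) ≤ a - s * b)]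

lemma norm_sq_sq (t : ℂ) : ‖sq t‖ ^ 2 = ‖t‖ := by rw [← norm_pow, sq_pow]

lemma one_le_norm_of_quad {s : ℝ} {t : ℂ} (ht : t ∈ quad s) : 1 ≤ ‖t‖ :=
  ht.1.trans (Complex.re_le_norm t)

lemma differentiableAt_sq {t : ℂ} (ht : t ∈ slitPlane) : DifferentiableAt ℂ sq t :=
  differentiableAt_id.cpow_const ht

lemma differentiableAt_cbr {t : ℂ} (ht : t ∈ slitPlane) : DifferentiableAt ℂ cbr t :=
  differentiableAt_id.cpow_const ht

lemma sOr {s : ℝ} (hs : s = 1 ∨ s = -1) : -s = 1 ∨ -s = -1 := by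
  rcases hs with rfl | rfl
  · exact Or.inr rfl
  · exact Or.inl (by norm_num)

lemma sMul {s : ℝ} (hs : s = 1 ∨ s = -1) : s * s = 1 := by
  rcases hs with rfl | rfl <;> norm_num

/-- Composition with `ζ = τ^{3/2}`. -/
lemma differentiableOn_comp_cube {s : ℝ} (hs : s = 1 ∨ s = -1) {g : ℂ → ℂ}
    (hg : DifferentiableOn ℂ g (dsk (-s))) :
    DifferentiableOn ℂ (fun t => g (zof (sq t ^ 3))) (quad s) := by
  intro t ht
  have h1 := cube_pos hs ht
  have h2 : 0 < (sq t ^ 3).re - (-s) * (sq t ^ 3).im := by linarith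
  have h3 : zof (sq t ^ 3) ∈ dsk (-s) := zof_mem (sMul (sOr hs)) h2
  have h4 : DifferentiableAt ℂ g (zof (sq t ^ 3)) :=
    hg.differentiableAt (Metric.isOpen_ball.mem_nhds h3)
  have h5 : DifferentiableAt ℂ zof (sq t ^ 3) :=
    (hasDerivAt_zof (add_one_ne_zero' h2)).differentiableAt
  have h6 : DifferentiableAt ℂ (fun t => sq t ^ 3) t :=
    (differentiableAt_sq (mem_slit_of_quad ht)).pow 3
  exact ((h4.comp _ h5).comp t h6).differentiableWithinAt

/-- Composition with `ζ = √t`. -/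
lemma differentiableOn_comp_sq {s r : ℝ} (hs : s = 1 ∨ s = -1) (hr : r = 1 ∨ r = -1) {g : ℂ → ℂ}
    (hg : DifferentiableOn ℂ g (dsk r)) :
    DifferentiableOn ℂ (fun t => g (zof (sq t))) (quad s) := by
  intro t ht
  have h2 := sq_pos hs hr ht
  have h3 : zof (sq t) ∈ dsk r := zof_mem (sMul hr) h2
  have h4 : DifferentiableAt ℂ g (zof (sq t)) :=
    hg.differentiableAt (Metric.isOpen_ball.mem_nhds h3)
  have h5 : DifferentiableAt ℂ zof (sq t) :=
    (hasDerivAt_zof (add_one_ne_zero' h2)).differentiableAt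
  have h6 : DifferentiableAt ℂ sq t := differentiableAt_sq (mem_slit_of_quad ht)
  exact ((h4.comp _ h5).comp t h6).differentiableWithinAt

lemma line_mem {s : ℝ} (hs : s = 1 ∨ s = -1) {y : ℝ} (hy : 0 ≤ y) :
    (1 + s * y * I : ℂ) ∈ quad s :=
  ⟨by simp, by simp [← mul_assoc, sMul hs, hy]⟩

lemma real_mem {s x : ℝ} (hx : 1 ≤ x) : (x : ℂ) ∈ quad s := ⟨by simpa using hx, by simp⟩

end Pool.Agent.Helper56.TwoSheet
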