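import Pool.Agent.Helper56.TwoSheet.Sq

/-!
# The weights and their bounds
-/

open MeasureTheory Complex
open scoped ENNReal Real NNReal

namespace Pool.Agent.Helper56.TwoSheet

/-- the rational weight -/
noncomputable def nn (ζ : ℂ) : ℂ := (1 / 2) * (1 + ζ) / (1 + cbr ζ ^ 2) ^ 8

/-- the exponential weight -/
noncomputable def mm (ζ : ℂ) : ℂ := cexp (cbr ζ ^ 2) * nn ζ

/-- the transition weight -/
noncomputable def ww (s : ℝ) (ζ : ℂ) : ℂ :=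
  (1 / 2) * cexp ((ζ - 1 / 2) ^ 2) * fad (s * (ζ - 1 / 2))

lemma ww_add (ζ : ℂ) : ww 1 ζ + ww (-1) ζ = 1 := by
  unfold ww
  have h := fad_add_fad_neg (ζ - 1 / 2)
  have h2 : ((1 : ℝ) : ℂ) * (ζ - 1 / 2) = ζ - 1 / 2 := by push_cast; ring
  have h3 : ((-1 : ℝ) : ℂ) * (ζ - 1 / 2) = -(ζ - 1 / 2) := by push_cast; ring
  rw [h2, h3, ← mul_add, h, Complex.exp_neg]
  field_simp

/-- the integral over the half-line `1 + s y i` -/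
noncomputable def lin (s : ℝ) (F : ℂ → ℂ) : ℂ :=
  (s * I) * ∫ y in Set.Ioi (0 : ℝ), F (1 + s * y * I)

lemma lin_bound {s : ℝ} (hs : s = 1 ∨ s = -1) {F : ℂ → ℂ} (hc : ContinuousOn F (quad s)) {C : ℝ}
    (hb : ∀ y : ℝ, 0 ≤ y → ‖F (1 + s * y * I)‖ ≤ C * (1 + y ^ 2)⁻¹) :
    IntegrableOn (fun y : ℝ => F (1 + s * y * I)) (Set.Ioi 0) ∧ ‖lin s F‖ ≤ C * (π / 2) := by
  have hC : 0 ≤ C := by
    have := (norm_nonneg _).trans (hb 0 le_rfl)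
    simpa using this
  have hg : IntegrableOn (fun y : ℝ => C * (1 + y ^ 2)⁻¹) (Set.Ioi 0) :=
    (integrable_inv_one_add_sq.const_mul C).integrableOn
  have hae : ∀ᵐ (y : ℝ) ∂(volume.restrict (Set.Ioi (0 : ℝ))),
      ‖F (1 + s * y * I)‖ ≤ C * (1 + y ^ 2)⁻¹ :=
    (ae_restrict_iff' measurableSet_Ioi).2 (Filter.Eventually.of_forall fun y hy => hb y (le_of_lt hy))
  refine ⟨Integrable.mono' hg ?_ hae, ?_⟩
  · refine ContinuousOn.aestronglyMeasurable ?_ measurableSet_Ioi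
    exact hc.comp (by fun_prop) fun x hx => line_mem hs (le_of_lt hx)
  · have h1 : ‖(s * I : ℂ)‖ = 1 := by
      rw [norm_mul, Complex.norm_I, Complex.norm_real]
      rcases hs with rfl | rfl <;> simp
    rw [lin, norm_mul, h1, one_mul]
    refine (norm_integral_le_of_norm_le hg hae).trans ?_
    rw [integral_const_mul, integral_Ioi_inv_one_add_sq, Real.arctan_zero, sub_zero]

lemma lin_add {s : ℝ} {F G : ℂ → ℂ}
    (hF : IntegrableOn (fun y : ℝ => F (1 + s * y * I)) (Set.Ioi 0))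
    (hG : IntegrableOn (fun y : ℝ => G (1 + s * y * I)) (Set.Ioi 0)) :
    lin s (fun t => F t - G t) = lin s F - lin s G := by
  unfold lin
  rw [integral_sub hF hG, mul_sub]

lemma norm_one_add_cbr {ζ : ℂ} {r : ℝ} (hr : r = 1 ∨ r = -1) (h : 0 < ζ.re - r * ζ.im) :
    1 ≤ ‖1 + cbr ζ ^ 2‖ ∧ ‖cbr ζ‖ ^ 2 ≤ ‖1 + cbr ζ ^ 2‖ := by
  have h1 := re_cbr_sq_nonneg hr h
  constructor
  · calc (1 : ℝ) ≤ (1 + cbr ζ ^ 2).re := by simp [h1]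
      _ ≤ _ := Complex.re_le_norm _
  · rw [← norm_pow]
    have h2 : ‖cbr ζ ^ 2‖ ^ 2 ≤ ‖1 + cbr ζ ^ 2‖ ^ 2 := by
      rw [← Complex.normSq_eq_norm_sq, ← Complex.normSq_eq_norm_sq, Complex.normSq_apply,
        Complex.normSq_apply, Complex.add_re, Complex.add_im, Complex.one_re, Complex.one_im]
      nlinarith
    exact (sq_le_sq₀ (norm_nonneg _) (norm_nonneg _)).1 h2

lemma norm_nn_le {ζ : ℂ} {r : ℝ} (hr : r = 1 ∨ r = -1) (h : 0 < ζ.re - r * ζ.im) :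
    ‖nn ζ‖ ≤ (1 / 2) * ‖1 + ζ‖ := by
  have h1 := (norm_one_add_cbr hr h).1
  rw [nn, norm_div, norm_mul, norm_pow]
  have h2 : (1 : ℝ) ≤ ‖1 + cbr ζ ^ 2‖ ^ 8 := one_le_pow₀ h1
  have h3 : ‖(1 / 2 : ℂ)‖ = 1 / 2 := by norm_num
  rw [h3]
  exact div_le_self (by positivity) h2

lemma norm_nn_le' {ζ : ℂ} {r : ℝ} (hr : r = 1 ∨ r = -1) (h : 0 < ζ.re - r * ζ.im)
    (h0 : 1 ≤ ‖cbr ζ‖) :
    ‖nn ζ‖ ≤ (1 / 2) * ‖1 + ζ‖ / ‖cbr ζ‖ ^ 16 := by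
  have h1 := (norm_one_add_cbr hr h).2
  rw [nn, norm_div, norm_mul, norm_pow]
  have h3 : ‖(1 / 2 : ℂ)‖ = 1 / 2 := by norm_num
  rw [h3]
  have h4 : ‖cbr ζ‖ ^ 16 ≤ ‖1 + cbr ζ ^ 2‖ ^ 8 := by
    calc ‖cbr ζ‖ ^ 16 = (‖cbr ζ‖ ^ 2) ^ 8 := by ring
      _ ≤ _ := by gcongr
  have h5 : (0 : ℝ) < ‖cbr ζ‖ ^ 16 := by positivity
  gcongr

lemma pow_ineq {x : ℝ} (hx : 1 ≤ x) {m n : ℕ} (h : m ≤ n) : x ^ m ≤ x ^ n :=
  pow_le_pow_right₀ hx h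

lemma one_le_norm_sq {s : ℝ} {t : ℂ} (ht : t ∈ quad s) : 1 ≤ ‖sq t‖ := by
  have h1 := one_le_norm_of_quad ht
  rw [← norm_sq_sq] at h1
  nlinarith [norm_nonneg (sq t)]

/-- bound of the weight in the `τ`-plane -/
lemma nn_cube_bound {s : ℝ} (hs : s = 1 ∨ s = -1) {t : ℂ} (ht : t ∈ quad s) :
    ‖sq t ^ 3 + 1‖ ^ 2 * ‖nn (sq t ^ 3)‖ ≤ 4 / ‖t‖ ^ 2 ∧ ‖nn (sq t ^ 3)‖ ≤ 1 / ‖t‖ ^ 2 := by
  have hx := one_le_norm_sq ht
  have hc := cbr_sq_cube hs ht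
  have h1 := cube_pos hs ht
  have h2 : 0 < (sq t ^ 3).re - (-s) * (sq t ^ 3).im := by linarith
  have h3 := norm_nn_le' (sOr hs) h2 (by rw [hc]; exact hx)
  rw [hc] at h3
  set x := ‖sq t‖ with hxdef
  have h4 : ‖1 + sq t ^ 3‖ ≤ 2 * x ^ 3 := by
    calc ‖1 + sq t ^ 3‖ ≤ ‖(1 : ℂ)‖ + ‖sq t ^ 3‖ := norm_add_le _ _
      _ = 1 + x ^ 3 := by rw [norm_one, norm_pow]
      _ ≤ 2 * x ^ 3 := by linarith [one_le_pow₀ hx (n := 3)]
  have h5 : ‖t‖ ^ 2 = x ^ 4 := by rw [← norm_sq_sq t]; ring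
  have hx0 : 0 < x := by linarith
  have h6 : ‖nn (sq t ^ 3)‖ ≤ x ^ 3 / x ^ 16 := by
    refine h3.trans ?_
    gcongr
    linarith
  rw [h5]
  constructor
  · calc ‖sq t ^ 3 + 1‖ ^ 2 * ‖nn (sq t ^ 3)‖ ≤ (2 * x ^ 3) ^ 2 * (x ^ 3 / x ^ 16) := by
          rw [add_comm (sq t ^ 3)]
          gcongr
      _ ≤ 4 / x ^ 4 := by
          rw [← mul_div_assoc, div_le_div_iff₀ (by positivity) (by positivity)]
          have := pow_ineq hx (show 13 ≤ 16 by norm_num)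
          calc (2 * x ^ 3) ^ 2 * x ^ 3 * x ^ 4 = 4 * x ^ 13 := by ring
            _ ≤ 4 * x ^ 16 := by linarith
  · refine h6.trans ?_
    rw [div_le_div_iff₀ (by positivity) (by positivity)]
    have := pow_ineq hx (show 7 ≤ 16 by norm_num)
    calc x ^ 3 * x ^ 4 = x ^ 7 := by ring
      _ ≤ 1 * x ^ 16 := by linarith

/-- bound of the exponential weight on the line in the `τ`-plane -/
lemma mm_cube_bound {s : ℝ} (hs : s = 1 ∨ s = -1) {y : ℝ} (hy : 0 ≤ y) {N : ℝ} (hN : 0 ≤ N)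
    {g : ℂ → ℂ} (hg : ∀ ζ : ℂ, 0 < ζ.re - (-s) * ζ.im →
      ‖g (zof ζ)‖ ≤ N * (‖ζ + 1‖ ^ 2 / (ζ.re - (-s) * ζ.im))) :
    ‖g (zof (sq (1 + s * y * I) ^ 3)) * mm (sq (1 + s * y * I) ^ 3)‖ ≤
      (12 * N) * (1 + y ^ 2)⁻¹ := by
  have ht := line_mem hs hy
  set t : ℂ := 1 + s * y * I with htdef
  have h1 := cube_pos hs ht
  have h2 : 0 < (sq t ^ 3).re - (-s) * (sq t ^ 3).im := by linarith
  have h3 := hg _ h2
  have h4 := (nn_cube_bound hs ht).1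
  have h5 : ‖t‖ ^ 2 = 1 + y ^ 2 := norm_sq_line s y hs
  have h6 : ‖cexp (cbr (sq t ^ 3) ^ 2)‖ ≤ 3 := by
    rw [cbr_sq_cube hs ht, sq_pow, Complex.norm_exp]
    have : t.re = 1 := by simp [htdef]
    rw [this]
    linarith [Real.exp_one_lt_d9]
  rw [mm, norm_mul, norm_mul]
  set a := (sq t ^ 3).re - (-s) * (sq t ^ 3).im
  have h7 : ‖g (zof (sq t ^ 3))‖ ≤ N * ‖sq t ^ 3 + 1‖ ^ 2 := by
    refine h3.trans ?_
    gcongr
    exact div_le_self (by positivity) h1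
  calc ‖g (zof (sq t ^ 3))‖ * (‖cexp (cbr (sq t ^ 3) ^ 2)‖ * ‖nn (sq t ^ 3)‖)
      ≤ (N * ‖sq t ^ 3 + 1‖ ^ 2) * (3 * ‖nn (sq t ^ 3)‖) := by gcongr
    _ = 3 * N * (‖sq t ^ 3 + 1‖ ^ 2 * ‖nn (sq t ^ 3)‖) := by ring
    _ ≤ 3 * N * (4 / ‖t‖ ^ 2) := by gcongr
    _ = _ := by rw [h5]; ring

lemma norm_ww_le {s : ℝ} (hs : s = 1 ∨ s = -1) {t : ℂ} (ht : t ∈ quad s) :
    ‖ww s (sq t)‖ ≤ (1 / 2) * Real.exp (t.re - (sq t).re + 1 / 4) := by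
  have h1 := (sq_facts hs ht).2.1
  have h2 : ‖fad (s * (sq t - 1 / 2))‖ ≤ 1 := by
    refine norm_fad_le_one ?_
    have : ((s : ℂ) * (sq t - 1 / 2)).im = s * (sq t).im := by
      rw [Complex.im_ofReal_mul]; simp
    rw [this]; exact h1
  have h3 : ((sq t - 1 / 2) ^ 2).re = t.re - (sq t).re + 1 / 4 := by
    have h4 : (sq t - 1 / 2) ^ 2 = t - sq t + 1 / 4 := by
      linear_combination sq_pow t
    rw [h4]; simp
  rw [ww, norm_mul, norm_mul, Complex.norm_exp, h3]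
  have h5 : ‖(1 / 2 : ℂ)‖ = 1 / 2 := by norm_num
  rw [h5]
  exact mul_le_of_le_one_right (by positivity) h2

/-- constant -/
noncomputable def cst : ℝ := 216 * Real.exp (17 / 4) * (2 ^ 8 * (Nat.factorial 8 : ℝ))

lemma cst_pos : 0 < cst := by unfold cst; positivity

/-- bound of the weights on the line in the `t`-plane -/
lemma mm_sq_bound {s r : ℝ} (hs : s = 1 ∨ s = -1) (hr : r = 1 ∨ r = -1) {y : ℝ} (hy : 0 ≤ y)
    {N : ℝ} (hN : 0 ≤ N)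
    {g : ℂ → ℂ} (hg : ∀ ζ : ℂ, 0 < ζ.re - r * ζ.im →
      ‖g (zof ζ)‖ ≤ N * (‖ζ + 1‖ ^ 2 / (ζ.re - r * ζ.im))) :
    ‖g (zof (sq (1 + s * y * I))) * (mm (sq (1 + s * y * I)) /
      (3 * cbr (sq (1 + s * y * I)) ^ 4) * ww s (sq (1 + s * y * I)))‖ ≤
      (cst * N) * (1 + y ^ 2)⁻¹ := by
  have ht := line_mem hs hy
  set t : ℂ := 1 + s * y * I with htdef
  have htre : t.re = 1 := by simp [htdef]
  set ζ := sq t with hζ
  obtain ⟨ha1, -, -, -, -⟩ := sq_facts hs ht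
  have hpos : 0 < ζ.re - r * ζ.im := sq_pos hs hr ht
  have hpos' : 1 / (2 * ζ.re) ≤ ζ.re - r * ζ.im := sq_pos' hs hr ht
  have hn2 : ‖ζ‖ ≤ 2 * ζ.re := norm_sq_le hs ht
  have hn1 : 1 ≤ ‖ζ‖ := one_le_norm_sq ht
  set a := ζ.re with ha
  set x := ‖cbr ζ‖ with hx
  have hx3 : x ^ 3 = ‖ζ‖ := norm_cbr ζ
  have hx0 : 0 ≤ x := norm_nonneg _
  have hx1 : 1 ≤ x := by
    by_contra hcon
    rw [not_le] at hcon
    have : x ^ 3 < 1 := pow_lt_one₀ hx0 hcon (by norm_num)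
    linarith
  have e1 : ‖g (zof ζ)‖ ≤ N * ((3 * a) ^ 2 * (2 * a)) := by
    refine (hg ζ hpos).trans ?_
    refine mul_le_mul_of_nonneg_left ?_ hN
    rw [div_eq_mul_inv]
    refine mul_le_mul ?_ ?_ (by positivity) (by positivity)
    · refine pow_le_pow_left₀ (norm_nonneg _) ?_ 2
      calc ‖ζ + 1‖ ≤ ‖ζ‖ + ‖(1 : ℂ)‖ := norm_add_le _ _
        _ ≤ 2 * a + 1 := by rw [norm_one]; linarith
        _ ≤ 3 * a := by linarith
    · have := inv_anti₀ (by positivity) hpos'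
      simpa using this
  have e2 : ‖cexp (cbr ζ ^ 2)‖ ≤ Real.exp (x ^ 2) := by
    rw [Complex.norm_exp]
    refine Real.exp_le_exp.2 ((Complex.re_le_norm _).trans ?_)
    rw [norm_pow]
  have e3 : ‖nn ζ‖ ≤ (3 / 2) * a := by
    refine (norm_nn_le hr hpos).trans ?_
    have : ‖1 + ζ‖ ≤ 1 + ‖ζ‖ := by
      have := norm_add_le (1 : ℂ) ζ
      rwa [norm_one] at this
    linarith
  have e4 : ‖3 * cbr ζ ^ 4‖⁻¹ ≤ 1 := by
    refine inv_le_one_of_one_le₀ ?_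
    rw [norm_mul, norm_pow]
    have h5 : ‖(3 : ℂ)‖ = 3 := by norm_num
    rw [h5]
    have := one_le_pow₀ hx1 (n := 4)
    linarith
  have e5 : ‖ww s ζ‖ ≤ (1 / 2) * Real.exp (5 / 4 - a) := by
    refine (norm_ww_le hs ht).trans ?_
    rw [htre]
    refine mul_le_mul_of_nonneg_left (Real.exp_le_exp.2 ?_) (by norm_num)
    linarith
  have hx2 : x ^ 2 ≤ a / 2 + 3 := by
    have h6 : x ^ 2 ≤ x ^ 3 / 4 + 3 := by
      nlinarith [sq_nonneg (x - 8 / 3), mul_nonneg hx0 (sq_nonneg (x - 8 / 3))]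
    linarith
  have e6 : ‖ζ‖ ^ 4 = 1 + y ^ 2 := by
    have h7 : ‖t‖ ^ 2 = 1 + y ^ 2 := norm_sq_line s y hs
    rw [← h7, ← norm_sq_sq t]; ring
  have e7 : a ^ 8 ≤ (2 ^ 8 * (Nat.factorial 8 : ℝ)) * Real.exp (a / 2) := by
    have h8 := Real.pow_div_factorial_le_exp (a / 2) (by linarith) 8
    rw [div_le_iff₀ (by positivity)] at h8
    have h9 : a ^ 8 = 2 ^ 8 * (a / 2) ^ 8 := by ring
    rw [h9]
    nlinarith
  rw [norm_mul, norm_mul, norm_div, mm, norm_mul]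
  have hmain : ‖g (zof ζ)‖ * (‖cexp (cbr ζ ^ 2)‖ * ‖nn ζ‖ / ‖3 * cbr ζ ^ 4‖ * ‖ww s ζ‖) ≤
      N * (27 / 2 * a ^ 4 * Real.exp (17 / 4 - a / 2)) := by
    calc _ = ‖g (zof ζ)‖ * (‖cexp (cbr ζ ^ 2)‖ * ‖nn ζ‖ * ‖3 * cbr ζ ^ 4‖⁻¹ * ‖ww s ζ‖) := by
            rw [div_eq_mul_inv]
      _ ≤ (N * ((3 * a) ^ 2 * (2 * a))) * (Real.exp (x ^ 2) * ((3 / 2) * a) * 1 *
            ((1 / 2) * Real.exp (5 / 4 - a))) := by gcongr
      _ = N * (27 / 2 * a ^ 4 * (Real.exp (x ^ 2) * Real.exp (5 / 4 - a))) := by ring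
      _ ≤ N * (27 / 2 * a ^ 4 * Real.exp (17 / 4 - a / 2)) := by
            rw [← Real.exp_add]
            gcongr
            linarith
  refine hmain.trans ?_
  have hy2 : (0 : ℝ) < 1 + y ^ 2 := by positivity
  rw [← div_eq_mul_inv, le_div_iff₀ hy2]
  have h10 : 1 + y ^ 2 ≤ 16 * a ^ 4 := by
    rw [← e6]
    calc ‖ζ‖ ^ 4 ≤ (2 * a) ^ 4 := by gcongr
      _ = _ := by ring
  have h11 : Real.exp (17 / 4 - a / 2) = Real.exp (17 / 4) * (Real.exp (a / 2))⁻¹ := by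
    rw [← Real.exp_neg, ← Real.exp_add]; ring_nf
  have h12 : a ^ 8 * (Real.exp (a / 2))⁻¹ ≤ 2 ^ 8 * (Nat.factorial 8 : ℝ) := by
    rw [← div_eq_mul_inv, div_le_iff₀ (Real.exp_pos _)]
    exact e7
  calc N * (27 / 2 * a ^ 4 * Real.exp (17 / 4 - a / 2)) * (1 + y ^ 2)
      ≤ N * (27 / 2 * a ^ 4 * Real.exp (17 / 4 - a / 2)) * (16 * a ^ 4) := by gcongr
    _ = N * (216 * Real.exp (17 / 4) * (a ^ 8 * (Real.exp (a / 2))⁻¹)) := by rw [h11]; ring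
    _ ≤ N * (216 * Real.exp (17 / 4) * (2 ^ 8 * (Nat.factorial 8 : ℝ))) := by gcongr
    _ = cst * N := by rw [cst]; ring

end Pool.Agent.Helper56.TwoSheet
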